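import Mathlib
import Pool.Agent.J4H26.PC.Q2
import Pool.Agent.J4H39.E10
import Pool.Agent.J4H39.K9
import Pool.Agent.J4H26.KT.W0

set_option autoImplicit false

/-! Project KP: correlations of `K` invariant sets in short windows.  Definitions and exact statements. -/

namespace Pool.Agent.J4H26.KP

open Finset Filter Real
open Pool.Agent.J4H39 (T od ex pb ns rn stP stK Rel par GK GS Cm th0 exK tN)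
open Pool.Agent.J4H26.PC (Iv Ph VV Cent InvS ct kS S_STM S_VLAW S_CENT)
open Pool.Agent.J4H26.KT (iw cw)

/-- correlation along the forms `3 ^ D i * n + r i`, `n ∈ [κ X, κ X + X)` -/
noncomputable def ccK {K : ℕ} (F : Fin K → ℤ → ℝ) (κ X : ℝ) (D : Fin K → ℕ) (r : Fin K → ℤ) : ℝ :=
  (∑ n ∈ Finset.Ico ⌈κ * X⌉ ⌈κ * X + X⌉, ∏ i, F i (3 ^ D i * n + r i)) / max X 1

/-- the largest exponent of `3` in the denominators of the companions -/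
def EK {K : ℕ} (s : Fin K → ℤ × ℤ) : ℕ := univ.sup (fun i => (-(s i).1).toNat)

open Classical in
/-- correlation along the companions with the labels `s`, `y ∈ [κ X, κ X + X)` -/
noncomputable def cgK {K : ℕ} (F : Fin K → ℤ → ℝ) (κ X : ℝ) (s : Fin K → ℤ × ℤ) : ℝ :=
  (∑ y ∈ Finset.Ico ⌈κ * X⌉ ⌈κ * X + X⌉, if (∀ i, ∃ y' : ℤ, Rel (s i) y y') then ∏ i, F i (par (s i) y) else 0) /
    max (X / 3 ^ EK s) 1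

/-- correlation of window averages at the points `3 ^ D i * x` -/
noncomputable def GGK {K : ℕ} (F : Fin K → ℤ → ℝ) (κ b X : ℝ) (D : Fin K → ℕ) : ℝ :=
  (∫ x in (κ * X)..(κ * X + X), ∏ i, Ph (F i) (3 ^ D i * x) (3 ^ D i * b)) / X

/-- the mean correlation at the end of `t` steps of independent walks from the exponents `D`; `i₀` is the base form -/
noncomputable def EEK {K : ℕ} (F : Fin K → ℤ → ℝ) (κ X : ℝ) (D : Fin K → ℕ) (i₀ : Fin K) (t : ℕ) : ℝ :=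
  exK t K (fun y => ccK F κ (3 ^ od t (y i₀) * X / 2 ^ t) (fun i => ((D i : ℤ) + od t (y i) - od t (y i₀)).toNat) (fun _ => 0))

open Classical in
/-- the product of the means over the classes of the relation `p` -/
noncomputable def mR {K : ℕ} (m : Finset (Fin K) → ℝ) (p : Fin K → Fin K → Prop) : ℝ :=
  ∏ B ∈ univ.image (fun i => univ.filter (fun j => p i j)), m B

/-- labels: the classes of equal labels -/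
noncomputable def mP {K : ℕ} (m : Finset (Fin K) → ℝ) (s : Fin K → ℤ × ℤ) : ℝ := mR m (fun i j => s i = s j)

/-- walks: the classes of equal positions -/
noncomputable def mZ {K : ℕ} (m : Finset (Fin K) → ℝ) (z : Fin K → ℤ) : ℝ := mR m (fun i j => z i = z j)

/-- an invariant function with mean `μ` near `κ`, with the rate `ψ` -/
def MnQ (ψ : ℝ → ℝ) (f : ℤ → ℝ) (κ μ : ℝ) : Prop := Iv f ∧ |μ| ≤ 1 ∧ ∃ q : ℝ, Cent ψ (fun n => (f n - μ) / 2) κ q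

/-- all the products have means -/
def CentK (ψ : ℝ → ℝ) {K : ℕ} (F : Fin K → ℤ → ℝ) (κ : ℝ) (m : Finset (Fin K) → ℝ) : Prop :=
  ∀ B : Finset (Fin K), B.Nonempty → MnQ ψ (fun n => ∏ i ∈ B, F i n) κ (m B)

/-- (J1) not merged, in the scaling of the error function law -/
def S_NSL : Prop := ∀ ε : ℝ, 0 < ε → ∀ᶠ k : ℕ in atTop, ∀ D r : ℤ, |r| ≤ 4 ^ ⌊(k : ℝ) ^ (13 / 20 : ℝ)⌋₊ →
  ns k (D, r) ≤ 2 * |(D : ℝ)| / √k + ε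

/-- (J2) the constants of the forms do not matter -/
def S_RST : Prop := ∀ (K : ℕ) (ε : ℝ), 0 < ε → ∀ᶠ L : ℕ in atTop, ∀ F : Fin K → ℤ → ℝ, (∀ i, Iv (F i)) → ∀ κ X : ℝ,
  |κ| ≤ 1 → (2 : ℝ) ^ L ≤ X → ∀ (D : Fin K → ℕ) (r : Fin K → ℤ), (∀ i, |r i| ≤ 4 ^ ⌊(L : ℝ) ^ (3 / 4 : ℝ)⌋₊) →
  |ccK F κ X D r - ccK F κ X D (fun _ => 0)| ≤ ε

/-- (J3) the correlations vary slowly, at the scale of the square root of the height -/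
def S_LIPS : Prop := ∀ K : ℕ, ∃ M : ℝ, 0 < M ∧ ∀ ε : ℝ, 0 < ε → ∀ᶠ L : ℕ in atTop, ∀ F : Fin K → ℤ → ℝ, (∀ i, Iv (F i)) →
  ∀ κ X : ℝ, |κ| ≤ 1 → (2 : ℝ) ^ L ≤ X → ∀ (a : ℕ) (D d : Fin K → ℕ), (a : ℝ) ≤ (L : ℝ) ^ (3 / 5 : ℝ) →
  (∀ i, (D i : ℝ) ≤ (L : ℝ) ^ (3 / 5 : ℝ)) → (∀ i, (d i : ℝ) ≤ (L : ℝ) ^ (3 / 5 : ℝ)) →
  |ccK F κ (3 ^ a * X) (fun i => D i + d i) (fun _ => 0) - ccK F κ X D (fun _ => 0)| ≤ M * (a + ∑ i, (d i : ℝ)) / √L + ε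

/-- (J4) one stage, from any compatible labels; one of the forms is the base -/
def S_G1K : Prop := ∀ K : ℕ, ∃ C : ℝ, 0 < C ∧ ∀ᶠ w : ℕ in atTop, ∀ j, w ^ 80 ≤ j → j ≤ 2 * w ^ 80 →
  ∀ F : Fin K → ℤ → ℝ, (∀ i, Iv (F i)) → ∀ κ : ℝ, |κ| ≤ 1 → ∀ X : ℝ, (2 : ℝ) ^ (4 * j) ≤ X →
  ∀ s : Fin K → ℤ × ℤ, Cm s → (∃ i, s i = (0, 0)) → (∀ i, |(s i).1| ≤ w ^ 48 ∧ |(s i).2| ≤ 4 ^ (w ^ 56)) →
  |cgK F κ X s - ex j (fun y => cgK F κ (3 ^ od j y * X / 2 ^ j) (rn stK j s y))| ≤ C / w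

/-- (J5) many stages -/
def S_TRK : Prop := ∀ (K : ℕ) (ρ ε : ℝ), 1 < ρ → 0 < ε → ∀ᶠ t : ℕ in atTop,
  ∀ F : Fin K → ℤ → ℝ, (∀ i, Iv (F i)) → ∀ κ : ℝ, |κ| ≤ 1 → ∀ X : ℝ, 0 < X → ρ * th0 * t ≤ logb 2 X →
  ∀ D : Fin K → ℕ, (∃ i, D i = 0) → (∀ i, (D i : ℝ) ≤ (t : ℝ) ^ (29 / 50 : ℝ)) →
  |ccK F κ X D (fun _ => 0) - ex t (fun y => cgK F κ (3 ^ od t y * X / 2 ^ t) (rn stK t (fun i => ((D i : ℤ), 0)) y))| ≤ ε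

/-- (J6) far from each other, the exponents are independent -/
def S_LAWS : Prop := ∀ (K : ℕ) (M ε : ℝ), 0 < M → 0 < ε → ∃ G : ℝ, 0 < G ∧ ∀ᶠ t : ℕ in atTop,
  ∀ D : Fin K → ℕ, (∀ i, (D i : ℝ) ≤ (t : ℝ) ^ (29 / 50 : ℝ)) → (∀ i j, i ≠ j → G * √t ≤ |(D i : ℝ) - D j|) →
  ∀ φ : (Fin K → ℤ) → ℝ, (∀ A, |φ A| ≤ 1) → (∀ A A', |φ A - φ A'| ≤ M * (∑ i, |(A i : ℝ) - A' i|) / √t + ε) →
  |ex t (fun y => φ (fun i => (D i : ℤ) + od t (3 ^ D i * y))) - exK t K (fun y => φ (fun i => (D i : ℤ) + od t (y i)))| ≤ 4 * ε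

/-- (J7) window averages and forms -/
def S_GAMK : Prop := ∀ (K : ℕ) (ε : ℝ), 0 < ε → ∀ᶠ w : ℕ in atTop, ∀ F : Fin K → ℤ → ℝ, (∀ i, Iv (F i)) →
  ∀ κ X b : ℝ, |κ| ≤ 1 → (2 : ℝ) ^ (w ^ 80) ≤ X → (w : ℝ) ^ 2 ≤ b → b ≤ (2 : ℝ) ^ (w ^ 54) →
  ∀ D : Fin K → ℕ, (∀ i, D i ≤ w ^ 48) → |GGK F κ b X D - ccK F κ X D (fun _ => 0)| ≤ ε

/-- (J8) long windows and independent walks -/
def S_EEG : Prop := ∀ (K : ℕ) (ε : ℝ), 0 < ε → ∃ G : ℝ, 0 < G ∧ ∀ᶠ w : ℕ in atTop, ∀ F : Fin K → ℤ → ℝ, (∀ i, Iv (F i)) →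
  ∀ κ X : ℝ, |κ| ≤ 1 → 0 < X → ∀ t : ℕ, w ^ 52 ≤ t → t ≤ 100 * w ^ 88 → 18 * (w : ℝ) ^ 80 ≤ logb 2 X - th0 * t →
  ∀ (D : Fin K → ℕ) (i₀ : Fin K), D i₀ = 0 → (∀ i, 2 * D i ≤ w ^ 48) → (∀ i, i ≠ i₀ → G * √t ≤ D i) →
  |GGK F κ ((2 : ℝ) ^ (th0 * t + (w : ℝ) ^ 53)) X D - EEK F κ X D i₀ t| ≤ ε

/-- (J9) forms far from each other and independent walks -/
def S_EEC : Prop := ∀ (K : ℕ) (ρ ε : ℝ), 1 < ρ → 0 < ε → ∃ G : ℝ, 0 < G ∧ ∀ᶠ t : ℕ in atTop,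
  ∀ F : Fin K → ℤ → ℝ, (∀ i, Iv (F i)) → ∀ κ X : ℝ, |κ| ≤ 1 → 0 < X → ρ * th0 * t ≤ logb 2 X → logb 2 X ≤ 4 * t →
  ∀ (D : Fin K → ℕ) (i₀ : Fin K), D i₀ = 0 → (∀ i, (D i : ℝ) ≤ (t : ℝ) ^ (57 / 100 : ℝ)) →
  (∀ i j, i ≠ j → G * √t ≤ |(D i : ℝ) - D j|) → |ccK F κ X D (fun _ => 0) - EEK F κ X D i₀ t| ≤ ε

/-- (J10) long windows and means -/
def S_GMU : Prop := ∀ ψ : ℝ → ℝ, Tendsto ψ atTop (nhds 0) → ∀ (K : ℕ) (ε : ℝ), 0 < ε → ∃ η₀ : ℝ, 0 < η₀ ∧ ∀ η : ℝ, 0 < η →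
  η < η₀ → ∀ᶠ L : ℕ in atTop, ∀ (F : Fin K → ℤ → ℝ) (κ : ℝ) (μ : Fin K → ℝ), (∀ i, MnQ ψ (F i) κ (μ i)) →
  ∀ a X : ℝ, (2 : ℝ) ^ L ≤ X → X ^ (1 - η) / 2 ≤ a → a ≤ 2 * X ^ (1 - η) → ∀ D : Fin K → ℕ, (∀ i, (D i : ℝ) ≤ (L : ℝ) ^ (3 / 5 : ℝ)) →
  |GGK F κ a X D - ∏ i, μ i| ≤ ε

/-- (J11) the forms far from each other are not correlated -/
def S_UNMK : Prop := ∀ ψ : ℝ → ℝ, Tendsto ψ atTop (nhds 0) → ∀ (K : ℕ) (ε : ℝ), 0 < ε → ∃ G : ℝ, 0 < G ∧ ∀ᶠ L : ℕ in atTop,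
  ∀ (F : Fin K → ℤ → ℝ) (κ : ℝ) (μ : Fin K → ℝ), (∀ i, MnQ ψ (F i) κ (μ i)) → ∀ X : ℝ, 0 < X → (L : ℝ) ≤ logb 2 X →
  logb 2 X ≤ 4 * L → ∀ D : Fin K → ℕ, (∃ i, D i = 0) → (∀ i, (D i : ℝ) ≤ (L : ℝ) ^ (14 / 25 : ℝ)) →
  (∀ i j, i ≠ j → G * √L ≤ |(D i : ℝ) - D j|) → |ccK F κ X D (fun _ => 0) - ∏ i, μ i| ≤ ε

/-- (J12) the same for labels, with merged forms -/
def S_BLK : Prop := ∀ ψ : ℝ → ℝ, Tendsto ψ atTop (nhds 0) → ∀ (K : ℕ) (ε : ℝ), 0 < ε → ∃ G : ℝ, 0 < G ∧ ∀ᶠ L : ℕ in atTop,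
  ∀ (F : Fin K → ℤ → ℝ) (κ : ℝ) (m : Finset (Fin K) → ℝ), CentK ψ F κ m → ∀ X : ℝ, 0 < X → 11 / 10 * (L : ℝ) ≤ logb 2 X →
  logb 2 X ≤ 3 * L → ∀ s : Fin K → ℤ × ℤ, Cm s → (∃ i, s i = (0, 0)) →
  (∀ i, |((s i).1 : ℝ)| ≤ (L : ℝ) ^ (11 / 20 : ℝ) ∧ |(s i).2| ≤ 4 ^ ⌊(L : ℝ) ^ (18 / 25 : ℝ)⌋₊) →
  (∀ i j, s i = s j ∨ G * √L ≤ |((s i).1 : ℝ) - (s j).1|) → |cgK F κ X s - mP m s| ≤ ε

/-- (J13) the correlation along the forms `3 ^ D i * n` is given by the pattern of the mergings -/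
def S_CORRK : Prop := ∀ ψ : ℝ → ℝ, Tendsto ψ atTop (nhds 0) → ∀ (K : ℕ) (ε η' : ℝ), 0 < ε → 0 < η' → ∃ η₀ : ℝ, 0 < η₀ ∧
  ∀ η : ℝ, 0 < η → η < η₀ → ∀ᶠ t : ℕ in atTop, ∀ (F : Fin K → ℤ → ℝ) (κ : ℝ) (m : Finset (Fin K) → ℝ), CentK ψ F κ m →
  ∀ X : ℝ, 0 < X → (1 + η) * th0 * t ≤ logb 2 X → logb 2 X ≤ (1 + 2 * η) * th0 * t →
  ∀ D : Fin K → ℕ, (∃ i, D i = 0) → (∀ i, (D i : ℝ) ≤ (t : ℝ) ^ (27 / 50 : ℝ)) →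
  |ccK F κ X D (fun _ => 0) - ex t (fun y => mP m (rn stK t (fun i => ((D i : ℤ), 0)) y))| ≤
    ε + 8 * ∑ i, ∑ j, (ns t ((D i : ℤ) - D j, 0) - ns (t + ⌊η' * t⌋₊) ((D i : ℤ) - D j, 0))

/-- (J14) the pattern changes only when two forms merge -/
def S_PAT : Prop := ∀ (K t t' : ℕ), t ≤ t' → ∀ m : Finset (Fin K) → ℝ, (∀ B, |m B| ≤ 1) → ∀ D : Fin K → ℕ,
  |ex t (fun y => mP m (rn stK t (fun i => ((D i : ℤ), 0)) y)) - ex t' (fun y => mP m (rn stK t' (fun i => ((D i : ℤ), 0)) y))| ≤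
    2 * ∑ i, ∑ j, (ns t ((D i : ℤ) - D j, 0) - ns t' ((D i : ℤ) - D j, 0))

/-- (J15) the moments of the window averages -/
def S_MOM : Prop := ∀ ψ : ℝ → ℝ, Tendsto ψ atTop (nhds 0) → ∀ (K : ℕ) (θ : ℝ), 0 < θ → θ < 1 → ∀ ε : ℝ, 0 < ε → ∀ᶠ N : ℕ in atTop,
  ∀ (F : Fin (K + 1) → ℤ → ℝ) (κ : ℝ) (m : Finset (Fin (K + 1)) → ℝ), CentK ψ F κ m → ∀ a : ℝ, (N : ℝ) ^ θ / 2 ≤ a →
  a ≤ 2 * (N : ℝ) ^ θ →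
  |(∫ x in (κ * N)..(κ * N + N), ∏ i, Ph (F i) x a) / N -
    iw (cw (mZ m) (tN (1 / th0) N - tN (θ / th0) N)) (tN (θ / th0) N) (fun _ => 0)| ≤ ε

open Classical in
/-- the indicator function of `R` on the integers of sign `s` -/
noncomputable def gR (s : ℤ) (R : Set ℤ) (n : ℤ) : ℝ := if 0 < s * n ∧ n ∈ R then 1 else 0

/-- (J16) the indicator functions of invariant sets satisfy `CentK`, with a common rate -/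
def S_CENTK : Prop := ∃ ψ : ℝ → ℝ, Tendsto ψ atTop (nhds 0) ∧ ∀ (K : ℕ) (s : ℤ), (s = 1 ∨ s = -1) → ∀ R : Fin K → Set ℤ,
  (∀ i, InvS s (R i)) → ∃ m : Finset (Fin K) → ℝ, (∀ B, Tendsto (fun N : ℕ => ct s {n | ∀ i ∈ B, n ∈ R i} N / N) atTop (nhds (m B))) ∧
    CentK ψ (fun i => gR s (R i)) (kS s) m

/-- the mean, over the `N` integers `n` of sign `s` with `|n| ≤ N`, of the products of the proportions of the sets `R i` in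
`n + 1, …, n + H` -/
noncomputable def mom {K : ℕ} (s : ℤ) (R : Fin K → Set ℤ) (N H : ℕ) : ℝ :=
  (∑ n ∈ Finset.Icc 1 N, ∏ i, (({h : ℕ | (1 ≤ h ∧ h ≤ H) ∧ s * n + h ∈ R i}.ncard : ℝ) / H)) / N

/-- (J17) sums and integrals -/
def S_SHR : Prop := ∀ (K : ℕ) (θ ε : ℝ), 0 < θ → θ < 1 → 0 < ε → ∀ᶠ N : ℕ in atTop, ∀ (s : ℤ), (s = 1 ∨ s = -1) →
  ∀ R : Fin K → Set ℤ, |mom s R N ⌊(N : ℝ) ^ θ⌋₊ -
    (∫ x in (kS s * N)..(kS s * N + N), ∏ i, Ph (gR s (R i)) x ⌊(N : ℝ) ^ θ⌋₊) / N| ≤ ε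

end Pool.Agent.J4H26.KP
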