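import Mathlib
import Pool.Agent.J4H26.KP.Q
import Pool.Agent.J4H26.KT.W2
import Pool.Agent.J4H39.KP.F2

set_option autoImplicit false

/-! Project KP, the support of the law of the share: exact statements.  `sw g s d` is the expected value of `g` at the
position after `s` steps of one walk from `d`; `U (2 * k) (2 * d)` is the probability that two walks at the distance `d`
do not meet in `k` steps (`Pool.Agent.J4H39.KP.cw_ne`); `nc u` is the number of different positions. -/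

namespace Pool.Agent.J4H26.KP

open Finset Filter Real
open Pool.Agent.J4H39 (U)
open Pool.Agent.J4H39.KP (nc)
open Pool.Agent.J4H26.KT (iw cw sw)

/-- the walks `i < a` are apart from the walks `i ≥ a` -/
def Sep (a : ℕ) {K : ℕ} (u : Fin K → ℤ) : Prop := ∀ i j : Fin K, (i : ℕ) < a → a ≤ (j : ℕ) → u i ≠ u j

open Classical in
/-- `δ` to the number of the clusters, if the two groups are apart -/
noncomputable def sepW (a : ℕ) {K : ℕ} (δ : ℝ) (u : Fin K → ℤ) : ℝ := if Sep a u then δ ^ nc u else 0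

open Classical in
/-- the indicator function of a half line -/
noncomputable def le1 (p : ℤ) (u : ℤ) : ℝ := if u ≤ p then 1 else 0

open Classical in
/-- the indicator function of a half line -/
noncomputable def ge1 (q : ℤ) (u : ℤ) : ℝ := if q ≤ u then 1 else 0

/-- (P1) two walks at the distance `g √k` do not meet, with positive probability (from `U_erf`, `Erf`) -/
def S_UL : Prop := ∀ g : ℝ, 0 < g → ∃ c : ℝ, 0 < c ∧ ∀ᶠ k : ℕ in atTop, ∀ d : ℤ, g * √k ≤ |(d : ℝ)| → c ≤ U (2 * k) (2 * d)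

/-- (P2) two walks at the distance `G √k` do not meet, with a probability near `1` (from `U_erf`, `Erf_lim`) -/
def S_UFAR : Prop := ∀ η : ℝ, 0 < η → ∃ G : ℝ, 0 < G ∧ ∀ᶠ k : ℕ in atTop, ∀ d : ℤ, G * √k ≤ |(d : ℝ)| → 1 - η ≤ U (2 * k) (2 * d)

/-- (P3) quantiles of the binomial law (`Fb_diff` and a bound `C / √s` for `pm s d`, e.g. `p_le_U`) -/
def S_QNT : Prop := ∀ x η : ℝ, 0 < x → x < 1 → 0 < η → ∃ g : ℝ, 0 < g ∧ ∀ᶠ s : ℕ in atTop, ∃ p q : ℤ,
  g * √s ≤ (q : ℝ) - p ∧ x - η ≤ sw (le1 p) s 0 ∧ 1 - x - η ≤ sw (ge1 q) s 0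

/-- (P4) every interval of length `w √s` at the distance `y √s` from the mean has a positive mass (from `U_erf`, `U_eq_Sm`
and symmetry, or by a direct estimate of the binomial coefficients) -/
def S_MASS : Prop := ∀ y w : ℝ, 0 ≤ y → 0 < w → ∃ c : ℝ, 0 < c ∧ ∀ᶠ s : ℕ in atTop,
  c ≤ sw (fun u : ℤ => ge1 ⌈(s : ℝ) / 2 + y * √s⌉ u * le1 ⌊(s : ℝ) / 2 + (y + w) * √s⌋ u) s 0

/-- (P5) the two groups apart, the number of the clusters small.
Proof.  Let `p`, `q` be as in (P3) and `A z = ∏ i < a, le1 p (z i) * ∏ i ≥ a, ge1 q (z i)`.  By `iw_cons` / induction on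
the number of walks `iw A s 0 = (sw (le1 p) s 0) ^ a * (sw (ge1 q) s 0) ^ b`, and
`iw (A * 1 [|2 z i - s| ≥ 2 M √s]) s 0 ≤ iw A s 0 * (1 / (4 M ^ 2)) / ξ`, `ξ` the least of the two masses.  For `A z = 1`
the walks keep their weak order, so the groups are apart at the end if the last walk of the first group and the first
walk of the second group do not meet: probability at least `c` by (P1).  The expected number of the clusters is bounded
as in `Pool.Agent.J4H39.KP.cw_nc`, `cells_le` (with the factor `A`), so `iw (A * cw nc k) s 0 ≤ γ K * iw A s 0`.  With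
`sepW a δ u ≥ e^{-l b} ((1 + l b) 1_sep - l nc u)`, `l = - log δ`, `b = γ K / c`, the expected value of `A * sepW` is at
least `iw A s 0 * c * e^{-l γ K / c}`. -/
def S_SUPW : Prop := ∀ δ ρ ρ' x κ : ℝ, 0 < δ → δ ≤ 1 → 0 < ρ' → 0 < ρ → 0 < x → x < 1 → 0 < κ → κ < 1 → ∃ K₀ : ℕ,
  ∀ a b : ℕ, K₀ ≤ a + b → ∀ᶠ k : ℕ in atTop, ∀ s : ℕ, ρ' * k ≤ (s : ℝ) → (s : ℝ) ≤ ρ * k →
  2 * κ ^ (a + b) * (x ^ a * (1 - x) ^ b) ≤ iw (cw (sepW a δ : (Fin (a + b) → ℤ) → ℝ) k) s (fun _ => 0)

/-- (P6) the number of the clusters is large.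
Proof.  Choose `J` with `δ ^ J ≤ η / 4`, `D` with (P2) for `η / (4 J ^ 2)`, the intervals `I_j = [s / 2 + j D √s,
s / 2 + (j D + 1) √s]`, `j < J` (`D ≥ 2`, large also for the ratio of `√s` and `√k`).  If each `I_j` contains one of the
`z i`, choose one, `i_j`; then `δ ^ nc u ≤ δ ^ J + ∑ over pairs of 1 [u (i_j) = u (i_j')]`, and the expected value of the
sum is small by (P2) (`cw_ne`).  The probability that some `I_j` contains no `z i` is at most `J * (1 - c) ^ K` by (P4)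
and the independence of the `z i`. -/
def S_INF : Prop := ∀ η δ ρ ρ' : ℝ, 0 < η → 0 ≤ δ → δ < 1 → 0 < ρ' → 0 < ρ → ∃ K : ℕ, ∀ᶠ k : ℕ in atTop, ∀ s : ℕ,
  ρ' * k ≤ (s : ℝ) → (s : ℝ) ≤ ρ * k → iw (cw (fun u : Fin (K + 1) → ℤ => δ ^ nc u) k) s (fun _ => 0) ≤ η

end Pool.Agent.J4H26.KP
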