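import Mathlib
import Pool.Agent.J4H26.KP.Q
import Pool.Agent.J4H26.KT.W2

set_option autoImplicit false

/-! Project KP, last part (LIM): the expected values for the walks converge.  Exact statements. -/

namespace Pool.Agent.J4H26.KP

open Finset Filter Real
open Pool.Agent.J4H39 (th0 tN)
open Pool.Agent.J4H26.KT (iw cw ind sw)
open Pool.Agent.J4H26.AF (Fb)

/-- (N1) the distribution functions of the binomial laws are close to each other -/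
def S_BIN : Prop := ∀ ε : ℝ, 0 < ε → ∃ t₀ : ℕ, ∀ t t' : ℕ, t₀ ≤ t → t₀ ≤ t' → ∀ d d' : ℤ,
  |Fb t d - Fb t' d'| ≤ |(2 * (d : ℝ) - t) / √t - (2 * (d' : ℝ) - t') / √t'| + ε

/-- (N2) the distribution functions of coalescing walks at two scales, starts in the same order -/
def S_CDFE : Prop := ∀ (K : ℕ) (B ε : ℝ), 0 < B → 0 < ε → ∃ β : ℝ, 0 < β ∧ ∃ t₀ : ℕ, ∀ t t' : ℕ, t₀ ≤ t → t₀ ≤ t' →
  ∀ h h' : ℕ, 1 ≤ h → 1 ≤ h' → |(h : ℝ) / √t - h' / √t'| ≤ β → ∀ e : Fin K → ℤ, (∀ i, |(e i : ℝ)| ≤ B) → ∀ z z' : Fin K → ℤ,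
  (∃ σ : Equiv.Perm (Fin K), Monotone (fun i => z (σ i)) ∧ Monotone (fun i => z' (σ i))) →
  (∀ i, |(z i : ℝ) / √t - z' i / √t'| ≤ β) →
  |cw (ind (fun i => (h : ℤ) * e i - 1)) t (fun i => z i - (t / 2 : ℕ)) -
    cw (ind (fun i => (h' : ℤ) * e i - 1)) t' (fun i => z' i - (t' / 2 : ℕ))| ≤ ε

/-- (N3) the distribution functions of coalescing walks are Lipschitz in the start -/
def S_CLIP : Prop := ∀ K : ℕ, ∃ C : ℝ, 0 < C ∧ ∀ t : ℕ, 1 ≤ t → ∀ y z z' : Fin K → ℤ,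
  |cw (ind y) t z - cw (ind y) t z'| ≤ C * (∑ i, |(z i : ℝ) - z' i|) / √t

/-- (N4) the law of the pattern is continuous in the start -/
def S_NEAR : Prop := ∀ (K : ℕ) (ε : ℝ), 0 < ε → ∃ β : ℝ, 0 < β ∧ ∃ t₀ : ℕ, ∀ t : ℕ, t₀ ≤ t → ∀ m : Finset (Fin K) → ℝ,
  (∀ B, |m B| ≤ 1) → ∀ z z' : Fin K → ℤ, (∀ i, |(z i : ℝ) - z' i| ≤ β * √t) → |cw (mZ m) t z - cw (mZ m) t z'| ≤ ε

/-- (N5) the law of the pattern at two scales -/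
def S_CROSS : Prop := ∀ (K : ℕ) (B ε : ℝ), 0 < B → 0 < ε → ∃ β : ℝ, 0 < β ∧ ∃ t₀ : ℕ, ∀ t t' : ℕ, t₀ ≤ t → t₀ ≤ t' →
  ∀ m : Finset (Fin K) → ℝ, (∀ B, |m B| ≤ 1) → ∀ z z' : Fin K → ℤ, (∀ i, |(z i : ℝ)| ≤ B * √t) →
  (∀ i, |(z i : ℝ) / √t - z' i / √t'| ≤ β) → |cw (mZ m) t z - cw (mZ m) t' z'| ≤ ε

/-- (N6) the central limit theorem, as closeness of two binomial laws -/
def S_CLT1 : Prop := ∀ M ε : ℝ, 0 < M → 0 < ε → ∃ s₀ : ℕ, ∀ s s' : ℕ, s₀ ≤ s → s₀ ≤ s' → ∀ φ : ℝ → ℝ, (∀ x, |φ x| ≤ 1) →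
  (∀ x x', |φ x - φ x'| ≤ M * |x - x'| + ε) →
  |sw (fun u : ℤ => φ ((2 * (u : ℝ) - s) / √s)) s 0 - sw (fun u : ℤ => φ ((2 * (u : ℝ) - s') / √s')) s' 0| ≤ 4 * ε

/-- (N7) the same for independent walks -/
def S_IWK : Prop := ∀ (K : ℕ) (M ε : ℝ), 0 < M → 0 < ε → ∃ s₀ : ℕ, ∀ s s' : ℕ, s₀ ≤ s → s₀ ≤ s' →
  ∀ g : (Fin K → ℝ) → ℝ, (∀ x, |g x| ≤ 1) → (∀ x x', |g x - g x'| ≤ M * (∑ i, |x i - x' i|) + ε) →
  |iw (fun z : Fin K → ℤ => g (fun i => (2 * (z i : ℝ) - s) / √s)) s (fun _ => 0) -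
    iw (fun z : Fin K → ℤ => g (fun i => (2 * (z i : ℝ) - s') / √s')) s' (fun _ => 0)| ≤ 4 * K * ε

/-- (N8) the expected values for the walks converge -/
def S_LIM : Prop := ∀ (K : ℕ) (θ : ℝ), 0 < θ → θ < 1 → ∀ m : Finset (Fin K) → ℝ, (∀ B, |m B| ≤ 1) → ∃ W : ℝ,
  Tendsto (fun N : ℕ => iw (cw (mZ m) (tN (1 / th0) N - tN (θ / th0) N)) (tN (θ / th0) N) (fun _ => 0)) atTop (nhds W)

end Pool.Agent.J4H26.KP
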