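import Mathlib
import Pool.Agent.J4H26.KP.Q

set_option autoImplicit false

/-! Project KP: the theorem for invariant sets. -/

namespace Pool.Agent.J4H26.KP

open Finset Filter Real
open Pool.Agent.J4H39 (T od ex pb ns rn stP stK Rel par GK GS Cm th0 exK tN)
open Pool.Agent.J4H26.PC (Iv Ph VV Cent InvS ct kS S_STM S_VLAW S_CENT)
open Pool.Agent.J4H26.KT (iw cw)

theorem mR_congr {K : ℕ} {m m' : Finset (Fin K) → ℝ} (h : ∀ B, B.Nonempty → m B = m' B) {p : Fin K → Fin K → Prop}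
    (hp : ∀ i, p i i) : mR m p = mR m' p := by
  classical
  unfold mR
  apply prod_congr rfl
  intro B hB
  rw [mem_image] at hB
  obtain ⟨i, _, rfl⟩ := hB
  apply h
  exact ⟨i, by rw [mem_filter]; exact ⟨mem_univ _, hp i⟩⟩

theorem mZ_congr {K : ℕ} {m m' : Finset (Fin K) → ℝ} (h : ∀ B, B.Nonempty → m B = m' B) : mZ m = mZ m' := by
  funext z
  exact mR_congr h (fun _ => rfl)

theorem t_FIN (hM : S_MOM) (hC : S_CENTK) (hS : S_SHR) (K : ℕ) (θ : ℝ) (hθ : 0 < θ) (hθ1 : θ < 1) (s : ℤ) (hs : s = 1 ∨ s = -1)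
    (ε : ℝ) (hε : 0 < ε) : ∀ᶠ N : ℕ in atTop, ∀ (R : Fin (K + 1) → Set ℤ) (δ : Finset (Fin (K + 1)) → ℝ), (∀ i, InvS s (R i)) →
      (∀ B, B.Nonempty → Tendsto (fun N : ℕ => ct s {n | ∀ i ∈ B, n ∈ R i} N / N) atTop (nhds (δ B))) →
      |mom s R N ⌊(N : ℝ) ^ θ⌋₊ - iw (cw (mZ δ) (tN (1 / th0) N - tN (θ / th0) N)) (tN (θ / th0) N) (fun _ => 0)| ≤ ε := by
  obtain ⟨ψ, hψ, hC⟩ := hC
  have hlim : Tendsto (fun N : ℕ => (N : ℝ) ^ θ) atTop atTop := (tendsto_rpow_atTop hθ).comp tendsto_natCast_atTop_atTop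
  filter_upwards [hM ψ hψ K θ hθ hθ1 (ε / 2) (half_pos hε), hS (K + 1) θ (ε / 2) hθ hθ1 (half_pos hε), hlim.eventually_ge_atTop 1]
    with N h1 h2 h3 R δ hR hδ
  obtain ⟨m, hm1, hm2⟩ := hC (K + 1) s hs R hR
  have e : mZ δ = mZ m := mZ_congr (fun B hB => tendsto_nhds_unique (hδ B hB) (hm1 B))
  rw [e]
  have h4 := Nat.floor_le (show 0 ≤ (N : ℝ) ^ θ by positivity)
  have h5 := Nat.lt_floor_add_one ((N : ℝ) ^ θ)
  have h6 : (1 : ℝ) ≤ ⌊(N : ℝ) ^ θ⌋₊ := by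
    have : 1 ≤ ⌊(N : ℝ) ^ θ⌋₊ := Nat.le_floor (by exact_mod_cast h3)
    exact_mod_cast this
  have g1 := h1 (fun i => gR s (R i)) (kS s) m hm2 ⌊(N : ℝ) ^ θ⌋₊ (by linarith) (by linarith)
  have g2 := h2 s hs R
  refine (abs_sub_le _ _ _).trans ((add_le_add g2 g1).trans ?_)
  linarith

end Pool.Agent.J4H26.KP
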