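import Mathlib
import Pool.Agent.J4H26.KP.Fin

set_option autoImplicit false

/-! Project KP: the law of the local density depends only on the density. -/

namespace Pool.Agent.J4H26.KP

open Finset Filter Real
open Pool.Agent.J4H39 (T od ex pb ns rn stP stK Rel par GK GS Cm th0 exK tN)
open Pool.Agent.J4H26.PC (Iv Ph VV Cent InvS ct kS S_STM S_VLAW S_CENT)
open Pool.Agent.J4H26.KT (iw cw)

/-- the proportion of `R` in `n + 1, …, n + H` -/
noncomputable def sh (R : Set ℤ) (H : ℕ) (n : ℤ) : ℝ := ({h : ℕ | (1 ≤ h ∧ h ≤ H) ∧ n + h ∈ R}.ncard : ℝ) / H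

theorem sh_mem (R : Set ℤ) (H : ℕ) (n : ℤ) : sh R H n ∈ Set.Icc (0 : ℝ) 1 := by
  unfold sh
  refine ⟨by positivity, ?_⟩
  rcases Nat.eq_zero_or_pos H with h | h
  · subst h; simp
  · have hH : (0 : ℝ) < H := by exact_mod_cast h
    rw [div_le_one hH]
    have h1 : {h : ℕ | (1 ≤ h ∧ h ≤ H) ∧ n + h ∈ R} ⊆ ((Finset.Icc 1 H : Finset ℕ) : Set ℕ) := by
      intro x hx
      rw [Finset.mem_coe, Finset.mem_Icc]
      exact hx.1
    have h2 := Set.ncard_le_ncard h1 (Finset.finite_toSet _)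
    rw [Set.ncard_coe_finset, Nat.card_Icc] at h2
    have h3 : {h : ℕ | (1 ≤ h ∧ h ≤ H) ∧ n + h ∈ R}.ncard ≤ H := by omega
    exact_mod_cast h3

/-- the mean of a function of the local density -/
noncomputable def ms (s : ℤ) (R : Set ℤ) (N H : ℕ) (φ : ℝ → ℝ) : ℝ := (∑ n ∈ Finset.Icc 1 N, φ (sh R H (s * n))) / N

theorem ms_pow (s : ℤ) (R : Set ℤ) (N H K : ℕ) : ms s R N H (fun x => x ^ (K + 1)) = mom (K := K + 1) s (fun _ => R) N H := by
  unfold ms mom sh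
  congr 1
  apply sum_congr rfl
  intro n _
  rw [prod_const, card_univ, Fintype.card_fin]

theorem ms_add (s : ℤ) (R : Set ℤ) (N H : ℕ) (φ φ' : ℝ → ℝ) : ms s R N H (fun x => φ x + φ' x) = ms s R N H φ + ms s R N H φ' := by
  unfold ms
  rw [sum_add_distrib, add_div]

theorem ms_smul (s : ℤ) (R : Set ℤ) (N H : ℕ) (c : ℝ) (φ : ℝ → ℝ) : ms s R N H (fun x => c * φ x) = c * ms s R N H φ := by
  unfold ms
  rw [← mul_sum, mul_div_assoc]

theorem ms_near {s : ℤ} {R : Set ℤ} {N H : ℕ} {φ φ' : ℝ → ℝ} {ε : ℝ} (hε : 0 ≤ ε) (h : ∀ x ∈ Set.Icc (0 : ℝ) 1, |φ x - φ' x| ≤ ε) :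
    |ms s R N H φ - ms s R N H φ'| ≤ ε := by
  unfold ms
  rw [← sub_div, ← sum_sub_distrib, abs_div, Nat.abs_cast]
  rcases Nat.eq_zero_or_pos N with h0 | h0
  · subst h0; simpa using hε
  · have hN : (0 : ℝ) < N := by exact_mod_cast h0
    rw [div_le_iff₀ hN]
    refine (abs_sum_le_sum_abs _ _).trans ?_
    have : ∀ n ∈ Finset.Icc 1 N, |φ (sh R H (s * n)) - φ' (sh R H (s * n))| ≤ ε := fun n _ => h _ (sh_mem R H _)
    refine (sum_le_card_nsmul _ _ _ this).trans ?_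
    rw [Nat.card_Icc, nsmul_eq_mul, Nat.add_sub_cancel, mul_comm]

/-- the densities of the intersections for one set -/
theorem dens_const {s : ℤ} {R : Set ℤ} {δ : ℝ} (h : Tendsto (fun N : ℕ => ct s R N / N) atTop (nhds δ)) {K : ℕ}
    (B : Finset (Fin K)) (hB : B.Nonempty) :
    Tendsto (fun N : ℕ => ct s {n | ∀ i ∈ B, n ∈ (fun _ : Fin K => R) i} N / N) atTop (nhds δ) := by
  have e : {n : ℤ | ∀ i ∈ B, n ∈ (fun _ : Fin K => R) i} = R := by
    ext n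
    simp only [Set.mem_setOf_eq]
    constructor
    · intro h
      obtain ⟨i, hi⟩ := hB
      exact h i hi
    · intro h i _
      exact h
  rw [e]
  exact h

def S_FIN : Prop := ∀ (K : ℕ) (θ : ℝ), 0 < θ → θ < 1 → ∀ s : ℤ, (s = 1 ∨ s = -1) → ∀ ε : ℝ, 0 < ε → ∀ᶠ N : ℕ in atTop,
  ∀ (R : Fin (K + 1) → Set ℤ) (δ : Finset (Fin (K + 1)) → ℝ), (∀ i, InvS s (R i)) →
      (∀ B, B.Nonempty → Tendsto (fun N : ℕ => ct s {n | ∀ i ∈ B, n ∈ R i} N / N) atTop (nhds (δ B))) →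
      |mom s R N ⌊(N : ℝ) ^ θ⌋₊ - iw (cw (mZ δ) (tN (1 / th0) N - tN (θ / th0) N)) (tN (θ / th0) N) (fun _ => 0)| ≤ ε

/-- two sets with the same density, powers -/
theorem two_pow (hF : S_FIN) {θ : ℝ} (hθ : 0 < θ) (hθ1 : θ < 1) (K : ℕ) {ε : ℝ} (hε : 0 < ε) : ∀ᶠ N : ℕ in atTop,
    ∀ (s s' : ℤ) (R R' : Set ℤ) (δ : ℝ), (s = 1 ∨ s = -1) → (s' = 1 ∨ s' = -1) → InvS s R → InvS s' R' →
      Tendsto (fun N : ℕ => ct s R N / N) atTop (nhds δ) → Tendsto (fun N : ℕ => ct s' R' N / N) atTop (nhds δ) →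
      |ms s R N ⌊(N : ℝ) ^ θ⌋₊ (fun x => x ^ K) - ms s' R' N ⌊(N : ℝ) ^ θ⌋₊ (fun x => x ^ K)| ≤ ε := by
  cases K with
  | zero =>
    filter_upwards [] with N s s' R R' δ _ _ _ _ _ _
    simp only [pow_zero]
    unfold ms
    simp [hε.le]
  | succ K =>
    filter_upwards [hF K θ hθ hθ1 1 (Or.inl rfl) (ε / 2) (half_pos hε), hF K θ hθ hθ1 (-1) (Or.inr rfl) (ε / 2) (half_pos hε)]
      with N h1 h2 s s' R R' δ hs hs' hR hR' hδ hδ'
    have key : ∀ (s : ℤ) (R : Set ℤ), (s = 1 ∨ s = -1) → InvS s R → Tendsto (fun N : ℕ => ct s R N / N) atTop (nhds δ) →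
        |ms s R N ⌊(N : ℝ) ^ θ⌋₊ (fun x => x ^ (K + 1)) -
          iw (cw (mZ (fun _ : Finset (Fin (K + 1)) => δ)) (tN (1 / th0) N - tN (θ / th0) N)) (tN (θ / th0) N) (fun _ => 0)| ≤ ε / 2 := by
      intro s R hs hR hδ
      rw [ms_pow]
      rcases hs with rfl | rfl
      · exact h1 (fun _ => R) (fun _ => δ) (fun _ => hR) (fun B hB => dens_const hδ B hB)
      · exact h2 (fun _ => R) (fun _ => δ) (fun _ => hR) (fun B hB => dens_const hδ B hB)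
    have a1 := key s R hs hR hδ
    have a2 := key s' R' hs' hR' hδ'
    rw [abs_sub_comm] at a2
    refine (abs_sub_le _ _ _).trans ((add_le_add a1 a2).trans ?_)
    linarith

/-- two sets with the same density, polynomials -/
theorem two_poly (hF : S_FIN) {θ : ℝ} (hθ : 0 < θ) (hθ1 : θ < 1) (p : Polynomial ℝ) : ∀ ε : ℝ, 0 < ε → ∀ᶠ N : ℕ in atTop,
    ∀ (s s' : ℤ) (R R' : Set ℤ) (δ : ℝ), (s = 1 ∨ s = -1) → (s' = 1 ∨ s' = -1) → InvS s R → InvS s' R' →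
      Tendsto (fun N : ℕ => ct s R N / N) atTop (nhds δ) → Tendsto (fun N : ℕ => ct s' R' N / N) atTop (nhds δ) →
      |ms s R N ⌊(N : ℝ) ^ θ⌋₊ (fun x => p.eval x) - ms s' R' N ⌊(N : ℝ) ^ θ⌋₊ (fun x => p.eval x)| ≤ ε := by
  induction p using Polynomial.induction_on' with
  | add p q hp hq =>
    intro ε hε
    filter_upwards [hp (ε / 2) (half_pos hε), hq (ε / 2) (half_pos hε)] with N h1 h2 s s' R R' δ hs hs' hR hR' hδ hδ'
    have a1 := h1 s s' R R' δ hs hs' hR hR' hδ hδ'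
    have a2 := h2 s s' R R' δ hs hs' hR hR' hδ hδ'
    simp only [Polynomial.eval_add]
    rw [ms_add, ms_add]
    have e : ∀ a b c d : ℝ, a + b - (c + d) = (a - c) + (b - d) := fun a b c d => by ring
    rw [e]
    refine (abs_add_le _ _).trans ((add_le_add a1 a2).trans ?_)
    linarith
  | monomial n c =>
    intro ε hε
    filter_upwards [two_pow hF hθ hθ1 n (show 0 < ε / (|c| + 1) by positivity)] with N h1 s s' R R' δ hs hs' hR hR' hδ hδ'
    have a1 := h1 s s' R R' δ hs hs' hR hR' hδ hδ'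
    simp only [Polynomial.eval_monomial]
    rw [ms_smul, ms_smul, ← mul_sub, abs_mul]
    calc |c| * _ ≤ |c| * (ε / (|c| + 1)) := mul_le_mul_of_nonneg_left a1 (abs_nonneg _)
      _ ≤ (|c| + 1) * (ε / (|c| + 1)) := mul_le_mul_of_nonneg_right (by linarith) (by positivity)
      _ = ε := by field_simp

/-- the law of the local density depends only on the density -/
theorem two_law (hF : S_FIN) {θ : ℝ} (hθ : 0 < θ) (hθ1 : θ < 1) {φ : ℝ → ℝ} (hφ : Continuous φ) {ε : ℝ} (hε : 0 < ε) :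
    ∀ᶠ N : ℕ in atTop, ∀ (s s' : ℤ) (R R' : Set ℤ) (δ : ℝ), (s = 1 ∨ s = -1) → (s' = 1 ∨ s' = -1) → InvS s R → InvS s' R' →
      Tendsto (fun N : ℕ => ct s R N / N) atTop (nhds δ) → Tendsto (fun N : ℕ => ct s' R' N / N) atTop (nhds δ) →
      |ms s R N ⌊(N : ℝ) ^ θ⌋₊ φ - ms s' R' N ⌊(N : ℝ) ^ θ⌋₊ φ| ≤ ε := by
  obtain ⟨p, hp⟩ := exists_polynomial_near_of_continuousOn 0 1 φ hφ.continuousOn (ε / 3) (by positivity)
  have hp' : ∀ x ∈ Set.Icc (0 : ℝ) 1, |φ x - p.eval x| ≤ ε / 3 := by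
    intro x hx
    rw [abs_sub_comm]
    exact (hp x hx).le
  filter_upwards [two_poly hF hθ hθ1 p (ε / 3) (by positivity)] with N h1 s s' R R' δ hs hs' hR hR' hδ hδ'
  have a1 := h1 s s' R R' δ hs hs' hR hR' hδ hδ'
  have a2 := ms_near (s := s) (R := R) (N := N) (H := ⌊(N : ℝ) ^ θ⌋₊) (show 0 ≤ ε / 3 by positivity) hp'
  have a3 := ms_near (s := s') (R := R') (N := N) (H := ⌊(N : ℝ) ^ θ⌋₊) (show 0 ≤ ε / 3 by positivity) hp'
  rw [abs_sub_comm] at a3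
  refine (abs_sub_le _ _ _).trans ((add_le_add a2 ((abs_sub_le _ _ _).trans (add_le_add a1 a3))).trans ?_)
  linarith

end Pool.Agent.J4H26.KP
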