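import Mathlib
import Pool.Agent.J4H26.KP.Lm
import Pool.Agent.J4H26.KP.Uni
import Pool.Agent.J4H26.KT.W3

set_option autoImplicit false

/-! Project KP: the limits of the moments. -/

namespace Pool.Agent.J4H26.KP

open Finset Filter Real
open Pool.Agent.J4H39 (th0 tN)
open Pool.Agent.J4H26.PC (InvS ct)
open Pool.Agent.J4H26.KT (iw cw isE_cw isE_iw IsE)

variable {K : ℕ}

/-- the clusters -/
def cz (z : Fin K → ℤ) : Finset (Finset (Fin K)) := univ.image fun i => univ.filter fun j => z i = z j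

theorem mZ_cz (m : Finset (Fin K) → ℝ) (z : Fin K → ℤ) : mZ m z = ∏ B ∈ cz z, m B := by
  unfold mZ mR cz
  congr 2
  funext i
  congr

theorem cz_cover (z : Fin K → ℤ) (i : Fin K) : ∃ B ∈ cz z, i ∈ B :=
  ⟨_, by unfold cz; rw [mem_image]; exact ⟨i, mem_univ _, rfl⟩, by simp⟩

theorem cz_nonempty {z : Fin K → ℤ} {B : Finset (Fin K)} (h : B ∈ cz z) : B.Nonempty := by
  unfold cz at h
  rw [mem_image] at h
  obtain ⟨i, _, rfl⟩ := h
  exact ⟨i, by simp⟩

theorem cz_disj {z : Fin K → ℤ} {B B' : Finset (Fin K)} (h : B ∈ cz z) (h' : B' ∈ cz z) {i : Fin K} (hi : i ∈ B) (hi' : i ∈ B') :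
    B = B' := by
  unfold cz at h h'
  rw [mem_image] at h h'
  obtain ⟨a, _, rfl⟩ := h
  obtain ⟨b, _, rfl⟩ := h'
  rw [mem_filter] at hi hi'
  ext j
  rw [mem_filter, mem_filter, hi.2, hi'.2]

theorem cz_sub {z z₀ : Fin K → ℤ} (h : cz z ⊆ cz z₀) : cz z = cz z₀ := by
  apply subset_antisymm h
  intro B hB
  obtain ⟨i, hi⟩ := cz_nonempty hB
  obtain ⟨B', hB', hi'⟩ := cz_cover z i
  rw [cz_disj hB (h hB') hi hi']
  exact hB'

/-- the indicator of a pattern -/
noncomputable def ip (P : Finset (Finset (Fin K))) (z : Fin K → ℤ) : ℝ := if cz z = P then 1 else 0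

theorem ip_mZ (z₀ : Fin K → ℤ) : ip (cz z₀) = mZ (fun B => if B ∈ cz z₀ then 1 else 0) := by
  funext z
  rw [mZ_cz]
  unfold ip
  by_cases h : cz z = cz z₀
  · rw [if_pos h, h]
    symm
    apply prod_eq_one
    intro B hB
    rw [if_pos hB]
  · rw [if_neg h]
    symm
    have : ¬ cz z ⊆ cz z₀ := fun hs => h (cz_sub hs)
    rw [not_subset] at this
    obtain ⟨B, hB, hB'⟩ := this
    exact prod_eq_zero hB (if_neg hB')

theorem mZ_sum (m : Finset (Fin K) → ℝ) (z : Fin K → ℤ) : mZ m z = ∑ P : Finset (Finset (Fin K)), (∏ B ∈ P, m B) * ip P z := by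
  rw [mZ_cz]
  unfold ip
  simp

/-- the expected value for the walks -/
noncomputable def EW (θ : ℝ) (N : ℕ) (F : (Fin K → ℤ) → ℝ) : ℝ :=
  iw (cw F (tN (1 / th0) N - tN (θ / th0) N)) (tN (θ / th0) N) (fun _ => 0)

theorem isE_EW (θ : ℝ) (N : ℕ) : IsE (EW (K := K) θ N) where
  add f g := by
    unfold EW
    have e : cw (fun u => f u + g u) (tN (1 / th0) N - tN (θ / th0) N) =
        fun z => cw f (tN (1 / th0) N - tN (θ / th0) N) z + cw g (tN (1 / th0) N - tN (θ / th0) N) z := by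
      funext z
      exact (isE_cw _ z).add f g
    rw [e]
    exact (isE_iw _ _).add _ _
  smul c f := by
    unfold EW
    have e : cw (fun u => c * f u) (tN (1 / th0) N - tN (θ / th0) N) =
        fun z => c * cw f (tN (1 / th0) N - tN (θ / th0) N) z := by
      funext z
      exact (isE_cw _ z).smul c f
    rw [e]
    exact (isE_iw _ _).smul _ _
  mono f g h := by
    unfold EW
    exact (isE_iw _ _).mono _ _ (fun z => (isE_cw _ z).mono _ _ h)
  one := by
    unfold EW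
    have e : cw (fun _ : Fin K → ℤ => (1 : ℝ)) (tN (1 / th0) N - tN (θ / th0) N) = fun _ => 1 := by
      funext z
      exact (isE_cw _ z).one
    rw [e]
    exact (isE_iw _ _).one

/-- the probabilities of the patterns converge -/
theorem pat_lim (hL : S_LIM) {θ : ℝ} (hθ : 0 < θ) (hθ1 : θ < 1) (P : Finset (Finset (Fin K))) :
    ∃ p : ℝ, Tendsto (fun N : ℕ => EW θ N (ip P)) atTop (nhds p) := by
  by_cases h : ∃ z₀ : Fin K → ℤ, cz z₀ = P
  · obtain ⟨z₀, rfl⟩ := h
    obtain ⟨W, hW⟩ := hL K θ hθ hθ1 (fun B => if B ∈ cz z₀ then 1 else 0) (fun B => by split_ifs <;> norm_num)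
    refine ⟨W, ?_⟩
    rw [ip_mZ]
    exact hW
  · refine ⟨0, ?_⟩
    have e : (ip P : (Fin K → ℤ) → ℝ) = fun _ => 0 := by
      funext z
      unfold ip
      rw [if_neg (fun hh => h ⟨z, hh⟩)]
    rw [e]
    simp only [(isE_EW θ _).zero]
    exact tendsto_const_nhds

/-- the limit of the probability of a pattern; zero if the pattern is impossible -/
theorem pat_zero {θ : ℝ} {P : Finset (Finset (Fin K))} (h : ∅ ∈ P) (N : ℕ) : EW θ N (ip P) = 0 := by
  have e : (ip P : (Fin K → ℤ) → ℝ) = fun _ => 0 := by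
    funext z
    unfold ip
    rw [if_neg]
    intro hz
    rw [← hz] at h
    exact absurd (cz_nonempty h) Finset.not_nonempty_empty
  rw [e]
  exact (isE_EW θ N).zero

theorem dens_abs {s : ℤ} (hs : s = 1 ∨ s = -1) {R : Set ℤ} {δ : ℝ} (h : Tendsto (fun N : ℕ => ct s R N / N) atTop (nhds δ)) : |δ| ≤ 1 := by
  have h0 : ∀ N : ℕ, 0 ≤ ct s R N / N ∧ ct s R N / N ≤ 1 := by
    intro N
    unfold ct
    refine ⟨by positivity, ?_⟩
    rcases Nat.eq_zero_or_pos N with hN | hN
    · subst hN; simp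
    · have hN0 : (0 : ℝ) < N := by exact_mod_cast hN
      rw [div_le_one hN0]
      have h1 : {n : ℤ | 0 < s * n ∧ ((s * n : ℤ) : ℝ) ≤ (N : ℝ) ∧ n ∈ R} ⊆ (((Finset.Icc 1 N).image (fun m : ℕ => s * (m : ℤ)) : Finset ℤ) : Set ℤ) := by
        intro x hx
        obtain ⟨a1, a2, _⟩ := hx
        have a3 : s * x ≤ N := by exact_mod_cast a2
        rw [Finset.mem_coe, Finset.mem_image]
        refine ⟨(s * x).toNat, ?_, ?_⟩
        · rw [Finset.mem_Icc]; omega
        · rw [Int.toNat_of_nonneg a1.le]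
          rcases hs with rfl | rfl <;> ring
      have h2 := Set.ncard_le_ncard h1 (Finset.finite_toSet _)
      rw [Set.ncard_coe_finset] at h2
      have h3 : #((Finset.Icc 1 N).image (fun m : ℕ => s * (m : ℤ))) ≤ N := by
        refine card_image_le.trans ?_
        rw [Nat.card_Icc]; omega
      exact_mod_cast h2.trans h3
  rw [abs_le]
  exact ⟨by linarith [ge_of_tendsto' h (fun N => (h0 N).1)], le_of_tendsto' h (fun N => (h0 N).2)⟩

/-- **the joint moments converge** -/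
theorem fin2 (hF : S_FIN) (hL : S_LIM) (K : ℕ) {θ : ℝ} (hθ : 0 < θ) (hθ1 : θ < 1) :
    ∃ p : Finset (Finset (Fin (K + 1))) → ℝ, (∀ P, Tendsto (fun N : ℕ => EW θ N (ip P)) atTop (nhds (p P))) ∧
      ∀ s : ℤ, (s = 1 ∨ s = -1) → ∀ ε : ℝ, 0 < ε → ∀ᶠ N : ℕ in atTop,
      ∀ (R : Fin (K + 1) → Set ℤ) (δ : Finset (Fin (K + 1)) → ℝ), (∀ i, InvS s (R i)) →
      (∀ B, B.Nonempty → Tendsto (fun N : ℕ => ct s {n | ∀ i ∈ B, n ∈ R i} N / N) atTop (nhds (δ B))) →
      |mom s R N ⌊(N : ℝ) ^ θ⌋₊ - ∑ P, p P * ∏ B ∈ P, δ B| ≤ ε := by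
  choose p hp using fun P : Finset (Finset (Fin (K + 1))) => pat_lim hL hθ hθ1 P
  refine ⟨p, hp, fun s hs ε hε => ?_⟩
  have hsum : Tendsto (fun N : ℕ => ∑ P : Finset (Finset (Fin (K + 1))), |EW θ N (ip P) - p P|) atTop (nhds 0) := by
    have h : Tendsto (fun N : ℕ => ∑ P : Finset (Finset (Fin (K + 1))), |EW θ N (ip P) - p P|) atTop
        (nhds (∑ _P : Finset (Finset (Fin (K + 1))), (0 : ℝ))) := by
      apply tendsto_finset_sum
      intro P _
      have := ((hp P).sub_const (p P)).abs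
      simpa using this
    simpa using h
  filter_upwards [hF K θ hθ hθ1 s hs (ε / 2) (half_pos hε), hsum.eventually (gt_mem_nhds (half_pos hε))] with N h1 h2 R δ hR hδ
  have h3 := h1 R δ hR hδ
  have e1 : iw (cw (mZ δ) (tN (1 / th0) N - tN (θ / th0) N)) (tN (θ / th0) N) (fun _ => 0) = ∑ P, EW θ N (ip P) * ∏ B ∈ P, δ B := by
    show EW θ N (mZ δ) = _
    have e2 : mZ δ = fun z => ∑ P ∈ (univ : Finset (Finset (Finset (Fin (K + 1))))), (∏ B ∈ P, δ B) * ip P z := by
      funext z; exact mZ_sum δ z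
    rw [e2, (isE_EW θ N).sum]
    apply sum_congr rfl
    intro P _
    rw [(isE_EW θ N).smul]
    ring
  rw [e1] at h3
  have h4 : |∑ P, EW θ N (ip P) * ∏ B ∈ P, δ B - ∑ P, p P * ∏ B ∈ P, δ B| ≤ ε / 2 := by
    rw [← sum_sub_distrib]
    refine (abs_sum_le_sum_abs _ _).trans (le_trans (sum_le_sum fun P _ => ?_) h2.le)
    rw [← sub_mul, abs_mul]
    by_cases hpi : ∅ ∈ P
    · have a1 : p P = 0 := by
        apply tendsto_nhds_unique (hp P)
        have : (fun N : ℕ => EW θ N (ip P)) = fun _ => 0 := by funext N; exact pat_zero hpi N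
        rw [this]
        exact tendsto_const_nhds
      rw [pat_zero hpi, a1, sub_self, abs_zero, zero_mul]
    · have a2 : |∏ B ∈ P, δ B| ≤ 1 := by
        rw [abs_prod]
        apply prod_le_one (fun B _ => abs_nonneg _)
        intro B hB
        apply dens_abs hs (hδ B _)
        rw [nonempty_iff_ne_empty]
        rintro rfl
        exact hpi hB
      calc |EW θ N (ip P) - p P| * |∏ B ∈ P, δ B| ≤ |EW θ N (ip P) - p P| * 1 := mul_le_mul_of_nonneg_left a2 (abs_nonneg _)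
        _ = _ := mul_one _
  refine (abs_sub_le _ _ _).trans ((add_le_add h3 h4).trans ?_)
  linarith

end Pool.Agent.J4H26.KP
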