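import Mathlib
import Pool.Agent.J4H26.KP.Q
import Pool.Agent.J4H26.KP.Lim2
import Pool.Agent.J4H26.KT.W2
import Pool.Agent.J4H39.KP.F2

set_option autoImplicit false

/-! Project KP, the law of the share has no atoms: exact statements. -/

namespace Pool.Agent.J4H26.KP

open Finset Filter Real
open Pool.Agent.J4H39 (U)
open Pool.Agent.J4H26.KT (iw cw sw)

open Classical in
/-- at least `J` clusters have at least `w K` elements -/
noncomputable def bigI (w : ℝ) (J : ℕ) {K : ℕ} (u : Fin K → ℤ) : ℝ :=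
  if J ≤ #((cz u).filter fun B => w * K ≤ (#B : ℝ)) then 1 else 0

open Classical in
/-- the means for the types `A` -/
noncomputable def dA {K : ℕ} (A : Finset (Fin K)) (δ : ℝ) (B : Finset (Fin K)) : ℝ :=
  if B ⊆ A then δ else if Disjoint B A then 1 - δ else 0

/-- (N1) many big clusters.
Proof.  As in `S_INF`, but with `J` intervals `I_j = [s / 2 + j D √s, s / 2 + (j D + 1) √s]`, `D` large: each contains at least
`c K / 2` of the starting points (Chebyshev; `c` from `S_MASS`), with probability at least `1 - η / 4` for `K` large.  Divide `ℤ`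
into cells of length `h`, about `γ √k`; a walk and the representative of its cell (`nc_le` of `J4H39.KP.F1`) do not meet with
probability at most `3 h / √k` (`cw_ne_le`), so with probability at least `1 - η / 4` at most `c K / 4` walks do not meet the
representative of their cell (Markov, `γ` small).  So `I_j` contains at least `c K / 4` starting points of walks which do, in at
most `√s / h + 2` cells, and one of these cells gives a cluster with at least `w K` elements.  Clusters for different `j` are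
different, since the last walk of `I_j` and the first walk of `I_(j+1)` do not meet (`S_UFAR`; weak order is kept: `cw_ord` of
`J4H18.KP.Supw`). -/
def S_BIG : Prop := ∀ (J : ℕ) (η ρ ρ' : ℝ), 0 < η → 0 < ρ' → 0 < ρ → ∃ w : ℝ, 0 < w ∧ ∃ K₀ : ℕ, ∀ K : ℕ, K₀ ≤ K →
  ∀ᶠ k : ℕ in atTop, ∀ s : ℕ, ρ' * k ≤ (s : ℝ) → (s : ℝ) ≤ ρ * k →
  1 - η ≤ iw (cw (bigI w J : (Fin K → ℤ) → ℝ) k) s (fun _ => 0)

/-- (N2) the binomial probabilities are small -/
def S_MODE : Prop := ∀ δ₀ η : ℝ, 0 < δ₀ → 0 < η → ∃ J : ℕ, ∀ n : ℕ, J ≤ n → ∀ δ : ℝ, δ₀ ≤ δ → δ ≤ 1 - δ₀ → ∀ k : ℕ, k ≤ n →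
  (n.choose k : ℝ) * (δ ^ k * (1 - δ) ^ (n - k)) ≤ η

open Classical in
/-- (N3) Littlewood and Offord.
Proof.  For a fixed choice among the elements of weight `≤ a` the choices among the others with a sum in `[x, x + a]` form an
antichain; by `Finset.lubell_yamamoto_meshalkin...` the probability of an antichain is at most the largest binomial probability,
which is small by (N2). -/
def S_LO : Prop := ∀ δ₀ η : ℝ, 0 < δ₀ → 0 < η → ∃ J : ℕ, ∀ (ι : Type) (C : Finset ι) (wt : ι → ℝ) (a : ℝ), 0 ≤ a →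
  (∀ i ∈ C, 0 ≤ wt i) → J ≤ #(C.filter fun i => a < wt i) → ∀ δ : ℝ, δ₀ ≤ δ → δ ≤ 1 - δ₀ → ∀ x : ℝ,
  (∑ S ∈ C.powerset, δ ^ #S * (1 - δ) ^ (#C - #S) * (if x ≤ ∑ i ∈ S, wt i ∧ ∑ i ∈ S, wt i ≤ x + a then (1 : ℝ) else 0)) ≤ η

/-- (N4) the sum over the types is a sum over the colourings of the clusters (`dA A δ B` is not `0` only if `B ⊆ A` or
`Disjoint B A`; `mZ_cz`; the clusters are disjoint, not empty, and cover, see `cz_cover`, `cz_nonempty`, `cz_disj` in `Lim2`) -/
def S_EXP : Prop := ∀ (K : ℕ) (u : Fin K → ℤ) (δ : ℝ) (φ : ℕ → ℝ),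
  ∑ A : Finset (Fin K), φ #A * mZ (dA A δ) u =
    ∑ S ∈ (cz u).powerset, δ ^ #S * (1 - δ) ^ (#(cz u) - #S) * φ (∑ B ∈ S, #B)

open Classical in
/-- (N5) Chebyshev for the binomial law (variance of the Bernstein polynomials) -/
def S_CHB : Prop := ∀ (K : ℕ) (x ε : ℝ), 1 ≤ K → 0 ≤ x → x ≤ 1 → 0 < ε →
  1 - 1 / (4 * K * ε ^ 2) ≤ ∑ A : Finset (Fin K), x ^ #A * (1 - x) ^ (K - #A) * (if |(#A : ℝ) / K - x| ≤ ε then 1 else 0)

end Pool.Agent.J4H26.KP
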