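import Mathlib
import Pool.Agent.J4H26.KP.Sup

set_option autoImplicit false

/-! Project KP, the support of the joint law of the shares of several disjoint invariant sets: exact statements.  The
walks are divided into `r` groups, `γ i` is the group of the walk `i`. -/

namespace Pool.Agent.J4H26.KP

open Finset Filter Real
open Pool.Agent.J4H39 (U)
open Pool.Agent.J4H39.KP (nc)
open Pool.Agent.J4H26.KT (iw cw sw)

/-- the walks of different groups are apart -/
def SepG {K r : ℕ} (γ : Fin K → Fin r) (u : Fin K → ℤ) : Prop := ∀ i j : Fin K, γ i ≠ γ j → u i ≠ u j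

open Classical in
/-- `δ` to the number of the clusters, if the groups are apart -/
noncomputable def sepG {K r : ℕ} (γ : Fin K → Fin r) (δ : ℝ) (u : Fin K → ℤ) : ℝ := if SepG γ u then δ ^ nc u else 0

open Classical in
/-- the groups are apart -/
noncomputable def sepI {K r : ℕ} (γ : Fin K → Fin r) (u : Fin K → ℤ) : ℝ := if SepG γ u then 1 else 0

open Classical in
/-- all walks are apart -/
noncomputable def injI {m : ℕ} (u : Fin m → ℤ) : ℝ := if Function.Injective u then 1 else 0

open Classical in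
/-- the indicator function of an interval -/
noncomputable def ii (a b : ℤ) (u : ℤ) : ℝ := if a ≤ u ∧ u ≤ b then 1 else 0

/-- (R0) `m` walks far apart do not meet, with positive probability.
Proof.  With `q` steps to go, `ξ i = 2 z i + q` is a simple random walk; let `h i (ξ) = cos (π (ξ - ξ₀ i) / (2 L))` for
`|ξ - ξ₀ i| ≤ L` and `0` otherwise, `L` about `g √k / 2`.  Then `(h (ξ + 1) + h (ξ - 1)) / 2 ≥ cos (π / (2 L)) * h ξ`, and by
induction on `q`: `cw injI q z ≥ ∏ i, h i (2 z i + q) * cos (π / (2 L)) ^ (q m)` (if two walks are at the same position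
the right hand side is `0`, otherwise the moves are independent).  At the start the `h i` are `1`, and
`cos (π / (2 L)) ^ (k m)` is bounded below since `L ^ 2` is at least a constant times `k`. -/
def S_APART : Prop := ∀ (m : ℕ) (g : ℝ), 0 < g → ∃ c : ℝ, 0 < c ∧ ∀ᶠ k : ℕ in atTop, ∀ w : Fin m → ℤ,
  (∀ i j, i ≠ j → g * √k ≤ |(w i : ℝ) - w j|) → c ≤ cw (injI (m := m)) k w

/-- (R1) groups in intervals far from each other stay apart, with a positive probability which does not depend on the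
number of the walks.
Proof.  Add to the `K` walks the `2 (r - 1)` walks (guards) which start at `hi l + g √k / 4` and at `lo (l + 1) - g √k / 4`
(for consecutive `l`); they are at distances at least `g √k / 4` of each other, so they do not meet with probability at
least `c` by (R0), and then the groups are apart, since coalescing walks keep their weak order.  The law of some of the
walks does not depend on the others: `Pool.Agent.J4H39.KP.cw_proj`. -/
def S_SEPR : Prop := ∀ (r : ℕ) (g : ℝ), 0 < g → ∃ c : ℝ, 0 < c ∧ ∀ᶠ k : ℕ in atTop, ∀ (K : ℕ) (γ : Fin K → Fin r)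
  (lo hi : Fin r → ℤ), (∀ l l' : Fin r, l < l' → (hi l : ℝ) + g * √k ≤ lo l') → (∀ l, lo l ≤ hi l) → ∀ z : Fin K → ℤ,
  (∀ i, lo (γ i) ≤ z i ∧ z i ≤ hi (γ i)) → c ≤ cw (sepI γ) k z

/-- (R2) quantiles of the binomial law, `r` intervals -/
def S_QNTR : Prop := ∀ (r : ℕ) (x : Fin r → ℝ) (η : ℝ), (∀ l, 0 < x l) → ∑ l, x l = 1 → 0 < η → ∃ g : ℝ, 0 < g ∧
  ∀ᶠ s : ℕ in atTop, ∃ lo hi : Fin r → ℤ, (∀ l l' : Fin r, l < l' → (hi l : ℝ) + g * √s ≤ lo l') ∧ (∀ l, lo l ≤ hi l) ∧
  ∀ l, x l - η ≤ sw (ii (lo l) (hi l)) s 0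

/-- (R3) the groups apart, the number of the clusters small (the general form of (P5) `S_SUPW`, with the factor
`A z = ∏ i, ii (lo (γ i)) (hi (γ i)) (z i)`) -/
def S_SUPR : Prop := ∀ (r : ℕ) (x : Fin r → ℝ) (δ ρ ρ' κ : ℝ), (∀ l, 0 < x l) → ∑ l, x l = 1 → 0 < δ → δ ≤ 1 → 0 < ρ' →
  0 < ρ → 0 < κ → κ < 1 → ∃ K₀ : ℕ, ∀ K : ℕ, K₀ ≤ K → ∀ γ : Fin K → Fin r, ∀ᶠ k : ℕ in atTop, ∀ s : ℕ,
  ρ' * k ≤ (s : ℝ) → (s : ℝ) ≤ ρ * k → 2 * κ ^ K * ∏ i, x (γ i) ≤ iw (cw (sepG γ δ) k) s (fun _ => 0)

end Pool.Agent.J4H26.KP
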