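import Mathlib
import Pool.Agent.J4H26.KP.Lim2

set_option autoImplicit false

/-! Project KP: the law of the local density converges; complements. -/

namespace Pool.Agent.J4H26.KP

open Finset Filter Real
open Pool.Agent.J4H39 (T th0 tN)
open Pool.Agent.J4H26.PC (InvS ct)
open Pool.Agent.J4H26.KT (iw cw isE_cw isE_iw IsE)

/-- powers -/
theorem ms_lim_pow (hF : S_FIN) (hL : S_LIM) {θ : ℝ} (hθ : 0 < θ) (hθ1 : θ < 1) {s : ℤ} (hs : s = 1 ∨ s = -1) {R : Set ℤ} {δ : ℝ}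
    (hR : InvS s R) (hδ : Tendsto (fun N : ℕ => ct s R N / N) atTop (nhds δ)) (n : ℕ) :
    ∃ L : ℝ, Tendsto (fun N : ℕ => ms s R N ⌊(N : ℝ) ^ θ⌋₊ (fun x => x ^ n)) atTop (nhds L) := by
  cases n with
  | zero =>
    refine ⟨1, ?_⟩
    apply tendsto_const_nhds.congr'
    filter_upwards [eventually_ge_atTop 1] with N hN
    have hN0 : (N : ℝ) ≠ 0 := by
      have : (0 : ℝ) < N := by exact_mod_cast hN
      exact this.ne'
    unfold ms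
    simp only [pow_zero, sum_const, Nat.card_Icc, Nat.add_sub_cancel, nsmul_eq_mul, mul_one]
    exact (div_self hN0).symm
  | succ K =>
    obtain ⟨p, _, h⟩ := fin2 hF hL K hθ hθ1
    refine ⟨∑ P, p P * ∏ _B ∈ P, δ, ?_⟩
    rw [Metric.tendsto_atTop]
    intro ε hε
    obtain ⟨N₀, h0⟩ := eventually_atTop.1 (h s hs (ε / 2) (half_pos hε))
    refine ⟨N₀, fun N hN => ?_⟩
    rw [Real.dist_eq, ms_pow]
    have := h0 N hN (fun _ => R) (fun _ => δ) (fun _ => hR) (fun B hB => dens_const hδ B hB)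
    linarith

/-- polynomials -/
theorem ms_lim_poly (hF : S_FIN) (hL : S_LIM) {θ : ℝ} (hθ : 0 < θ) (hθ1 : θ < 1) {s : ℤ} (hs : s = 1 ∨ s = -1) {R : Set ℤ} {δ : ℝ}
    (hR : InvS s R) (hδ : Tendsto (fun N : ℕ => ct s R N / N) atTop (nhds δ)) (p : Polynomial ℝ) :
    ∃ L : ℝ, Tendsto (fun N : ℕ => ms s R N ⌊(N : ℝ) ^ θ⌋₊ (fun x => p.eval x)) atTop (nhds L) := by
  induction p using Polynomial.induction_on' with
  | add p q hp hq =>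
    obtain ⟨a, ha⟩ := hp
    obtain ⟨b, hb⟩ := hq
    refine ⟨a + b, ?_⟩
    simp only [Polynomial.eval_add, ms_add]
    exact ha.add hb
  | monomial n c =>
    obtain ⟨a, ha⟩ := ms_lim_pow hF hL hθ hθ1 hs hR hδ n
    refine ⟨c * a, ?_⟩
    simp only [Polynomial.eval_monomial, ms_smul]
    exact ha.const_mul c

/-- continuous functions -/
theorem ms_lim (hF : S_FIN) (hL : S_LIM) {θ : ℝ} (hθ : 0 < θ) (hθ1 : θ < 1) {s : ℤ} (hs : s = 1 ∨ s = -1) {R : Set ℤ} {δ : ℝ}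
    (hR : InvS s R) (hδ : Tendsto (fun N : ℕ => ct s R N / N) atTop (nhds δ)) {φ : ℝ → ℝ} (hφ : Continuous φ) :
    ∃ L : ℝ, Tendsto (fun N : ℕ => ms s R N ⌊(N : ℝ) ^ θ⌋₊ φ) atTop (nhds L) := by
  apply cauchySeq_tendsto_of_complete
  rw [Metric.cauchySeq_iff]
  intro ε hε
  obtain ⟨p, hp⟩ := exists_polynomial_near_of_continuousOn 0 1 φ hφ.continuousOn (ε / 4) (by positivity)
  have hp' : ∀ x ∈ Set.Icc (0 : ℝ) 1, |φ x - p.eval x| ≤ ε / 4 := by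
    intro x hx
    rw [abs_sub_comm]
    exact (hp x hx).le
  obtain ⟨L, hL'⟩ := ms_lim_poly hF hL hθ hθ1 hs hR hδ p
  rw [Metric.tendsto_atTop] at hL'
  obtain ⟨N₀, h0⟩ := hL' (ε / 8) (by positivity)
  refine ⟨N₀, fun N hN N' hN' => ?_⟩
  have a1 := h0 N hN
  have a2 := h0 N' hN'
  rw [Real.dist_eq] at a1 a2 ⊢
  have b1 := ms_near (s := s) (R := R) (N := N) (H := ⌊(N : ℝ) ^ θ⌋₊) (show 0 ≤ ε / 4 by positivity) hp'
  have b2 := ms_near (s := s) (R := R) (N := N') (H := ⌊(N' : ℝ) ^ θ⌋₊) (show 0 ≤ ε / 4 by positivity) hp'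
  rw [abs_lt] at *
  rw [abs_le] at b1 b2
  constructor <;> linarith [a1.1, a1.2, a2.1, a2.2, b1.1, b1.2, b2.1, b2.2]

/-- **the law of the local density converges to a law which depends only on the density** -/
theorem law_lim (hF : S_FIN) (hL : S_LIM) {θ : ℝ} (hθ : 0 < θ) (hθ1 : θ < 1) {φ : ℝ → ℝ} (hφ : Continuous φ) (δ : ℝ) :
    ∃ L : ℝ, ∀ ε : ℝ, 0 < ε → ∀ᶠ N : ℕ in atTop, ∀ (s : ℤ) (R : Set ℤ), (s = 1 ∨ s = -1) → InvS s R →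
      Tendsto (fun N : ℕ => ct s R N / N) atTop (nhds δ) → |ms s R N ⌊(N : ℝ) ^ θ⌋₊ φ - L| ≤ ε := by
  by_cases h : ∃ (s₀ : ℤ) (R₀ : Set ℤ), (s₀ = 1 ∨ s₀ = -1) ∧ InvS s₀ R₀ ∧ Tendsto (fun N : ℕ => ct s₀ R₀ N / N) atTop (nhds δ)
  · obtain ⟨s₀, R₀, hs₀, hR₀, hδ₀⟩ := h
    obtain ⟨L, hL'⟩ := ms_lim hF hL hθ hθ1 hs₀ hR₀ hδ₀ hφ
    refine ⟨L, fun ε hε => ?_⟩
    rw [Metric.tendsto_atTop] at hL'
    obtain ⟨N₀, h0⟩ := hL' (ε / 2) (half_pos hε)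
    filter_upwards [two_law hF hθ hθ1 hφ (half_pos hε), eventually_ge_atTop N₀] with N h1 hN s R hs hR hδ
    have a1 := h1 s s₀ R R₀ δ hs hs₀ hR hR₀ hδ hδ₀
    have a2 := h0 N hN
    rw [Real.dist_eq] at a2
    refine (abs_sub_le _ _ _).trans ((add_le_add a1 a2.le).trans ?_)
    linarith
  · refine ⟨0, fun ε _ => ?_⟩
    filter_upwards [] with N s R hs hR hδ
    exact absurd ⟨s, R, hs, hR, hδ⟩ h

theorem inv_compl {s : ℤ} {R : Set ℤ} (h : InvS s R) : InvS s Rᶜ := by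
  intro n hn
  rw [Set.mem_compl_iff, Set.mem_compl_iff, h n hn]

theorem fin_ct {s : ℤ} (hs : s = 1 ∨ s = -1) (N : ℕ) :
    {n : ℤ | 0 < s * n ∧ ((s * n : ℤ) : ℝ) ≤ (N : ℝ)} = (((Finset.Icc 1 N).image (fun m : ℕ => s * (m : ℤ)) : Finset ℤ) : Set ℤ) := by
  have hss : s * s = 1 := by rcases hs with rfl | rfl <;> norm_num
  ext x
  rw [Finset.mem_coe, Finset.mem_image]
  constructor
  · rintro ⟨a1, a2⟩
    have a3 : s * x ≤ N := by exact_mod_cast a2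
    refine ⟨(s * x).toNat, ?_, ?_⟩
    · rw [Finset.mem_Icc]; omega
    · rw [Int.toNat_of_nonneg a1.le, ← mul_assoc, hss, one_mul]
  · rintro ⟨m, hm, rfl⟩
    rw [Finset.mem_Icc] at hm
    show 0 < s * (s * (m : ℤ)) ∧ ((s * (s * (m : ℤ)) : ℤ) : ℝ) ≤ N
    rw [← mul_assoc, hss, one_mul]
    refine ⟨by omega, by push_cast; exact_mod_cast hm.2⟩

theorem ct_compl {s : ℤ} (hs : s = 1 ∨ s = -1) (R : Set ℤ) (N : ℕ) : ct s R N + ct s Rᶜ N = N := by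
  have hss : s * s = 1 := by rcases hs with rfl | rfl <;> norm_num
  have hA := fin_ct hs N
  have hfin : {n : ℤ | 0 < s * n ∧ ((s * n : ℤ) : ℝ) ≤ (N : ℝ)}.Finite := by rw [hA]; exact Finset.finite_toSet _
  have h1 : {n : ℤ | 0 < s * n ∧ ((s * n : ℤ) : ℝ) ≤ (N : ℝ) ∧ n ∈ R} = {n : ℤ | 0 < s * n ∧ ((s * n : ℤ) : ℝ) ≤ (N : ℝ)} ∩ R := by
    ext n
    simp only [Set.mem_inter_iff, Set.mem_setOf_eq]
    tauto
  have h2 : {n : ℤ | 0 < s * n ∧ ((s * n : ℤ) : ℝ) ≤ (N : ℝ) ∧ n ∈ Rᶜ} = {n : ℤ | 0 < s * n ∧ ((s * n : ℤ) : ℝ) ≤ (N : ℝ)} \ R := by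
    ext n
    simp only [Set.mem_diff, Set.mem_setOf_eq, Set.mem_compl_iff]
    tauto
  have h3 := Set.ncard_inter_add_ncard_diff_eq_ncard {n : ℤ | 0 < s * n ∧ ((s * n : ℤ) : ℝ) ≤ (N : ℝ)} R hfin
  have h4 : {n : ℤ | 0 < s * n ∧ ((s * n : ℤ) : ℝ) ≤ (N : ℝ)}.ncard = N := by
    rw [hA, Set.ncard_coe_finset, card_image_of_injective]
    · rw [Nat.card_Icc]; omega
    · intro a b hab
      have h5 : s * (s * (a : ℤ)) = s * (s * (b : ℤ)) := by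
        show s * ((fun m : ℕ => s * (m : ℤ)) a) = s * ((fun m : ℕ => s * (m : ℤ)) b)
        rw [hab]
      rw [← mul_assoc, ← mul_assoc, hss, one_mul, one_mul] at h5
      exact_mod_cast h5
  unfold ct
  rw [h1, h2, ← Nat.cast_add, h3, h4]

theorem dens_compl {s : ℤ} (hs : s = 1 ∨ s = -1) {R : Set ℤ} {δ : ℝ} (h : Tendsto (fun N : ℕ => ct s R N / N) atTop (nhds δ)) :
    Tendsto (fun N : ℕ => ct s Rᶜ N / N) atTop (nhds (1 - δ)) := by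
  apply (h.const_sub 1).congr'
  filter_upwards [eventually_ge_atTop 1] with N hN
  have hN0 : (0 : ℝ) < N := by exact_mod_cast hN
  have := ct_compl hs R N
  rw [eq_div_iff hN0.ne', sub_mul, div_mul_cancel₀ _ hN0.ne', one_mul]
  linarith

theorem sh_compl (R : Set ℤ) {H : ℕ} (hH : 1 ≤ H) (n : ℤ) : sh Rᶜ H n = 1 - sh R H n := by
  have hH0 : (0 : ℝ) < H := by exact_mod_cast hH
  have hA : {h : ℕ | 1 ≤ h ∧ h ≤ H} = ((Finset.Icc 1 H : Finset ℕ) : Set ℕ) := by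
    ext h
    rw [Finset.mem_coe, Finset.mem_Icc]
    rfl
  have hfin : {h : ℕ | 1 ≤ h ∧ h ≤ H}.Finite := by rw [hA]; exact Finset.finite_toSet _
  have h1 : {h : ℕ | (1 ≤ h ∧ h ≤ H) ∧ n + h ∈ R} = {h : ℕ | 1 ≤ h ∧ h ≤ H} ∩ {h : ℕ | n + h ∈ R} := rfl
  have h2 : {h : ℕ | (1 ≤ h ∧ h ≤ H) ∧ n + h ∈ Rᶜ} = {h : ℕ | 1 ≤ h ∧ h ≤ H} \ {h : ℕ | n + h ∈ R} := rfl
  have h3 := Set.ncard_inter_add_ncard_diff_eq_ncard {h : ℕ | 1 ≤ h ∧ h ≤ H} {h : ℕ | n + h ∈ R} hfin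
  have h4 : {h : ℕ | 1 ≤ h ∧ h ≤ H}.ncard = H := by
    rw [hA, Set.ncard_coe_finset, Nat.card_Icc]; omega
  unfold sh
  rw [h1, h2, eq_sub_iff_add_eq, ← add_div, div_eq_one_iff_eq hH0.ne', ← Nat.cast_add, add_comm, h3, h4]

end Pool.Agent.J4H26.KP
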