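import Mathlib
import Pool.Agent.J4H26.KP.Q

set_option autoImplicit false

/-! Project KP: second version of the statements, with a base below all the forms (idea of helper39), so that no label has a
negative exponent.  `ck f κ X s` of `J4H39.KP.S1` is `ccK f κ X (fun i => (s i).1.toNat) (fun i => (s i).2)`. -/

namespace Pool.Agent.J4H26.KP

open Finset Filter Real
open Pool.Agent.J4H39 (T od ex pb ns rn stP stK Rel par GK GS Cm th0 exK tN)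
open Pool.Agent.J4H26.PC (Iv Ph VV Cent InvS ct kS S_STM S_VLAW S_CENT)
open Pool.Agent.J4H26.KT (iw cw)

/-- correlation along the forms of the labels `s` (exponents `≥ 0`) -/
noncomputable def cl {K : ℕ} (F : Fin K → ℤ → ℝ) (κ X : ℝ) (s : Fin K → ℤ × ℤ) : ℝ :=
  ccK F κ X (fun i => (s i).1.toNat) (fun i => (s i).2)

/-- the mean correlation at the end of `t` steps of independent walks from the exponents `D`, with the base `t / 2` -/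
noncomputable def EE2 {K : ℕ} (F : Fin K → ℤ → ℝ) (κ X : ℝ) (D : Fin K → ℕ) (t : ℕ) : ℝ :=
  exK t K (fun y => ccK F κ (3 ^ (t / 2) * X / 2 ^ t) (fun i => ((D i : ℤ) + od t (y i) - (t / 2 : ℕ)).toNat) (fun _ => 0))

/-- (L1) common shift of the exponents: change of the base -/
def S_SHF : Prop := ∀ (K : ℕ) (ε : ℝ), 0 < ε → ∀ᶠ L : ℕ in atTop, ∀ F : Fin K → ℤ → ℝ, (∀ i, Iv (F i)) → ∀ κ X : ℝ,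
  |κ| ≤ 1 → (2 : ℝ) ^ L ≤ X → ∀ (a : ℕ) (D : Fin K → ℕ), (a : ℝ) ≤ (L : ℝ) ^ (3 / 5 : ℝ) → (∀ i, (D i : ℝ) ≤ (L : ℝ) ^ (3 / 5 : ℝ)) →
  |ccK F κ (3 ^ a * X) D (fun _ => 0) - ccK F κ X (fun i => D i + a) (fun _ => 0)| ≤ ε

/-- (L2) the correlations vary slowly, at the scale of the square root of the height -/
def S_LIPD : Prop := ∀ (K : ℕ) (ε : ℝ), 0 < ε → ∀ᶠ L : ℕ in atTop, ∀ F : Fin K → ℤ → ℝ, (∀ i, Iv (F i)) → ∀ κ X : ℝ,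
  |κ| ≤ 1 → (2 : ℝ) ^ L ≤ X → ∀ D D' : Fin K → ℕ,
  |ccK F κ X D (fun _ => 0) - ccK F κ X D' (fun _ => 0)| ≤ 8 * (∑ i, |(D i : ℝ) - D' i|) / √L + ε

/-- (L3) the transfer over `t` steps (from `J4H39.KP.main_indK`) -/
def S_TR2 : Prop := ∀ (K : ℕ) (ρ ε : ℝ), 1 < ρ → 0 < ε → ∀ᶠ t : ℕ in atTop,
  ∀ F : Fin K → ℤ → ℝ, (∀ i, Iv (F i)) → ∀ κ : ℝ, |κ| ≤ 1 → ∀ X : ℝ, 0 < X → ρ * th0 * t ≤ logb 2 X →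
  ∀ D : Fin K → ℕ, (∀ i, (t : ℝ) ^ (13 / 25 : ℝ) ≤ D i ∧ (D i : ℝ) ≤ (t : ℝ) ^ (29 / 50 : ℝ)) →
  |ccK F κ X D (fun _ => 0) - ex t (fun y => cl F κ (3 ^ od t y * X / 2 ^ t) (rn stK t (fun i => ((D i : ℤ), 0)) y))| ≤ ε

/-- (L4) forms far from each other and independent walks -/
def S_EEC2 : Prop := ∀ (K : ℕ) (ρ ε : ℝ), 1 < ρ → 0 < ε → ∃ G : ℝ, 0 < G ∧ ∀ᶠ t : ℕ in atTop,
  ∀ F : Fin K → ℤ → ℝ, (∀ i, Iv (F i)) → ∀ κ X : ℝ, |κ| ≤ 1 → 0 < X → ρ * th0 * t ≤ logb 2 X →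
  ∀ D : Fin K → ℕ, (∀ i, (t : ℝ) ^ (14 / 25 : ℝ) ≤ D i ∧ (D i : ℝ) ≤ (t : ℝ) ^ (29 / 50 : ℝ)) →
  (∀ i j, i ≠ j → G * √t ≤ |(D i : ℝ) - D j|) → |ccK F κ X D (fun _ => 0) - EE2 F κ X D t| ≤ ε

/-- (L5) long windows and independent walks -/
def S_EEG2 : Prop := ∀ (K : ℕ) (ε : ℝ), 0 < ε → ∀ᶠ w : ℕ in atTop, ∀ F : Fin K → ℤ → ℝ, (∀ i, Iv (F i)) →
  ∀ κ X : ℝ, |κ| ≤ 1 → 0 < X → ∀ t : ℕ, w ^ 52 ≤ t → t ≤ 100 * w ^ 88 → 18 * (w : ℝ) ^ 80 ≤ logb 2 X - th0 * t →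
  ∀ D : Fin K → ℕ, (∀ i, w ^ 45 ≤ D i ∧ 2 * D i ≤ w ^ 48) →
  |GGK F κ ((2 : ℝ) ^ (th0 * t + (w : ℝ) ^ 53)) X D - EE2 F κ X D t| ≤ ε

/-- (L6) the forms far from each other are not correlated -/
def S_UNM2 : Prop := ∀ ψ : ℝ → ℝ, Tendsto ψ atTop (nhds 0) → ∀ (K : ℕ) (ε : ℝ), 0 < ε → ∃ G : ℝ, 0 < G ∧ ∀ᶠ L : ℕ in atTop,
  ∀ (F : Fin K → ℤ → ℝ) (κ : ℝ) (μ : Fin K → ℝ), (∀ i, MnQ ψ (F i) κ (μ i)) → ∀ X : ℝ, 0 < X → (L : ℝ) ≤ logb 2 X →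
  logb 2 X ≤ 4 * L → ∀ D : Fin K → ℕ, (∀ i, (D i : ℝ) ≤ (L : ℝ) ^ (57 / 100 : ℝ)) →
  (∀ i j, i ≠ j → G * √L ≤ |(D i : ℝ) - D j|) → |ccK F κ X D (fun _ => 0) - ∏ i, μ i| ≤ ε

/-- (L7) the same for labels, with merged forms -/
def S_BLK2 : Prop := ∀ ψ : ℝ → ℝ, Tendsto ψ atTop (nhds 0) → ∀ (K : ℕ) (ε : ℝ), 0 < ε → ∃ G : ℝ, 0 < G ∧ ∀ᶠ L : ℕ in atTop,
  ∀ (F : Fin K → ℤ → ℝ) (κ : ℝ) (m : Finset (Fin K) → ℝ), CentK ψ F κ m → ∀ X : ℝ, 0 < X → (L : ℝ) ≤ logb 2 X →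
  logb 2 X ≤ 4 * L → ∀ s : Fin K → ℤ × ℤ,
  (∀ i, 0 ≤ (s i).1 ∧ ((s i).1 : ℝ) ≤ (L : ℝ) ^ (57 / 100 : ℝ) ∧ |(s i).2| ≤ 4 ^ ⌊(L : ℝ) ^ (3 / 4 : ℝ)⌋₊) →
  (∀ i j, s i = s j ∨ G * √L ≤ |((s i).1 : ℝ) - (s j).1|) → |cl F κ X s - mP m s| ≤ ε

/-- (L8) the correlation along the forms `3 ^ D i * n` is given by the pattern of the mergings -/
def S_COR2 : Prop := ∀ ψ : ℝ → ℝ, Tendsto ψ atTop (nhds 0) → ∀ (K : ℕ) (ε η' : ℝ), 0 < ε → 0 < η' → ∃ η₀ : ℝ, 0 < η₀ ∧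
  ∀ η : ℝ, 0 < η → η < η₀ → ∀ᶠ t : ℕ in atTop, ∀ (F : Fin K → ℤ → ℝ) (κ : ℝ) (m : Finset (Fin K) → ℝ), CentK ψ F κ m →
  ∀ X : ℝ, 0 < X → (1 + η) * th0 * t ≤ logb 2 X → logb 2 X ≤ (1 + 2 * η) * th0 * t →
  ∀ D : Fin K → ℕ, (∀ i, (t : ℝ) ^ (13 / 25 : ℝ) ≤ D i ∧ (D i : ℝ) ≤ (t : ℝ) ^ (14 / 25 : ℝ)) →
  |ccK F κ X D (fun _ => 0) - ex t (fun y => mP m (rn stK t (fun i => ((D i : ℤ), 0)) y))| ≤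
    ε + 8 * ∑ i, ∑ j, (ns t ((D i : ℤ) - D j, 0) - ns (t + ⌊η' * t⌋₊) ((D i : ℤ) - D j, 0))

end Pool.Agent.J4H26.KP
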