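import Mathlib
import Pool.Agent.J4H26.KP.Q2
import Pool.Agent.J4H26.KT.W3

set_option autoImplicit false

/-! Project KP: the exponents of forms far from each other are independent. -/

namespace Pool.Agent.J4H26.KP

open Finset Filter Real
open Pool.Agent.J4H39 (T od ex pb ns rn stP stK Rel par GK GS Cm th0 exK tN ex_congr ex_mono)
open Pool.Agent.J4H26.KT (iw cw cw_zero cw_succ iw_zero iw_succ isE_cw isE_iw isE_ex IsE tail_single BL_all Adm fW mpos t_EXK cw_const)
open Pool.Agent.J4H26.AF (moves moves_pos AA Lf Small)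

variable {K : ℕ}

open Classical in
/-- some pair is together -/
noncomputable def Qm (u : Fin K → ℤ) : ℝ := if ∃ i j, i ≠ j ∧ u i = u j then 1 else 0

theorem Qm_nonneg (u : Fin K → ℤ) : 0 ≤ Qm u := by unfold Qm; split_ifs <;> norm_num

theorem cw_Qm_one (s : ℕ) : ∀ z : Fin K → ℤ, (∃ i j, i ≠ j ∧ z i = z j) → cw Qm s z = 1 := by
  induction s with
  | zero => intro z h; show Qm z = 1; unfold Qm; rw [if_pos h]
  | succ s ih =>
    intro z h
    rw [cw_succ]
    have h1 : ∀ p ∈ moves z, cw Qm s (fun i => z i + (p i : ℕ)) = 1 := by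
      intro p hp
      obtain ⟨i, j, hij, e⟩ := h
      apply ih
      refine ⟨i, j, hij, ?_⟩
      unfold moves at hp
      rw [mem_filter] at hp
      rw [hp.2 i j e, e]
    rw [sum_congr rfl h1, sum_const, nsmul_eq_mul, mul_one]
    exact div_self (mpos z).ne'

theorem moves_inj {z : Fin K → ℤ} (h : ¬ ∃ i j, i ≠ j ∧ z i = z j) : moves z = univ := by
  unfold moves
  rw [filter_eq_self]
  intro p _ i j hij
  by_contra hne
  exact h ⟨i, j, fun e => hne (by rw [e]), hij⟩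

theorem cw_le_one {F : (Fin K → ℤ) → ℝ} (hF : ∀ u, |F u| ≤ 1) (s : ℕ) (z : Fin K → ℤ) : |cw F s z| ≤ 1 := by
  have := (isE_cw s z).abs_le (f := F) (g := fun _ => 1) hF
  rwa [(isE_cw s z).const] at this

theorem iw_le_one {F : (Fin K → ℤ) → ℝ} (hF : ∀ u, |F u| ≤ 1) (s : ℕ) (z : Fin K → ℤ) : |iw F s z| ≤ 1 := by
  have := (isE_iw s z).abs_le (f := F) (g := fun _ => 1) hF
  rwa [(isE_iw s z).const] at this

/-- coalescing and independent walks differ only after a meeting -/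
theorem cw_iw {F : (Fin K → ℤ) → ℝ} (hF : ∀ u, |F u| ≤ 1) (s : ℕ) : ∀ z : Fin K → ℤ,
    |cw F s z - iw F s z| ≤ 2 * cw Qm s z := by
  induction s with
  | zero =>
    intro z
    rw [cw_zero, iw_zero, sub_self, abs_zero]
    have := Qm_nonneg z
    rw [cw_zero]
    linarith
  | succ s ih =>
    intro z
    by_cases h : ∃ i j, i ≠ j ∧ z i = z j
    · rw [cw_Qm_one (s + 1) z h]
      have h1 := cw_le_one hF (s + 1) z
      have h2 := iw_le_one hF (s + 1) z
      have := abs_sub (cw F (s + 1) z) (iw F (s + 1) z)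
      linarith
    · have e : (#(moves z) : ℝ) = 2 ^ K := by
        rw [moves_inj h, card_univ]
        simp
      rw [cw_succ, iw_succ, cw_succ, e, moves_inj h, ← sub_div, ← sum_sub_distrib, abs_div, abs_of_pos (by positivity : (0 : ℝ) < 2 ^ K),
        ← mul_div_assoc, mul_sum]
      apply div_le_div_of_nonneg_right _ (by positivity)
      exact (abs_sum_le_sum_abs _ _).trans (sum_le_sum fun p _ => ih _)

/-- walks far from each other do not meet -/
theorem cw_far {s : ℕ} (hs : 1 ≤ s) {G : ℝ} (hG : 0 < G) {z : Fin K → ℤ} (hz : ∀ i j, i ≠ j → G * √s ≤ |(z i : ℝ) - z j|) :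
    cw Qm s z ≤ K / G ^ 2 := by
  have h1 : ∀ u : Fin K → ℤ, Qm u ≤ ∑ i, (if 2 * (G / 2) * √ (s : ℝ) ≤ |2 * (u i : ℝ) - (2 * z i + s)| then (1 : ℝ) else 0) := by
    intro u
    have h0 : ∀ i, (0 : ℝ) ≤ (if 2 * (G / 2) * √ (s : ℝ) ≤ |2 * (u i : ℝ) - (2 * z i + s)| then (1 : ℝ) else 0) := by
      intro i; split_ifs <;> norm_num
    by_cases h : ∃ i j, i ≠ j ∧ u i = u j
    · obtain ⟨i, j, hij, e⟩ := h
      have hz' := hz i j hij
      have h2 : ∃ l, 2 * (G / 2) * √ (s : ℝ) ≤ |2 * (u l : ℝ) - (2 * z l + s)| := by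
        by_contra hcon
        push Not at hcon
        have a1 := abs_lt.1 (hcon i)
        have a2 := abs_lt.1 (hcon j)
        have e' : (u i : ℝ) = u j := by rw [e]
        have : |(z i : ℝ) - z j| < G * √ (s : ℝ) := by
          rw [abs_lt]
          constructor <;> linarith
        linarith
      obtain ⟨l, hl⟩ := h2
      have h3 := single_le_sum (f := fun i => (if 2 * (G / 2) * √ (s : ℝ) ≤ |2 * (u i : ℝ) - (2 * z i + s)| then (1 : ℝ) else 0))
        (fun i _ => h0 i) (mem_univ l)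
      simp only [if_pos hl] at h3
      refine le_trans ?_ h3
      unfold Qm
      split_ifs <;> norm_num
    · unfold Qm
      rw [if_neg h]
      exact sum_nonneg fun i _ => h0 i
  refine ((isE_cw s z).mono _ _ h1).trans ?_
  rw [(isE_cw s z).sum]
  have h2 : ∀ i ∈ (univ : Finset (Fin K)), cw (fun u => if 2 * (G / 2) * √ (s : ℝ) ≤ |2 * (u i : ℝ) - (2 * z i + s)| then (1 : ℝ) else 0) s z ≤
      1 / G ^ 2 := by
    intro i _
    refine (tail_single i hs (half_pos hG) z).trans (le_of_eq ?_)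
    congr 1
    ring
  refine (sum_le_card_nsmul _ _ _ h2).trans ?_
  rw [card_univ, Fintype.card_fin, nsmul_eq_mul, mul_one_div]

theorem iw_add_const (F : (Fin K → ℤ) → ℝ) (D : Fin K → ℤ) (s : ℕ) : ∀ z : Fin K → ℤ,
    iw (fun u => F (fun i => D i + u i)) s z = iw F s (fun i => D i + z i) := by
  induction s with
  | zero => intro z; rfl
  | succ s ih =>
    intro z
    rw [iw_succ, iw_succ]
    congr 1
    apply sum_congr rfl
    intro p _
    rw [ih]
    congr 1
    funext i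
    ring

/-- Lipschitz regularization -/
noncomputable def reg (φ : (Fin K → ℤ) → ℝ) (c : ℝ) (x : Fin K → ℝ) : ℝ := min 1 (⨅ A : Fin K → ℤ, (φ A + c * ∑ i, |x i - A i|))

theorem reg_bdd {φ : (Fin K → ℤ) → ℝ} (hφ : ∀ A, |φ A| ≤ 1) {c : ℝ} (hc : 0 ≤ c) (x : Fin K → ℝ) :
    BddBelow (Set.range fun A : Fin K → ℤ => φ A + c * ∑ i, |x i - A i|) := by
  refine ⟨-1, ?_⟩
  rintro _ ⟨A, rfl⟩
  have h1 := (abs_le.1 (hφ A)).1
  have h2 : 0 ≤ c * ∑ i, |x i - A i| := mul_nonneg hc (sum_nonneg fun i _ => abs_nonneg _)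
  show -1 ≤ φ A + c * ∑ i, |x i - A i|
  linarith

theorem reg_abs {φ : (Fin K → ℤ) → ℝ} (hφ : ∀ A, |φ A| ≤ 1) {c : ℝ} (hc : 0 ≤ c) (x : Fin K → ℝ) : |reg φ c x| ≤ 1 := by
  unfold reg
  rw [abs_le]
  refine ⟨?_, min_le_left _ _⟩
  rw [le_min_iff]
  refine ⟨by norm_num, ?_⟩
  apply le_ciInf
  intro A
  have h1 := (abs_le.1 (hφ A)).1
  have h2 : 0 ≤ c * ∑ i, |x i - A i| := mul_nonneg hc (sum_nonneg fun i _ => abs_nonneg _)
  linarith

theorem reg_le {φ : (Fin K → ℤ) → ℝ} (hφ : ∀ A, |φ A| ≤ 1) {c : ℝ} (hc : 0 ≤ c) (x y : Fin K → ℝ) :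
    reg φ c x ≤ reg φ c y + c * ∑ i, |x i - y i| := by
  have h0 : 0 ≤ c * ∑ i, |x i - y i| := mul_nonneg hc (sum_nonneg fun i _ => abs_nonneg _)
  have h1 : (⨅ A : Fin K → ℤ, (φ A + c * ∑ i, |x i - A i|)) ≤ (⨅ A : Fin K → ℤ, (φ A + c * ∑ i, |y i - A i|)) + c * ∑ i, |x i - y i| := by
    rw [← sub_le_iff_le_add]
    apply le_ciInf
    intro A
    rw [sub_le_iff_le_add]
    refine (ciInf_le (reg_bdd hφ hc x) A).trans ?_
    have : ∑ i, |x i - A i| ≤ ∑ i, |y i - A i| + ∑ i, |x i - y i| := by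
      rw [← sum_add_distrib]
      apply sum_le_sum
      intro i _
      have := abs_sub_le (x i) (y i) (A i)
      linarith
    have := mul_le_mul_of_nonneg_left this hc
    linarith
  unfold reg
  rw [← min_add_add_right]
  apply min_le_min _ h1
  linarith

theorem reg_lip {φ : (Fin K → ℤ) → ℝ} (hφ : ∀ A, |φ A| ≤ 1) {c : ℝ} (hc : 0 ≤ c) (x y : Fin K → ℝ) :
    |reg φ c x - reg φ c y| ≤ c * (K * ‖x - y‖) := by
  have hs : ∀ x y : Fin K → ℝ, ∑ i, |x i - y i| ≤ K * ‖x - y‖ := by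
    intro x y
    have : ∀ i ∈ (univ : Finset (Fin K)), |x i - y i| ≤ ‖x - y‖ := fun i _ => norm_le_pi_norm (x - y) i
    refine (sum_le_card_nsmul _ _ _ this).trans ?_
    rw [card_univ, Fintype.card_fin, nsmul_eq_mul]
  have h1 := reg_le hφ hc x y
  have h2 := reg_le hφ hc y x
  have h3 := mul_le_mul_of_nonneg_left (hs x y) hc
  have h4 := mul_le_mul_of_nonneg_left (hs y x) hc
  rw [norm_sub_rev] at h4
  rw [abs_le]
  constructor <;> linarith

theorem reg_near {φ : (Fin K → ℤ) → ℝ} (hφ : ∀ A, |φ A| ≤ 1) {c ε : ℝ} (hc : 0 ≤ c)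
    (h : ∀ A A' : Fin K → ℤ, |φ A - φ A'| ≤ c * (∑ i, |(A i : ℝ) - A' i|) + ε) (hε : 0 ≤ ε) (A : Fin K → ℤ) :
    |φ A - reg φ c (fun i => (A i : ℝ))| ≤ ε := by
  have h1 : reg φ c (fun i => (A i : ℝ)) ≤ φ A := by
    unfold reg
    refine (min_le_right _ _).trans ((ciInf_le (reg_bdd hφ hc _) A).trans (le_of_eq ?_))
    simp
  have h2 : φ A - ε ≤ reg φ c (fun i => (A i : ℝ)) := by
    unfold reg
    rw [le_min_iff]
    constructor
    · have := (abs_le.1 (hφ A)).2
      linarith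
    · apply le_ciInf
      intro A'
      have := (abs_le.1 (h A A')).2
      linarith
  rw [abs_le]
  constructor <;> linarith

/-- (J6) -/
theorem t_LAWS : S_LAWS := by
  intro K M ε hM hε
  obtain ⟨M', hM'⟩ : ∃ M' : ℝ, M' = 1 + M * K := ⟨_, rfl⟩
  have hMK : 0 ≤ M * K := by positivity
  have hM1 : 1 ≤ M' := by rw [hM']; linarith
  have hM0 : 0 < M' := by linarith
  obtain ⟨c, hc, hBL⟩ := BL_all K (show 0 < ε / M' by positivity)
  obtain ⟨G, hG⟩ : ∃ G : ℝ, G = √ (2 * K / ε) + 1 := ⟨_, rfl⟩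
  have hG0 : 0 < G := by rw [hG]; positivity
  have hG2 : 2 * K / ε ≤ G ^ 2 := by
    have h1 : √ (2 * K / ε) ^ 2 = 2 * K / ε := Real.sq_sqrt (by positivity)
    have h2 : 0 ≤ √ (2 * K / ε) := Real.sqrt_nonneg _
    rw [hG]
    nlinarith
  refine ⟨G, hG0, ?_⟩
  have hlim : ∀ᶠ t : ℕ in atTop, (t : ℝ) ^ (29 / 50 : ℝ) ≤ c * t := by
    have h1 : Tendsto (fun t : ℕ => (t : ℝ) ^ (21 / 50 : ℝ)) atTop atTop :=
      (tendsto_rpow_atTop (by norm_num)).comp tendsto_natCast_atTop_atTop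
    filter_upwards [h1.eventually_ge_atTop (1 / c), eventually_ge_atTop 1] with t ht ht1
    have ht0 : (0 : ℝ) < t := by exact_mod_cast ht1
    have e : (t : ℝ) = (t : ℝ) ^ (29 / 50 : ℝ) * (t : ℝ) ^ (21 / 50 : ℝ) := by
      rw [← Real.rpow_add ht0]; norm_num
    rw [div_le_iff₀ hc] at ht
    have h2 : 0 ≤ (t : ℝ) ^ (29 / 50 : ℝ) := by positivity
    calc (t : ℝ) ^ (29 / 50 : ℝ) = (t : ℝ) ^ (29 / 50 : ℝ) * 1 := by ring
      _ ≤ (t : ℝ) ^ (29 / 50 : ℝ) * ((t : ℝ) ^ (21 / 50 : ℝ) * c) := mul_le_mul_of_nonneg_left ht h2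
      _ = c * ((t : ℝ) ^ (29 / 50 : ℝ) * (t : ℝ) ^ (21 / 50 : ℝ)) := by ring
      _ = c * t := by rw [← e]
  filter_upwards [hBL, hlim, eventually_ge_atTop 1] with t b hlim ht1 D hD hgap φ hφ hlip
  have ht0 : (0 : ℝ) < t := by exact_mod_cast ht1
  have hst : 0 < √ (t : ℝ) := Real.sqrt_pos.2 ht0
  have hcc : 0 ≤ M / √ (t : ℝ) := by positivity
  have hlip' : ∀ A A' : Fin K → ℤ, |φ A - φ A'| ≤ M / √ (t : ℝ) * (∑ i, |(A i : ℝ) - A' i|) + ε := by
    intro A A'
    refine (hlip A A').trans (le_of_eq ?_)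
    ring
  have hnear := reg_near hφ hcc hlip' hε.le
  have hsmall : Small D (fun _ => 0) c t := by
    intro i
    refine ⟨(hD i).trans hlim, ?_⟩
    simp only [Int.cast_zero, abs_zero]
    positivity
  obtain ⟨g, hg⟩ : ∃ g : (Fin K → ℤ) → ℝ, g = fun u => reg φ (M / √ (t : ℝ)) (fun i => (u i : ℝ)) := ⟨_, rfl⟩
  have hg1 : ∀ u, |g u| ≤ 1 := by intro u; rw [hg]; exact reg_abs hφ hcc _
  have hgn : ∀ u, |φ u - g u| ≤ ε := by intro u; rw [hg]; exact hnear u
  have hadm : Adm (fun (u : Fin K → ℝ) (_ : Fin K → Fin K → Prop) => reg φ (M / √ (t : ℝ)) (fun i => √ (t : ℝ) * u i) / M') := by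
    refine ⟨fun u p => ?_, fun u v p => ?_⟩
    · rw [abs_div, abs_of_pos hM0, div_le_one hM0]
      exact (reg_abs hφ hcc _).trans hM1
    · simp only
      rw [← sub_div, abs_div, abs_of_pos hM0, div_le_iff₀ hM0]
      refine (reg_lip hφ hcc _ _).trans ?_
      have h1 : ‖(fun i => √ (t : ℝ) * u i) - (fun i => √ (t : ℝ) * v i)‖ ≤ √ (t : ℝ) * ‖u - v‖ := by
        rw [pi_norm_le_iff_of_nonneg (by positivity)]
        intro i
        simp only [Pi.sub_apply]
        rw [← mul_sub, norm_mul, Real.norm_of_nonneg hst.le]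
        exact mul_le_mul_of_nonneg_left (norm_le_pi_norm (u - v) i) hst.le
      calc M / √ (t : ℝ) * (K * ‖(fun i => √ (t : ℝ) * u i) - (fun i => √ (t : ℝ) * v i)‖)
          ≤ M / √ (t : ℝ) * (K * (√ (t : ℝ) * ‖u - v‖)) := by
            apply mul_le_mul_of_nonneg_left _ hcc
            exact mul_le_mul_of_nonneg_left h1 (by positivity)
        _ = M * K * ‖u - v‖ := by field_simp
        _ ≤ ‖u - v‖ * M' := by
            rw [hM']
            nlinarith [norm_nonneg (u - v)]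
  have key := b D (fun _ => 0) hsmall _ hadm
  have e1 : ∀ x : ℝ, √ (t : ℝ) * (x / √ (t : ℝ)) = x := by intro x; field_simp
  have e2 : (fW (fun (u : Fin K → ℝ) (_ : Fin K → Fin K → Prop) => reg φ (M / √ (t : ℝ)) (fun i => √ (t : ℝ) * u i) / M') (t : ℝ)) =
      fun u : Fin K → ℤ => 1 / M' * g u := by
    funext u
    unfold fW
    simp only [e1]
    rw [hg]
    ring
  have e3 : (fun m : ℤ => reg φ (M / √ (t : ℝ)) (fun i => √ (t : ℝ) * ((AA D (fun _ => 0) t m i : ℝ) / √ (t : ℝ))) / M') =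
      fun m => 1 / M' * g (fun i => (D i : ℤ) + od t (3 ^ D i * m)) := by
    funext m
    simp only [e1]
    rw [hg]
    simp only
    have : (fun i => ((AA D (fun _ => 0) t m i : ℤ) : ℝ)) = fun i => (((D i : ℤ) + od t (3 ^ D i * m) : ℤ) : ℝ) := by
      funext i
      unfold AA Lf
      simp only [add_zero]
    rw [this]
    ring
  rw [e2] at key
  simp only at key
  rw [e3, (isE_cw t _).smul, (isE_ex t).smul, ← mul_sub, abs_mul, abs_of_pos (by positivity : 0 < 1 / M')] at key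
  have key2 : |ex t (fun y => g (fun i => (D i : ℤ) + od t (3 ^ D i * y))) - cw g t (fun i => (D i : ℤ))| ≤ ε := by
    have : 1 / M' * |ex t (fun y => g (fun i => (D i : ℤ) + od t (3 ^ D i * y))) - cw g t (fun i => (D i : ℤ))| ≤ 1 / M' * ε := by
      refine key.trans (le_of_eq ?_)
      ring
    exact le_of_mul_le_mul_left this (by positivity)
  have h3 := cw_iw hg1 t (fun i => (D i : ℤ))
  have h4 := cw_far (z := fun i => (D i : ℤ)) ht1 hG0 (fun i j hij => by
    have := hgap i j hij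
    push_cast
    exact this)
  have h5 : (K : ℝ) / G ^ 2 ≤ ε / 2 := by
    rw [div_le_iff₀ (by positivity)]
    rw [div_le_iff₀ hε] at hG2
    linarith
  have h6 : iw g t (fun i => (D i : ℤ)) = exK t K (fun y => g (fun i => (D i : ℤ) + od t (y i))) := by
    have := t_EXK K t (fun u => g (fun i => (D i : ℤ) + u i))
    rw [this, iw_add_const g (fun i => (D i : ℤ)) t]
    simp
  have h7 : |ex t (fun y => φ (fun i => (D i : ℤ) + od t (3 ^ D i * y))) - ex t (fun y => g (fun i => (D i : ℤ) + od t (3 ^ D i * y)))| ≤ ε := by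
    rw [← (isE_ex t).sub]
    have := (isE_ex t).abs_le (f := fun y => φ (fun i => (D i : ℤ) + od t (3 ^ D i * y)) - g (fun i => (D i : ℤ) + od t (3 ^ D i * y)))
      (g := fun _ => ε) (fun y => hgn _)
    rwa [(isE_ex t).const] at this
  have h8 : |exK t K (fun y => g (fun i => (D i : ℤ) + od t (y i))) - exK t K (fun y => φ (fun i => (D i : ℤ) + od t (y i)))| ≤ ε := by
    have a1 := t_EXK K t (fun u => g (fun i => (D i : ℤ) + u i))
    have a2 := t_EXK K t (fun u => φ (fun i => (D i : ℤ) + u i))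
    rw [a1, a2, ← (isE_iw t (fun _ => 0)).sub]
    have := (isE_iw (k := K) t (fun _ => 0)).abs_le (f := fun u => g (fun i => (D i : ℤ) + u i) - φ (fun i => (D i : ℤ) + u i))
      (g := fun _ => ε) (fun u => by rw [abs_sub_comm]; exact hgn _)
    rwa [(isE_iw t (fun _ => 0)).const] at this
  rw [← h6] at h8
  have h9 : |cw g t (fun i => (D i : ℤ)) - iw g t (fun i => (D i : ℤ))| ≤ ε := by linarith
  calc _ ≤ |ex t (fun y => φ (fun i => (D i : ℤ) + od t (3 ^ D i * y))) - ex t (fun y => g (fun i => (D i : ℤ) + od t (3 ^ D i * y)))| +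
        (|ex t (fun y => g (fun i => (D i : ℤ) + od t (3 ^ D i * y))) - cw g t (fun i => (D i : ℤ))| +
        (|cw g t (fun i => (D i : ℤ)) - iw g t (fun i => (D i : ℤ))| +
        |iw g t (fun i => (D i : ℤ)) - exK t K (fun y => φ (fun i => (D i : ℤ) + od t (y i)))|)) := by
        refine (abs_sub_le _ _ _).trans (add_le_add_right ?_ _)
        refine (abs_sub_le _ _ _).trans (add_le_add_right ?_ _)
        exact abs_sub_le _ _ _
    _ ≤ ε + (ε + (ε + ε)) := add_le_add h7 (add_le_add key2 (add_le_add h9 h8))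
    _ = 4 * ε := by ring

end Pool.Agent.J4H26.KP
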