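import Mathlib
import Pool.Agent.J4H26.PC.Main
import Pool.Agent.J4H26.KP.Uni
import Pool.Agent.J4H26.KP.Laws
import Pool.Agent.J4H39.KP.V2
import Pool.Agent.J4H39.KP.V3
import Pool.Agent.J4H39.KP.F3
import Pool.Agent.J4H8.KP.Rst
import Pool.Agent.J4H8.KP.Shf
import Pool.Agent.J4H45.KP.Gamk
import Pool.Agent.J4H84.KP.Eec
import Pool.Agent.J4H79.KP.Eeg
import Pool.Agent.J4H53.KP.Gmu
import Pool.Agent.J4H98.KP.Unm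
import Pool.Agent.J4H97.KP.Blk
import Pool.Agent.J4H97.KP.Shr
import Pool.Agent.J4H30.KP.Cor2
import Pool.Agent.J4H17.KP.Pat
import Pool.Agent.J4H17.KP.Centk
import Pool.Agent.J4H55.KP.Mom2

set_option autoImplicit false

/-! Project KP: assembly. -/

namespace Pool.Agent.J4H26.KP

open Filter Real
open Pool.Agent.J4H26.PC (a_STM a_VLAW a_CENT InvS ct)

theorem k_RST : S_RST := Pool.Agent.J4H8.KP.t_RST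
theorem k_SHF : S_SHF := Pool.Agent.J4H8.KP.t_SHF k_RST
theorem k_GAMK : S_GAMK := Pool.Agent.J4H45.KP.t_GAMK
theorem k_EEC2 : S_EEC2 := Pool.Agent.J4H84.KP.t_EEC2 Pool.Agent.J4H39.KP.t_TR2 k_RST Pool.Agent.J4H39.KP.t_LIPD k_SHF t_LAWS
theorem k_EEG2 : S_EEG2 := Pool.Agent.J4H79.KP.t_EEG2 a_STM k_GAMK
theorem k_GMU : S_GMU := Pool.Agent.J4H53.KP.t_GMU a_VLAW
theorem k_UNM2 : S_UNM2 := Pool.Agent.J4H98.KP.t_UNM2 k_EEC2 k_EEG2 k_GMU k_SHF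
theorem k_BLK2 : S_BLK2 := Pool.Agent.J4H97.KP.t_BLK2 k_UNM2 k_RST
theorem k_COR2 : S_COR2 := Pool.Agent.J4H30.KP.t_COR2 Pool.Agent.J4H39.KP.t_TR2 k_BLK2 Pool.Agent.J4H39.KP.t_NSL
theorem k_CENTK : S_CENTK := Pool.Agent.J4H17.KP.t_CENTK a_CENT
theorem k_SHR : S_SHR := Pool.Agent.J4H97.KP.t_SHR
theorem k_PAT : S_PAT := Pool.Agent.J4H17.KP.t_PAT
theorem k_MOM : S_MOM := Pool.Agent.J4H55.KP.t_MOM a_STM k_GAMK k_COR2 k_PAT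

theorem main_FIN : S_FIN := t_FIN k_MOM k_CENTK k_SHR

theorem main_FULL {θ ε δ₀ : ℝ} (hθ : 0 < θ) (hθ1 : θ < 1) (hε : 0 < ε) (hδ₀ : 0 < δ₀) :
    ∃ c : ℝ, 0 < c ∧ ∀ᶠ N : ℕ in atTop, ∀ s : ℤ, (s = 1 ∨ s = -1) → ∀ R : Set ℤ, InvS s R → ∀ δ : ℝ,
      Tendsto (fun N : ℕ => ct s R N / N) atTop (nhds δ) → δ₀ ≤ δ →
      c * N ≤ ({n : ℕ | (1 ≤ n ∧ n ≤ N) ∧ (1 - ε) * ⌊(N : ℝ) ^ θ⌋₊ ≤
        ({h : ℕ | (1 ≤ h ∧ h ≤ ⌊(N : ℝ) ^ θ⌋₊) ∧ s * n + h ∈ R}.ncard : ℝ)}.ncard : ℝ) :=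
  Pool.Agent.J4H39.KP.t_FULL k_MOM k_CENTK k_SHR hθ hθ1 hε hδ₀

end Pool.Agent.J4H26.KP
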