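import Mathlib
import Pool.Agent.J4H26.KP.Main
import Pool.Agent.J4H26.KP.Lim3
import Pool.Agent.J4H30.KP.LimAll

set_option autoImplicit false

/-! Project KP: assembly of the second part (limits). -/

namespace Pool.Agent.J4H26.KP

open Filter Real
open Pool.Agent.J4H26.PC (InvS ct)

theorem k_LIM : S_LIM := Pool.Agent.J4H30.KP.lim_all

theorem main_lim (K : ℕ) {θ : ℝ} (hθ : 0 < θ) (hθ1 : θ < 1) :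
    ∃ p : Finset (Finset (Fin (K + 1))) → ℝ, (∀ P, Tendsto (fun N : ℕ => EW θ N (ip P)) atTop (nhds (p P))) ∧
      ∀ s : ℤ, (s = 1 ∨ s = -1) → ∀ ε : ℝ, 0 < ε → ∀ᶠ N : ℕ in atTop,
      ∀ (R : Fin (K + 1) → Set ℤ) (δ : Finset (Fin (K + 1)) → ℝ), (∀ i, InvS s (R i)) →
      (∀ B, B.Nonempty → Tendsto (fun N : ℕ => ct s {n | ∀ i ∈ B, n ∈ R i} N / N) atTop (nhds (δ B))) →
      |mom s R N ⌊(N : ℝ) ^ θ⌋₊ - ∑ P, p P * ∏ B ∈ P, δ B| ≤ ε := fin2 main_FIN k_LIM K hθ hθ1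

theorem main_law {θ : ℝ} (hθ : 0 < θ) (hθ1 : θ < 1) {φ : ℝ → ℝ} (hφ : Continuous φ) (δ : ℝ) :
    ∃ L : ℝ, ∀ ε : ℝ, 0 < ε → ∀ᶠ N : ℕ in atTop, ∀ (s : ℤ) (R : Set ℤ), (s = 1 ∨ s = -1) → InvS s R →
      Tendsto (fun N : ℕ => ct s R N / N) atTop (nhds δ) → |ms s R N ⌊(N : ℝ) ^ θ⌋₊ φ - L| ≤ ε :=
  law_lim main_FIN k_LIM hθ hθ1 hφ δ

/-- full and empty windows -/
theorem main_full {θ ε δ₀ : ℝ} (hθ : 0 < θ) (hθ1 : θ < 1) (hε : 0 < ε) (hδ₀ : 0 < δ₀) :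
    ∃ c : ℝ, 0 < c ∧ ∀ᶠ N : ℕ in atTop, ∀ s : ℤ, (s = 1 ∨ s = -1) → ∀ R : Set ℤ, InvS s R → ∀ δ : ℝ,
      Tendsto (fun N : ℕ => ct s R N / N) atTop (nhds δ) →
      (δ₀ ≤ δ → c * N ≤ ({m : ℕ | (1 ≤ m ∧ m ≤ N) ∧ 1 - ε ≤ sh R ⌊(N : ℝ) ^ θ⌋₊ (s * m)}.ncard : ℝ)) ∧
      (δ ≤ 1 - δ₀ → c * N ≤ ({m : ℕ | (1 ≤ m ∧ m ≤ N) ∧ sh R ⌊(N : ℝ) ^ θ⌋₊ (s * m) ≤ ε}.ncard : ℝ)) := by
  obtain ⟨c, hc, hev⟩ := main_FULL hθ hθ1 hε hδ₀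
  refine ⟨c, hc, ?_⟩
  filter_upwards [hev, eventually_ge_atTop 1] with N h hN s hs R hR δ hδ
  have hN1 : (1 : ℝ) ≤ N := by exact_mod_cast hN
  have hH : 1 ≤ ⌊(N : ℝ) ^ θ⌋₊ := Nat.le_floor (by rw [Nat.cast_one]; exact Real.one_le_rpow hN1 hθ.le)
  have hH0 : (0 : ℝ) < ⌊(N : ℝ) ^ θ⌋₊ := by exact_mod_cast hH
  have key : ∀ (R : Set ℤ) (δ : ℝ), InvS s R → Tendsto (fun N : ℕ => ct s R N / N) atTop (nhds δ) → δ₀ ≤ δ →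
      c * N ≤ ({m : ℕ | (1 ≤ m ∧ m ≤ N) ∧ 1 - ε ≤ sh R ⌊(N : ℝ) ^ θ⌋₊ (s * m)}.ncard : ℝ) := by
    intro R δ hR hδ hδ0
    refine (h s hs R hR δ hδ hδ0).trans (le_of_eq ?_)
    congr 2
    ext m
    unfold sh
    simp only [Set.mem_setOf_eq]
    rw [le_div_iff₀ hH0]
  refine ⟨key R δ hR hδ, fun hδ0 => ?_⟩
  refine (key Rᶜ (1 - δ) (inv_compl hR) (dens_compl hs hδ) (by linarith)).trans (le_of_eq ?_)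
  congr 2
  ext m
  simp only [Set.mem_setOf_eq]
  rw [sh_compl R hH]
  constructor
  · rintro ⟨a, b⟩; exact ⟨a, by linarith⟩
  · rintro ⟨a, b⟩; exact ⟨a, by linarith⟩

end Pool.Agent.J4H26.KP
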