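import Mathlib
import Pool.Agent.J4H26.KP.Main2

set_option autoImplicit false

/-! Project KP: the law of the local density converges uniformly in the density (remark of helper5). -/

namespace Pool.Agent.J4H26.KP

open Finset Filter Real
open Pool.Agent.J4H26.PC (InvS ct)

/-- powers, uniformly in the density -/
theorem unif_pow {θ : ℝ} (hθ : 0 < θ) (hθ1 : θ < 1) (n : ℕ) : ∃ L : ℝ → ℝ, ∀ ε : ℝ, 0 < ε → ∀ᶠ N : ℕ in atTop,
    ∀ (s : ℤ) (R : Set ℤ) (δ : ℝ), (s = 1 ∨ s = -1) → InvS s R → Tendsto (fun N : ℕ => ct s R N / N) atTop (nhds δ) →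
    |ms s R N ⌊(N : ℝ) ^ θ⌋₊ (fun x => x ^ n) - L δ| ≤ ε := by
  cases n with
  | zero =>
    refine ⟨fun _ => 1, fun ε hε => ?_⟩
    filter_upwards [eventually_ge_atTop 1] with N hN s R δ _ _ _
    have hN0 : (N : ℝ) ≠ 0 := by
      have : (0 : ℝ) < N := by exact_mod_cast hN
      exact this.ne'
    unfold ms
    simp only [pow_zero, sum_const, Nat.card_Icc, Nat.add_sub_cancel, nsmul_eq_mul, mul_one]
    rw [div_self hN0, sub_self, abs_zero]
    exact hε.le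
  | succ K =>
    obtain ⟨p, _, h⟩ := main_lim K hθ hθ1
    refine ⟨fun δ => ∑ P, p P * ∏ _B ∈ P, δ, fun ε hε => ?_⟩
    filter_upwards [h 1 (Or.inl rfl) ε hε, h (-1) (Or.inr rfl) ε hε] with N h1 h2 s R δ hs hR hδ
    rw [ms_pow]
    rcases hs with rfl | rfl
    · exact h1 (fun _ => R) (fun _ => δ) (fun _ => hR) (fun B hB => dens_const hδ B hB)
    · exact h2 (fun _ => R) (fun _ => δ) (fun _ => hR) (fun B hB => dens_const hδ B hB)

/-- polynomials, uniformly in the density -/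
theorem unif_poly {θ : ℝ} (hθ : 0 < θ) (hθ1 : θ < 1) (p : Polynomial ℝ) : ∃ L : ℝ → ℝ, ∀ ε : ℝ, 0 < ε → ∀ᶠ N : ℕ in atTop,
    ∀ (s : ℤ) (R : Set ℤ) (δ : ℝ), (s = 1 ∨ s = -1) → InvS s R → Tendsto (fun N : ℕ => ct s R N / N) atTop (nhds δ) →
    |ms s R N ⌊(N : ℝ) ^ θ⌋₊ (fun x => p.eval x) - L δ| ≤ ε := by
  induction p using Polynomial.induction_on' with
  | add p q hp hq =>
    obtain ⟨a, ha⟩ := hp
    obtain ⟨b, hb⟩ := hq
    refine ⟨fun δ => a δ + b δ, fun ε hε => ?_⟩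
    filter_upwards [ha (ε / 2) (half_pos hε), hb (ε / 2) (half_pos hε)] with N h1 h2 s R δ hs hR hδ
    have a1 := h1 s R δ hs hR hδ
    have a2 := h2 s R δ hs hR hδ
    simp only [Polynomial.eval_add, ms_add]
    rw [abs_le] at *
    constructor <;> linarith [a1.1, a1.2, a2.1, a2.2]
  | monomial n c =>
    obtain ⟨a, ha⟩ := unif_pow hθ hθ1 n
    refine ⟨fun δ => c * a δ, fun ε hε => ?_⟩
    have hc : 0 < |c| + 1 := by positivity
    filter_upwards [ha (ε / (|c| + 1)) (by positivity)] with N h1 s R δ hs hR hδ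
    have a1 := h1 s R δ hs hR hδ
    simp only [Polynomial.eval_monomial, ms_smul]
    rw [← mul_sub, abs_mul]
    calc |c| * |ms s R N ⌊(N : ℝ) ^ θ⌋₊ (fun x => x ^ n) - a δ| ≤ (|c| + 1) * (ε / (|c| + 1)) := by
          apply mul_le_mul _ a1 (abs_nonneg _) hc.le
          linarith
      _ = ε := by field_simp

/-- **the law of the local density converges, uniformly in the density** -/
theorem main_law_unif {θ : ℝ} (hθ : 0 < θ) (hθ1 : θ < 1) {φ : ℝ → ℝ} (hφ : Continuous φ) :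
    ∃ L : ℝ → ℝ, ∀ ε : ℝ, 0 < ε → ∀ᶠ N : ℕ in atTop, ∀ (s : ℤ) (R : Set ℤ) (δ : ℝ), (s = 1 ∨ s = -1) → InvS s R →
      Tendsto (fun N : ℕ => ct s R N / N) atTop (nhds δ) → |ms s R N ⌊(N : ℝ) ^ θ⌋₊ φ - L δ| ≤ ε := by
  choose L hL using fun δ : ℝ => main_law hθ hθ1 hφ δ
  refine ⟨L, fun ε hε => ?_⟩
  obtain ⟨p, hp⟩ := exists_polynomial_near_of_continuousOn 0 1 φ hφ.continuousOn (ε / 8) (by positivity)
  have hp' : ∀ x ∈ Set.Icc (0 : ℝ) 1, |φ x - p.eval x| ≤ ε / 8 := by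
    intro x hx
    rw [abs_sub_comm]
    exact (hp x hx).le
  obtain ⟨Lp, hLp⟩ := unif_poly hθ hθ1 p
  have key := hLp (ε / 8) (by positivity)
  filter_upwards [key] with N h1 s R δ hs hR hδ
  obtain ⟨N', h2, h3⟩ := (key.and (hL δ (ε / 8) (by positivity))).exists
  have a1 := h1 s R δ hs hR hδ
  have a2 := h2 s R δ hs hR hδ
  have a3 := h3 s R hs hR hδ
  have b1 := ms_near (s := s) (R := R) (N := N) (H := ⌊(N : ℝ) ^ θ⌋₊) (show 0 ≤ ε / 8 by positivity) hp'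
  have b2 := ms_near (s := s) (R := R) (N := N') (H := ⌊(N' : ℝ) ^ θ⌋₊) (show 0 ≤ ε / 8 by positivity) hp'
  rw [abs_le] at *
  constructor <;> linarith [a1.1, a1.2, a2.1, a2.2, a3.1, a3.2, b1.1, b1.2, b2.1, b2.2]

end Pool.Agent.J4H26.KP
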