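import Mathlib
import Pool.Agent.J4H26.KP.Sup
import Pool.Agent.J4H26.KP.Lim3
import Pool.Agent.J4H39.KP.F3

set_option autoImplicit false

/-! Project KP: the law of the share has full support and no mass at the ends.  Assembly. -/

namespace Pool.Agent.J4H26.KP

open Finset Filter Real
open Pool.Agent.J4H39 (th0 tN)
open Pool.Agent.J4H39.KP (nc)
open Pool.Agent.J4H26.PC (InvS ct)
open Pool.Agent.J4H26.KT (iw cw sw isE_cw isE_iw)

/-- the two times -/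
theorem times2 {θ : ℝ} (hθ : 0 < θ) (hθ1 : θ < 1) : ∀ᶠ N : ℕ in atTop,
    θ / (2 * (1 - θ)) * ((tN (1 / th0) N - tN (θ / th0) N : ℕ) : ℝ) ≤ ((tN (θ / th0) N : ℕ) : ℝ) := by
  have h0 := Pool.Agent.J4H39.th0_pos
  have hL : Tendsto (fun N : ℕ => Real.logb 2 (N : ℝ)) atTop atTop :=
    (Real.tendsto_logb_atTop (by norm_num)).comp tendsto_natCast_atTop_atTop
  have hθ' : 0 < 1 - θ := by linarith
  filter_upwards [hL.eventually_ge_atTop (2 * th0 / θ * (1 + θ / (2 * (1 - θ)))), hL.eventually_ge_atTop 0] with N h1 h3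
  obtain ⟨L, hLe⟩ : ∃ L, L = Real.logb 2 (N : ℝ) := ⟨_, rfl⟩
  rw [← hLe] at h1 h3
  have a1 : (θ / th0) * L < ((tN (θ / th0) N : ℕ) : ℝ) + 1 := by
    rw [hLe]; unfold tN; exact Nat.lt_floor_add_one _
  have a2 : ((tN (1 / th0) N : ℕ) : ℝ) ≤ (1 / th0) * L := by
    rw [hLe]; unfold tN; exact Nat.floor_le (by rw [← hLe]; positivity)
  have a3 : ((tN (1 / th0) N - tN (θ / th0) N : ℕ) : ℝ) ≤ (1 - θ) / th0 * L + 1 := by
    rcases le_total (tN (θ / th0) N) (tN (1 / th0) N) with h | h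
    · rw [Nat.cast_sub h]
      have e : (1 - θ) / th0 * L = (1 / th0) * L - (θ / th0) * L := by ring
      rw [e]
      linarith
    · rw [Nat.sub_eq_zero_of_le h, Nat.cast_zero]
      positivity
  have h5 := mul_le_mul_of_nonneg_left a3 (show 0 ≤ θ / (2 * (1 - θ)) by positivity)
  refine h5.trans ?_
  have e : θ / (2 * (1 - θ)) * ((1 - θ) / th0 * L + 1) = θ / th0 * L / 2 + θ / (2 * (1 - θ)) := by field_simp
  rw [e]
  have h6 : 1 + θ / (2 * (1 - θ)) ≤ θ / th0 * L / 2 := by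
    calc 1 + θ / (2 * (1 - θ)) = θ / th0 * (2 * th0 / θ * (1 + θ / (2 * (1 - θ)))) / 2 := by field_simp
      _ ≤ θ / th0 * L / 2 := by
        apply div_le_div_of_nonneg_right _ (by norm_num)
        exact mul_le_mul_of_nonneg_left h1 (by positivity)
  linarith

/-- the maximum of `y ^ j * (1 - y) ^ l` -/
theorem f_lt {j l : ℕ} (hj : 0 < j) (hl : 0 < l) {x y : ℝ} (hx : x = j / (j + l)) (hy0 : 0 ≤ y) (hy1 : y ≤ 1) (hne : y ≠ x) :
    y ^ j * (1 - y) ^ l < x ^ j * (1 - x) ^ l := by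
  have hj0 : (0 : ℝ) < j := by exact_mod_cast hj
  have hl0 : (0 : ℝ) < l := by exact_mod_cast hl
  have hx0 : 0 < x := by rw [hx]; positivity
  have hx1 : x < 1 := by rw [hx, div_lt_one (by positivity)]; linarith
  have hx1' : 0 < 1 - x := by linarith
  rcases hy0.eq_or_lt with h | h
  · rw [← h, zero_pow hj.ne', zero_mul]; positivity
  rcases hy1.eq_or_lt with h' | h'
  · rw [h', sub_self, zero_pow hl.ne', mul_zero]; positivity
  have hy1' : 0 < 1 - y := by linarith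
  have jx : (j : ℝ) = (j + l) * x := by rw [hx]; field_simp
  have lx : (l : ℝ) = (j + l) * (1 - x) := by rw [hx]; field_simp; ring
  have h1 : Real.log (y / x) < y / x - 1 := Real.log_lt_sub_one_of_pos (by positivity) (by rw [Ne, div_eq_one_iff_eq hx0.ne']; exact hne)
  have h2 : Real.log ((1 - y) / (1 - x)) ≤ (1 - y) / (1 - x) - 1 := Real.log_le_sub_one_of_pos (by positivity)
  rw [Real.log_div h.ne' hx0.ne'] at h1
  rw [Real.log_div hy1'.ne' hx1'.ne'] at h2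
  have h3 : x * (Real.log y - Real.log x) < y - x := by
    have := mul_lt_mul_of_pos_left h1 hx0
    have e : x * (y / x - 1) = y - x := by field_simp
    rwa [e] at this
  have h4 : (1 - x) * (Real.log (1 - y) - Real.log (1 - x)) ≤ x - y := by
    have := mul_le_mul_of_nonneg_left h2 hx1'.le
    have e : (1 - x) * ((1 - y) / (1 - x) - 1) = x - y := by field_simp; ring
    rwa [e] at this
  have h5 : (j : ℝ) * Real.log y + l * Real.log (1 - y) < j * Real.log x + l * Real.log (1 - x) := by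
    have hjl : (0 : ℝ) < j + l := by positivity
    have h6 : x * (Real.log y - Real.log x) + (1 - x) * (Real.log (1 - y) - Real.log (1 - x)) < 0 := by linarith
    have h7 := mul_neg_of_pos_of_neg hjl h6
    have e : ((j : ℝ) + l) * (x * (Real.log y - Real.log x) + (1 - x) * (Real.log (1 - y) - Real.log (1 - x))) =
        ((j + l) * x) * (Real.log y - Real.log x) + ((j + l) * (1 - x)) * (Real.log (1 - y) - Real.log (1 - x)) := by ring
    rw [e, ← jx, ← lx] at h7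
    linarith
  have ex : ∀ v : ℝ, 0 < v → 0 < 1 - v → v ^ j * (1 - v) ^ l = Real.exp (j * Real.log v + l * Real.log (1 - v)) := by
    intro v hv hv'
    rw [Real.exp_add, mul_comm (j : ℝ), mul_comm (l : ℝ), Real.exp_mul, Real.exp_mul, Real.exp_log hv, Real.exp_log hv',
      Real.rpow_natCast, Real.rpow_natCast]
  rw [ex y h hy1', ex x hx0 hx1']
  exact Real.exp_lt_exp.2 h5

theorem f_max {j l : ℕ} (hj : 0 < j) (hl : 0 < l) {x e : ℝ} (hx : x = j / (j + l)) (he : 0 < e) :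
    ∃ μ : ℝ, 0 < μ ∧ μ < 1 ∧ ∀ y : ℝ, 0 ≤ y → y ≤ 1 → e ≤ |y - x| → y ^ j * (1 - y) ^ l ≤ μ * (x ^ j * (1 - x) ^ l) := by
  have hj0 : (0 : ℝ) < j := by exact_mod_cast hj
  have hl0 : (0 : ℝ) < l := by exact_mod_cast hl
  have hx0 : 0 < x := by rw [hx]; positivity
  have hx1 : x < 1 := by rw [hx, div_lt_one (by positivity)]; linarith
  have hF : 0 < x ^ j * (1 - x) ^ l := mul_pos (pow_pos hx0 _) (pow_pos (by linarith) _)
  have hK : IsCompact (Set.Icc (0 : ℝ) 1 ∩ {y | e ≤ |y - x|}) := by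
    apply isCompact_Icc.inter_right
    exact isClosed_le continuous_const (by fun_prop)
  rcases (Set.Icc (0 : ℝ) 1 ∩ {y | e ≤ |y - x|}).eq_empty_or_nonempty with h | h
  · refine ⟨1 / 2, by norm_num, by norm_num, fun y h0 h1 h2 => ?_⟩
    exact absurd (show y ∈ Set.Icc (0 : ℝ) 1 ∩ {y | e ≤ |y - x|} from ⟨⟨h0, h1⟩, h2⟩) (by rw [h]; exact Set.notMem_empty _)
  · obtain ⟨y₀, hy₀, hmax⟩ := hK.exists_isMaxOn h (f := fun y : ℝ => y ^ j * (1 - y) ^ l) (by fun_prop)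
    have hne : y₀ ≠ x := by
      intro h'
      have h2 : e ≤ |y₀ - x| := hy₀.2
      rw [h', sub_self, abs_zero] at h2
      linarith
    have h3 := f_lt hj hl hx hy₀.1.1 hy₀.1.2 hne
    refine ⟨max (1 / 2) (y₀ ^ j * (1 - y₀) ^ l / (x ^ j * (1 - x) ^ l)), lt_of_lt_of_le (by norm_num) (le_max_left _ _), ?_, ?_⟩
    · apply max_lt (by norm_num)
      rw [div_lt_one hF]
      exact h3
    · intro y h0 h1 h2
      have h4 : y ^ j * (1 - y) ^ l ≤ y₀ ^ j * (1 - y₀) ^ l := hmax (show y ∈ Set.Icc (0 : ℝ) 1 ∩ {y | e ≤ |y - x|} from ⟨⟨h0, h1⟩, h2⟩)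
      refine h4.trans ?_
      have h5 := mul_le_mul_of_nonneg_right (le_max_right (1 / 2) (y₀ ^ j * (1 - y₀) ^ l / (x ^ j * (1 - x) ^ l))) hF.le
      rwa [div_mul_cancel₀ _ hF.ne'] at h5

open Classical in
/-- the number of the values near `x` -/
theorem count_near {N j l M : ℕ} (hN : 1 ≤ N) (hj : 0 < j) (hl : 0 < l) {x e μ : ℝ} (hx : x = j / (j + l)) (he : 0 < e) (hμ : 0 < μ)
    (hf : ∀ y : ℝ, 0 ≤ y → y ≤ 1 → e ≤ |y - x| → y ^ j * (1 - y) ^ l ≤ μ * (x ^ j * (1 - x) ^ l))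
    {S : ℕ → ℝ} (h0 : ∀ n, 0 ≤ S n) (h1 : ∀ n, S n ≤ 1)
    (h : 3 / 2 * (μ ^ M * (x ^ j * (1 - x) ^ l) ^ M) ≤ (∑ n ∈ Finset.Icc 1 N, S n ^ (j * M) * (1 - S n) ^ (l * M)) / N) :
    μ ^ M / 2 * N ≤ #((Finset.Icc 1 N).filter (fun n => |S n - x| ≤ e)) := by
  have hN0 : (0 : ℝ) < N := by exact_mod_cast hN
  have hj0 : (0 : ℝ) < j := by exact_mod_cast hj
  have hl0 : (0 : ℝ) < l := by exact_mod_cast hl
  have hx0 : 0 < x := by rw [hx]; positivity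
  have hx1 : x < 1 := by rw [hx, div_lt_one (by positivity)]; linarith
  obtain ⟨F, hF⟩ : ∃ F, F = x ^ j * (1 - x) ^ l := ⟨_, rfl⟩
  have hF0 : 0 < F := by rw [hF]; exact mul_pos (pow_pos hx0 _) (pow_pos (by linarith) _)
  rw [← hF] at h hf
  rw [le_div_iff₀ hN0] at h
  have h2 : ∑ n ∈ Finset.Icc 1 N, S n ^ (j * M) * (1 - S n) ^ (l * M) ≤
      ∑ n ∈ Finset.Icc 1 N, ((if |S n - x| ≤ e then F ^ M else 0) + μ ^ M * F ^ M) := by
    apply sum_le_sum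
    intro n _
    have h3 : 0 ≤ μ ^ M * F ^ M := by positivity
    have h4 : S n ^ (j * M) * (1 - S n) ^ (l * M) = (S n ^ j * (1 - S n) ^ l) ^ M := by rw [pow_mul, pow_mul, mul_pow]
    have h5 : 0 ≤ S n ^ j * (1 - S n) ^ l := mul_nonneg (pow_nonneg (h0 n) _) (pow_nonneg (by have := h1 n; linarith) _)
    rw [h4]
    by_cases hh : |S n - x| ≤ e
    · rw [if_pos hh]
      have h6 : S n ^ j * (1 - S n) ^ l ≤ F := by
        by_cases hne : S n = x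
        · rw [hne, hF]
        · rw [hF]; exact (f_lt hj hl hx (h0 n) (h1 n) hne).le
      have := pow_le_pow_left₀ h5 h6 M
      linarith
    · rw [if_neg hh, zero_add, ← mul_pow]
      exact pow_le_pow_left₀ h5 (hf _ (h0 n) (h1 n) (not_le.1 hh).le) M
  rw [sum_add_distrib, sum_const, Nat.card_Icc, Nat.add_sub_cancel, nsmul_eq_mul, ← sum_filter, sum_const, nsmul_eq_mul] at h2
  have h3 : 3 / 2 * (μ ^ M * F ^ M) * N ≤ (#((Finset.Icc 1 N).filter (fun n => |S n - x| ≤ e)) : ℝ) * F ^ M + N * (μ ^ M * F ^ M) := h.trans h2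
  have h4 : (μ ^ M / 2 * N) * F ^ M ≤ (#((Finset.Icc 1 N).filter (fun n => |S n - x| ≤ e)) : ℝ) * F ^ M := by linarith
  exact le_of_mul_le_mul_right h4 (pow_pos hF0 _)

theorem prod_split (a b : ℕ) (x y : ℝ) : ∀ n : ℕ, a + b = n → ∏ i : Fin n, (if (i : ℕ) < a then x else y) = x ^ a * y ^ b := by
  rintro n rfl
  rw [Fin.prod_univ_add]
  congr 1
  · rw [prod_congr rfl (fun i _ => if_pos (by simp)), prod_const, card_univ, Fintype.card_fin]
  · rw [prod_congr rfl (fun i _ => if_neg (by simp)), prod_const, card_univ, Fintype.card_fin]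

open Classical in
/-- the densities of the intersections for the two groups -/
noncomputable def dm (a : ℕ) {K : ℕ} (δ : ℝ) (B : Finset (Fin K)) : ℝ :=
  if ∀ i ∈ B, (i : ℕ) < a then δ else if ∀ i ∈ B, a ≤ (i : ℕ) then 1 - δ else 0

theorem dm_dens {s : ℤ} (hs : s = 1 ∨ s = -1) {R : Set ℤ} {δ : ℝ} (h : Tendsto (fun N : ℕ => ct s R N / N) atTop (nhds δ)) (a : ℕ) {K : ℕ}
    (B : Finset (Fin K)) (hB : B.Nonempty) :
    Tendsto (fun N : ℕ => ct s {n | ∀ i ∈ B, n ∈ (fun i : Fin K => if (i : ℕ) < a then R else Rᶜ) i} N / N) atTop (nhds (dm a δ B)) := by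
  obtain ⟨i₀, hi₀⟩ := hB
  unfold dm
  split_ifs with h1 h2
  · have e : {n : ℤ | ∀ i ∈ B, n ∈ (fun i : Fin K => if (i : ℕ) < a then R else Rᶜ) i} = R := by
      ext n
      simp only [Set.mem_setOf_eq]
      constructor
      · intro h'
        have := h' i₀ hi₀
        rwa [if_pos (h1 i₀ hi₀)] at this
      · intro h' i hi
        rwa [if_pos (h1 i hi)]
    rw [e]
    exact h
  · have e : {n : ℤ | ∀ i ∈ B, n ∈ (fun i : Fin K => if (i : ℕ) < a then R else Rᶜ) i} = Rᶜ := by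
      ext n
      simp only [Set.mem_setOf_eq]
      constructor
      · intro h'
        have := h' i₀ hi₀
        rwa [if_neg (by have := h2 i₀ hi₀; omega)] at this
      · intro h' i hi
        rwa [if_neg (by have := h2 i hi; omega)]
    rw [e]
    exact dens_compl hs h
  · push Not at h1 h2
    obtain ⟨i, hi, hi'⟩ := h1
    obtain ⟨j, hj, hj'⟩ := h2
    have e : {n : ℤ | ∀ i ∈ B, n ∈ (fun i : Fin K => if (i : ℕ) < a then R else Rᶜ) i} = ∅ := by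
      ext n
      simp only [Set.mem_setOf_eq, Set.mem_empty_iff_false, iff_false]
      intro h'
      have a1 := h' i hi
      have a2 := h' j hj
      rw [if_neg (by omega)] at a1
      rw [if_pos hj'] at a2
      exact a1 a2
    rw [e]
    have e2 : (fun N : ℕ => ct s (∅ : Set ℤ) N / N) = fun _ => (0 : ℝ) := by
      funext N
      unfold ct
      simp
    rw [e2]
    exact tendsto_const_nhds

open Classical in
/-- the groups apart, a lower bound for the product over the clusters -/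
theorem sep_le (a : ℕ) {K : ℕ} {δ δ₁ : ℝ} (h0 : 0 ≤ δ₁) (h1 : δ₁ ≤ 1) (h2 : δ₁ ≤ δ) (h3 : δ₁ ≤ 1 - δ) (u : Fin K → ℤ) :
    sepW a δ₁ u ≤ mZ (dm a δ) u := by
  have hnn : ∀ B : Finset (Fin K), 0 ≤ dm a δ B := by
    intro B
    unfold dm
    split_ifs <;> linarith
  unfold sepW
  split_ifs with hs
  · unfold mZ mR
    obtain ⟨C, hC⟩ : ∃ C : Finset (Finset (Fin K)), C = univ.image (fun i => univ.filter (fun j => u i = u j)) := ⟨_, rfl⟩
    have hcard : #C ≤ nc u := by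
      have h1 : C = (univ.image u).image (fun v => univ.filter (fun j => v = u j)) := by
        rw [hC, image_image]; rfl
      rw [h1]
      exact card_image_le
    calc δ₁ ^ nc u ≤ δ₁ ^ #C := pow_le_pow_of_le_one h0 h1 hcard
      _ = ∏ _B ∈ C, δ₁ := by rw [prod_const]
      _ ≤ ∏ B ∈ C, dm a δ B := by
          apply prod_le_prod (fun _ _ => h0)
          intro B hB
          rw [hC] at hB
          obtain ⟨i, _, rfl⟩ := mem_image.1 hB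
          by_cases hi : (i : ℕ) < a
          · have e : ∀ j ∈ univ.filter (fun j => u i = u j), (j : ℕ) < a := by
              intro j hj
              rw [mem_filter] at hj
              by_contra hja
              exact hs i j hi (by omega) hj.2
            unfold dm
            rw [if_pos e]
            exact h2
          · have e : ∀ j ∈ univ.filter (fun j => u i = u j), a ≤ (j : ℕ) := by
              intro j hj
              rw [mem_filter] at hj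
              by_contra hja
              exact hs j i (by omega) (by omega) hj.2.symm
            have e' : ¬ ∀ j ∈ univ.filter (fun j => u i = u j), (j : ℕ) < a := by
              intro h'
              exact hi (h' i (mem_filter.2 ⟨mem_univ i, rfl⟩))
            unfold dm
            rw [if_neg e', if_pos e]
            exact h3
      _ = _ := by rw [hC]; congr!
  · unfold mZ mR
    exact prod_nonneg fun B _ => hnn B

theorem supw_n {δ x κ : ℝ} {a b k s : ℕ}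
    (h : 2 * κ ^ (a + b) * (x ^ a * (1 - x) ^ b) ≤ iw (cw (sepW a δ : (Fin (a + b) → ℤ) → ℝ) k) s (fun _ => 0)) :
    ∀ n : ℕ, a + b = n → 2 * κ ^ (a + b) * (x ^ a * (1 - x) ^ b) ≤ iw (cw (sepW a δ : (Fin n → ℤ) → ℝ) k) s (fun _ => 0) := by
  rintro n rfl
  exact h

/-- near a rational point -/
theorem sup_rat (hF : S_FIN) (hS : S_SUPW) {θ e δ₀ : ℝ} (hθ : 0 < θ) (hθ1 : θ < 1) (he : 0 < e) (hδ₀ : 0 < δ₀) {j l : ℕ} (hj : 0 < j)
    (hl : 0 < l) : ∃ c : ℝ, 0 < c ∧ ∀ᶠ N : ℕ in atTop, ∀ s : ℤ, (s = 1 ∨ s = -1) → ∀ R : Set ℤ, InvS s R → ∀ δ : ℝ,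
      Tendsto (fun N : ℕ => ct s R N / N) atTop (nhds δ) → δ₀ ≤ δ → δ ≤ 1 - δ₀ →
      c * N ≤ ({m : ℕ | (1 ≤ m ∧ m ≤ N) ∧ |sh R ⌊(N : ℝ) ^ θ⌋₊ (s * m) - j / (j + l)| ≤ e}.ncard : ℝ) := by
  classical
  obtain ⟨x, hx⟩ : ∃ x : ℝ, x = j / (j + l) := ⟨_, rfl⟩
  have hj0 : (0 : ℝ) < j := by exact_mod_cast hj
  have hl0 : (0 : ℝ) < l := by exact_mod_cast hl
  have hx0 : 0 < x := by rw [hx]; positivity
  have hx1 : x < 1 := by rw [hx, div_lt_one (by positivity)]; linarith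
  obtain ⟨μ, hμ0, hμ1, hμ⟩ := f_max hj hl hx he
  obtain ⟨κ, hκ⟩ : ∃ κ : ℝ, κ = μ ^ (1 / ((j + l : ℕ) : ℝ)) := ⟨_, rfl⟩
  have hjl : (0 : ℝ) < ((j + l : ℕ) : ℝ) := by exact_mod_cast (by omega : 0 < j + l)
  have hκ0 : 0 < κ := by rw [hκ]; exact Real.rpow_pos_of_pos hμ0 _
  have hκ1 : κ < 1 := by rw [hκ]; exact Real.rpow_lt_one hμ0.le hμ1 (by positivity)
  have hκp : κ ^ (j + l) = μ := by
    rw [hκ, ← Real.rpow_natCast, ← Real.rpow_mul hμ0.le, one_div, inv_mul_cancel₀ hjl.ne', Real.rpow_one]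
  obtain ⟨δ₁, hδ₁⟩ : ∃ δ₁ : ℝ, δ₁ = min δ₀ 1 := ⟨_, rfl⟩
  have hδ₁0 : 0 < δ₁ := by rw [hδ₁]; exact lt_min hδ₀ one_pos
  have hδ₁1 : δ₁ ≤ 1 := by rw [hδ₁]; exact min_le_right _ _
  have hδ₁2 : δ₁ ≤ δ₀ := by rw [hδ₁]; exact min_le_left _ _
  have hθ' : 0 < 1 - θ := by linarith
  obtain ⟨K₀, hK₀⟩ := hS δ₁ (2 * θ / (1 - θ)) (θ / (2 * (1 - θ))) x κ hδ₁0 hδ₁1 (by positivity) (by positivity) hx0 hx1 hκ0 hκ1
  obtain ⟨M, hM⟩ : ∃ M : ℕ, M = K₀ + 1 := ⟨_, rfl⟩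
  have hM1 : 1 ≤ M := by omega
  have hjM : M ≤ j * M := Nat.le_mul_of_pos_left M hj
  have hab : K₀ ≤ j * M + l * M := by omega
  obtain ⟨K, hK⟩ : ∃ K : ℕ, j * M + l * M = K + 1 := ⟨j * M + l * M - 1, by omega⟩
  obtain ⟨F, hFx⟩ : ∃ F : ℝ, F = x ^ j * (1 - x) ^ l := ⟨_, rfl⟩
  have hF0 : 0 < F := by rw [hFx]; exact mul_pos (pow_pos hx0 _) (pow_pos (by linarith) _)
  have hFM : x ^ (j * M) * (1 - x) ^ (l * M) = F ^ M := by rw [hFx, mul_pow, ← pow_mul, ← pow_mul]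
  have hκM : κ ^ (j * M + l * M) = μ ^ M := by rw [← add_mul, pow_mul, hκp]
  obtain ⟨q, hq⟩ : ∃ q : ℝ, q = μ ^ M * F ^ M / 2 := ⟨_, rfl⟩
  have hq0 : 0 < q := by rw [hq]; positivity
  obtain ⟨ht1, ht2⟩ := Pool.Agent.J4H39.KP.times hθ hθ1
  refine ⟨μ ^ M / 2, by positivity, ?_⟩
  have hNθ : Tendsto (fun N : ℕ => (N : ℝ) ^ θ) atTop atTop := (tendsto_rpow_atTop hθ).comp tendsto_natCast_atTop_atTop
  filter_upwards [hF K θ hθ hθ1 1 (Or.inl rfl) q hq0, hF K θ hθ hθ1 (-1) (Or.inr rfl) q hq0,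
    ht1.eventually (hK₀ (j * M) (l * M) hab), ht2, times2 hθ hθ1, eventually_ge_atTop 1, hNθ.eventually_ge_atTop 1]
    with N g1 g1' g3 g4 g5 hN hN2
  intro s hs R hR δ hδ hδ1 hδ2
  have g : ∀ (R : Fin (K + 1) → Set ℤ) (δ : Finset (Fin (K + 1)) → ℝ), (∀ i, InvS s (R i)) →
      (∀ B, B.Nonempty → Tendsto (fun N : ℕ => ct s {n | ∀ i ∈ B, n ∈ R i} N / N) atTop (nhds (δ B))) →
      |mom s R N ⌊(N : ℝ) ^ θ⌋₊ - iw (cw (mZ δ) (tN (1 / th0) N - tN (θ / th0) N)) (tN (θ / th0) N) (fun _ => 0)| ≤ q := by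
    rcases hs with rfl | rfl
    · exact g1
    · exact g1'
  obtain ⟨H, hH⟩ : ∃ H : ℕ, H = ⌊(N : ℝ) ^ θ⌋₊ := ⟨_, rfl⟩
  have hH1 : 1 ≤ H := by rw [hH]; exact Nat.le_floor (by rw [Nat.cast_one]; exact hN2)
  have b1 := g (fun i => if (i : ℕ) < j * M then R else Rᶜ) (dm (j * M) δ)
    (by intro i; split_ifs; exacts [hR, inv_compl hR]) (fun B hB => dm_dens hs hδ (j * M) B hB)
  rw [← hH] at b1
  have b3 := supw_n (g3 (tN (θ / th0) N) g5 g4.2) (K + 1) hK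
  have b4 : iw (cw (sepW (j * M) δ₁ : (Fin (K + 1) → ℤ) → ℝ) (tN (1 / th0) N - tN (θ / th0) N)) (tN (θ / th0) N) (fun _ => 0) ≤
      iw (cw (mZ (dm (j * M) δ : Finset (Fin (K + 1)) → ℝ)) (tN (1 / th0) N - tN (θ / th0) N)) (tN (θ / th0) N) (fun _ => 0) := by
    apply (isE_iw _ _).mono
    intro z
    apply (isE_cw _ _).mono
    intro u
    exact sep_le (j * M) hδ₁0.le hδ₁1 (by linarith) (by linarith) u
  have b5 : mom (K := K + 1) s (fun i => if (i : ℕ) < j * M then R else Rᶜ) N H =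
      (∑ n ∈ Finset.Icc 1 N, sh R H (s * (n : ℕ)) ^ (j * M) * (1 - sh R H (s * (n : ℕ))) ^ (l * M)) / N := by
    unfold mom
    congr 1
    apply sum_congr rfl
    intro n _
    rw [← prod_split (j * M) (l * M) (sh R H (s * (n : ℕ))) (1 - sh R H (s * (n : ℕ))) (K + 1) hK]
    apply prod_congr rfl
    intro i _
    show sh (if (i : ℕ) < j * M then R else Rᶜ) H (s * (n : ℕ)) = _
    split_ifs with hi
    · rfl
    · rw [sh_compl R hH1]
  rw [hκM, hFM] at b3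
  have b6 : 3 / 2 * (μ ^ M * (x ^ j * (1 - x) ^ l) ^ M) ≤
      (∑ n ∈ Finset.Icc 1 N, sh R H (s * (n : ℕ)) ^ (j * M) * (1 - sh R H (s * (n : ℕ))) ^ (l * M)) / N := by
    rw [← b5, ← hFx]
    have c1 := (abs_le.1 b1).1
    have c3 : q = μ ^ M * F ^ M / 2 := hq
    linarith
  have b7 := count_near hN hj hl hx he hμ0 hμ (S := fun n => sh R H (s * (n : ℕ))) (fun n => (sh_mem R H _).1) (fun n => (sh_mem R H _).2) b6
  refine b7.trans ?_
  rw [← hH, ← hx]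
  have hfin : {m : ℕ | (1 ≤ m ∧ m ≤ N) ∧ |sh R H (s * m) - x| ≤ e}.Finite := by
    apply (Finset.finite_toSet (Finset.Icc 1 N)).subset
    intro n hn
    rw [Finset.mem_coe, Finset.mem_Icc]
    exact hn.1
  have hsub : (((Finset.Icc 1 N).filter (fun n : ℕ => |sh R H (s * (n : ℕ)) - x| ≤ e) : Finset ℕ) : Set ℕ) ⊆
      {m : ℕ | (1 ≤ m ∧ m ≤ N) ∧ |sh R H (s * m) - x| ≤ e} := by
    intro n hn
    rw [Finset.mem_coe, Finset.mem_filter, Finset.mem_Icc] at hn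
    exact hn
  have h5 := Set.ncard_le_ncard hsub hfin
  rw [Set.ncard_coe_finset] at h5
  exact_mod_cast h5

/-- **The law of the share has full support.** -/
theorem t_SUP (hF : S_FIN) (hS : S_SUPW) {θ ε δ₀ : ℝ} (hθ : 0 < θ) (hθ1 : θ < 1) (hε : 0 < ε) (hδ₀ : 0 < δ₀) :
    ∃ c : ℝ, 0 < c ∧ ∀ᶠ N : ℕ in atTop, ∀ s : ℤ, (s = 1 ∨ s = -1) → ∀ R : Set ℤ, InvS s R → ∀ δ : ℝ,
      Tendsto (fun N : ℕ => ct s R N / N) atTop (nhds δ) → δ₀ ≤ δ → δ ≤ 1 - δ₀ → ∀ x : ℝ, 0 ≤ x → x ≤ 1 →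
      c * N ≤ ({m : ℕ | (1 ≤ m ∧ m ≤ N) ∧ |sh R ⌊(N : ℝ) ^ θ⌋₊ (s * m) - x| ≤ ε}.ncard : ℝ) := by
  classical
  obtain ⟨J, hJ⟩ := exists_nat_gt (2 / ε)
  have hJ' : 2 / ε < (J + 2 : ℕ) := hJ.trans (by push_cast; linarith)
  have hc : ∀ j : ℕ, ∃ c : ℝ, 0 < c ∧ (j < J + 1 → ∀ᶠ N : ℕ in atTop, ∀ s : ℤ, (s = 1 ∨ s = -1) → ∀ R : Set ℤ, InvS s R → ∀ δ : ℝ,
      Tendsto (fun N : ℕ => ct s R N / N) atTop (nhds δ) → δ₀ ≤ δ → δ ≤ 1 - δ₀ →
      c * N ≤ ({m : ℕ | (1 ≤ m ∧ m ≤ N) ∧ |sh R ⌊(N : ℝ) ^ θ⌋₊ (s * m) - ((j + 1 : ℕ) : ℝ) / (((j + 1 : ℕ) : ℝ) + ((J + 1 - j : ℕ) : ℝ))| ≤ ε / 2}.ncard : ℝ)) := by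
    intro j
    by_cases hj : j < J + 1
    · obtain ⟨c, h1, h2⟩ := sup_rat hF hS hθ hθ1 (half_pos hε) hδ₀ (j := j + 1) (l := J + 1 - j) (by omega) (by omega)
      exact ⟨c, h1, fun _ => h2⟩
    · exact ⟨1, one_pos, fun h => absurd h hj⟩
  choose c hc0 hc1 using hc
  obtain ⟨j₀, hj₀, hmin⟩ := exists_min_image (range (J + 1)) c ⟨0, by simp⟩
  refine ⟨c j₀, hc0 j₀, ?_⟩
  have hall : ∀ᶠ N : ℕ in atTop, ∀ j ∈ range (J + 1), ∀ s : ℤ, (s = 1 ∨ s = -1) → ∀ R : Set ℤ, InvS s R → ∀ δ : ℝ,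
      Tendsto (fun N : ℕ => ct s R N / N) atTop (nhds δ) → δ₀ ≤ δ → δ ≤ 1 - δ₀ →
      c j * N ≤ ({m : ℕ | (1 ≤ m ∧ m ≤ N) ∧ |sh R ⌊(N : ℝ) ^ θ⌋₊ (s * m) - ((j + 1 : ℕ) : ℝ) / (((j + 1 : ℕ) : ℝ) + ((J + 1 - j : ℕ) : ℝ))| ≤ ε / 2}.ncard : ℝ) := by
    rw [Filter.eventually_all_finset]
    intro j hj
    exact hc1 j (mem_range.1 hj)
  filter_upwards [hall] with N hN s hs R hR δ hδ h1 h2 x hx0 hx1
  obtain ⟨j, hj⟩ : ∃ j : ℕ, j = min ⌊x * (J + 2 : ℕ)⌋₊ J := ⟨_, rfl⟩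
  have hjJ : j < J + 1 := by rw [hj]; exact Nat.lt_succ_of_le (min_le_right _ _)
  have hnear : |((j + 1 : ℕ) : ℝ) / (((j + 1 : ℕ) : ℝ) + ((J + 1 - j : ℕ) : ℝ)) - x| ≤ ε / 2 := by
    have e1 : (((j + 1 : ℕ) : ℝ) + ((J + 1 - j : ℕ) : ℝ)) = ((J + 2 : ℕ) : ℝ) := by
      rw [← Nat.cast_add]
      congr 1
      omega
    rw [e1]
    have hJ0 : (0 : ℝ) < (J + 2 : ℕ) := by positivity
    have e2 : |((j + 1 : ℕ) : ℝ) / ((J + 2 : ℕ) : ℝ) - x| ≤ 1 / (J + 2 : ℕ) := by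
      have e3 : ((j + 1 : ℕ) : ℝ) / ((J + 2 : ℕ) : ℝ) - x = (((j + 1 : ℕ) : ℝ) - x * (J + 2 : ℕ)) / (J + 2 : ℕ) := by
        field_simp
      rw [e3, abs_div, abs_of_pos hJ0]
      apply div_le_div_of_nonneg_right _ hJ0.le
      have f1 : (⌊x * (J + 2 : ℕ)⌋₊ : ℝ) ≤ x * (J + 2 : ℕ) := Nat.floor_le (by positivity)
      have f2 := Nat.lt_floor_add_one (x * (J + 2 : ℕ))
      rw [abs_le]
      rcases le_total ⌊x * (J + 2 : ℕ)⌋₊ J with hle | hle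
      · have : j = ⌊x * (J + 2 : ℕ)⌋₊ := by rw [hj, min_eq_left hle]
        rw [this]
        push_cast at f1 f2 ⊢
        constructor <;> linarith
      · have : j = J := by rw [hj, min_eq_right hle]
        rw [this]
        have f3 : (J : ℝ) ≤ x * (J + 2 : ℕ) := le_trans (by exact_mod_cast hle) f1
        have f4 : x * (J + 2 : ℕ) ≤ (J + 2 : ℕ) := by
          have := mul_le_mul_of_nonneg_right hx1 hJ0.le
          linarith
        push_cast at f3 f4 ⊢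
        constructor <;> linarith
    refine e2.trans ?_
    rw [div_le_div_iff₀ hJ0 (by norm_num)]
    rw [div_lt_iff₀ hε] at hJ'
    linarith
  have b1 := hN j (mem_range.2 hjJ) s hs R hR δ hδ h1 h2
  have b2 := hmin j (mem_range.2 hjJ)
  have b3 : c j₀ * N ≤ c j * N := mul_le_mul_of_nonneg_right b2 (by positivity)
  refine b3.trans (b1.trans ?_)
  have hfin : {m : ℕ | (1 ≤ m ∧ m ≤ N) ∧ |sh R ⌊(N : ℝ) ^ θ⌋₊ (s * m) - x| ≤ ε}.Finite := by
    apply (Finset.finite_toSet (Finset.Icc 1 N)).subset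
    intro n hn
    rw [Finset.mem_coe, Finset.mem_Icc]
    exact hn.1
  have hsub : {m : ℕ | (1 ≤ m ∧ m ≤ N) ∧ |sh R ⌊(N : ℝ) ^ θ⌋₊ (s * m) - ((j + 1 : ℕ) : ℝ) / (((j + 1 : ℕ) : ℝ) + ((J + 1 - j : ℕ) : ℝ))| ≤ ε / 2} ⊆
      {m : ℕ | (1 ≤ m ∧ m ≤ N) ∧ |sh R ⌊(N : ℝ) ^ θ⌋₊ (s * m) - x| ≤ ε} := by
    intro m hm
    refine ⟨hm.1, ?_⟩
    have h3 := abs_sub_le (sh R ⌊(N : ℝ) ^ θ⌋₊ (s * m)) (((j + 1 : ℕ) : ℝ) / (((j + 1 : ℕ) : ℝ) + ((J + 1 - j : ℕ) : ℝ))) x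
    have h4 : |sh R ⌊(N : ℝ) ^ θ⌋₊ (s * m) - ((j + 1 : ℕ) : ℝ) / (((j + 1 : ℕ) : ℝ) + ((J + 1 - j : ℕ) : ℝ))| ≤ ε / 2 := hm.2
    linarith
  exact_mod_cast Set.ncard_le_ncard hsub hfin

/-- the number of the positions is the number of the clusters -/
theorem nc_le_card {K : ℕ} (u : Fin K → ℤ) (C : Finset (Finset (Fin K)))
    (hC : ∀ i, ∃ B ∈ C, ∀ j, j ∈ B ↔ u i = u j) : nc u ≤ #C := by
  classical
  unfold nc
  have hch : ∀ v : ℤ, ∃ B : Finset (Fin K), v ∈ univ.image u → B ∈ C ∧ ∀ j, j ∈ B ↔ v = u j := by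
    intro v
    by_cases hv : v ∈ univ.image u
    · obtain ⟨i, _, rfl⟩ := mem_image.1 hv
      obtain ⟨B, hB, hB'⟩ := hC i
      exact ⟨B, fun _ => ⟨hB, hB'⟩⟩
    · exact ⟨∅, fun h => absurd h hv⟩
  choose f hf using hch
  apply card_le_card_of_injOn f
  · intro v hv
    exact (hf v hv).1
  · intro v hv v' hv' h
    obtain ⟨i, _, hi⟩ := mem_image.1 hv
    have h1 : i ∈ f v := ((hf v hv).2 i).2 hi.symm
    rw [h] at h1
    have h2 := ((hf v' hv').2 i).1 h1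
    rw [h2, ← hi]

/-- **Few windows are nearly full.** -/
theorem t_NOA (hF : S_FIN) (hI : S_INF) {θ η δ₀ : ℝ} (hθ : 0 < θ) (hθ1 : θ < 1) (hη : 0 < η) (hδ₀ : 0 < δ₀) :
    ∃ ε : ℝ, 0 < ε ∧ ∀ᶠ N : ℕ in atTop, ∀ s : ℤ, (s = 1 ∨ s = -1) → ∀ R : Set ℤ, InvS s R → ∀ δ : ℝ,
      Tendsto (fun N : ℕ => ct s R N / N) atTop (nhds δ) → δ ≤ 1 - δ₀ →
      ({m : ℕ | (1 ≤ m ∧ m ≤ N) ∧ 1 - ε ≤ sh R ⌊(N : ℝ) ^ θ⌋₊ (s * m)}.ncard : ℝ) ≤ η * N := by
  classical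
  obtain ⟨δ₁, hδ₁⟩ : ∃ δ₁ : ℝ, δ₁ = max (1 - δ₀) 0 := ⟨_, rfl⟩
  have hδ₁0 : 0 ≤ δ₁ := by rw [hδ₁]; exact le_max_right _ _
  have hδ₁1 : δ₁ < 1 := by rw [hδ₁]; exact max_lt (by linarith) one_pos
  have hδ₁2 : 1 - δ₀ ≤ δ₁ := by rw [hδ₁]; exact le_max_left _ _
  have hθ' : 0 < 1 - θ := by linarith
  obtain ⟨K, hK⟩ := hI (η / 4) δ₁ (2 * θ / (1 - θ)) (θ / (2 * (1 - θ))) (by positivity) hδ₁0 hδ₁1 (by positivity) (by positivity)
  obtain ⟨ht1, ht2⟩ := Pool.Agent.J4H39.KP.times hθ hθ1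
  have hK0 : (0 : ℝ) < K + 1 := by positivity
  refine ⟨1 / (2 * (K + 1)), by positivity, ?_⟩
  filter_upwards [hF K θ hθ hθ1 1 (Or.inl rfl) (η / 4) (by positivity), hF K θ hθ hθ1 (-1) (Or.inr rfl) (η / 4) (by positivity),
    ht1.eventually hK, ht2, times2 hθ hθ1, eventually_ge_atTop 1] with N g1 g1' g3 g4 g5 hN
  intro s hs R hR δ hδ hδ2
  have g : ∀ (R : Fin (K + 1) → Set ℤ) (δ : Finset (Fin (K + 1)) → ℝ), (∀ i, InvS s (R i)) →
      (∀ B, B.Nonempty → Tendsto (fun N : ℕ => ct s {n | ∀ i ∈ B, n ∈ R i} N / N) atTop (nhds (δ B))) →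
      |mom s R N ⌊(N : ℝ) ^ θ⌋₊ - iw (cw (mZ δ) (tN (1 / th0) N - tN (θ / th0) N)) (tN (θ / th0) N) (fun _ => 0)| ≤ η / 4 := by
    rcases hs with rfl | rfl
    · exact g1
    · exact g1'
  have hδ0 : 0 ≤ δ := by
    apply ge_of_tendsto hδ
    filter_upwards with M
    unfold ct
    positivity
  have b1 := g (fun _ => R) (fun _ => δ) (fun _ => hR) (fun B hB => dens_const hδ B hB)
  obtain ⟨H, hH⟩ : ∃ H : ℕ, H = ⌊(N : ℝ) ^ θ⌋₊ := ⟨_, rfl⟩
  rw [← hH] at b1 ⊢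
  have b3 := g3 (tN (θ / th0) N) g5 g4.2
  have b4 : iw (cw (mZ (fun _ : Finset (Fin (K + 1)) => δ)) (tN (1 / th0) N - tN (θ / th0) N)) (tN (θ / th0) N) (fun _ => 0) ≤
      iw (cw (fun u : Fin (K + 1) → ℤ => δ₁ ^ nc u) (tN (1 / th0) N - tN (θ / th0) N)) (tN (θ / th0) N) (fun _ => 0) := by
    apply (isE_iw _ _).mono
    intro z
    apply (isE_cw _ _).mono
    intro u
    unfold mZ mR
    rw [prod_const]
    refine (pow_le_pow_left₀ hδ0 (hδ2.trans hδ₁2) _).trans ?_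
    apply pow_le_pow_of_le_one hδ₁0 hδ₁1.le
    apply nc_le_card
    intro i
    exact ⟨_, mem_image_of_mem _ (mem_univ i), fun j => by simp⟩
  have hN0 : (0 : ℝ) < N := by exact_mod_cast hN
  have b5 : mom (K := K + 1) s (fun _ => R) N H ≤ η / 2 := by
    have c1 := (abs_le.1 b1).2
    linarith
  rw [← ms_pow] at b5
  unfold ms at b5
  rw [div_le_iff₀ hN0] at b5
  obtain ⟨ε, hε⟩ : ∃ ε : ℝ, ε = 1 / (2 * (K + 1)) := ⟨_, rfl⟩
  rw [← hε]
  have hε0 : 0 < ε := by rw [hε]; positivity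
  have hε1 : ε ≤ 1 / 2 := by
    rw [hε]
    apply one_div_le_one_div_of_le (by norm_num)
    have : (0 : ℝ) ≤ K := by positivity
    linarith
  have hp : (1 : ℝ) / 2 ≤ (1 - ε) ^ (K + 1) := by
    have h1 := one_add_mul_le_pow (show (-2 : ℝ) ≤ -ε by linarith) (K + 1)
    have h2 : ((K + 1 : ℕ) : ℝ) * -ε = -(1 / 2) := by
      rw [hε]; push_cast; field_simp
    rw [h2] at h1
    have e : 1 + -ε = 1 - ε := by ring
    rw [e] at h1
    linarith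
  have b6 : ∑ n ∈ Finset.Icc 1 N, (if 1 - ε ≤ sh R H (s * (n : ℕ)) then (1 : ℝ) / 2 else 0) ≤
      ∑ n ∈ Finset.Icc 1 N, sh R H (s * (n : ℕ)) ^ (K + 1) := by
    apply sum_le_sum
    intro n _
    split_ifs with hh
    · exact hp.trans (pow_le_pow_left₀ (by linarith) hh _)
    · exact pow_nonneg (sh_mem R H _).1 _
  rw [← sum_filter, sum_const, nsmul_eq_mul] at b6
  have hset : {m : ℕ | (1 ≤ m ∧ m ≤ N) ∧ 1 - ε ≤ sh R H (s * m)} =
      (((Finset.Icc 1 N).filter (fun n : ℕ => 1 - ε ≤ sh R H (s * (n : ℕ))) : Finset ℕ) : Set ℕ) := by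
    ext m
    rw [Finset.mem_coe, Finset.mem_filter, Finset.mem_Icc]
    rfl
  rw [hset, Set.ncard_coe_finset]
  linarith

end Pool.Agent.J4H26.KP
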