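import Mathlib
import Pool.Agent.J4H26.KP.Supr
import Pool.Agent.J4H26.KP.Sup2

set_option autoImplicit false

/-! Project KP: the support of the joint law of the shares of several disjoint invariant sets.  Assembly. -/

namespace Pool.Agent.J4H26.KP

open Finset Filter Real
open Pool.Agent.J4H39 (th0 tN)
open Pool.Agent.J4H39.KP (nc)
open Pool.Agent.J4H26.PC (InvS ct)
open Pool.Agent.J4H26.KT (iw cw sw isE_cw isE_iw)

/-- the maximum of `∏ y l ^ j l` on the simplex -/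
theorem g_lt {r : ℕ} {j : Fin r → ℕ} (hj : ∀ l, 0 < j l) {x y : Fin r → ℝ} (hx : ∀ l, x l = j l / (∑ l, j l : ℕ)) (hy0 : ∀ l, 0 ≤ y l)
    (hy1 : ∑ l, y l ≤ 1) (hne : y ≠ x) : ∏ l, y l ^ j l < ∏ l, x l ^ j l := by
  obtain ⟨l₀, hl₀⟩ := Function.ne_iff.1 hne
  obtain ⟨J, hJ⟩ : ∃ J : ℕ, J = ∑ l, j l := ⟨_, rfl⟩
  rw [← hJ] at hx
  have hJ0 : 0 < J := by
    rw [hJ]
    exact lt_of_lt_of_le (hj l₀) (single_le_sum (fun l _ => Nat.zero_le (j l)) (mem_univ l₀))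
  have hJR : (0 : ℝ) < J := by exact_mod_cast hJ0
  have hx0 : ∀ l, 0 < x l := by
    intro l
    rw [hx]
    have : (0 : ℝ) < j l := by exact_mod_cast hj l
    positivity
  have hX : 0 < ∏ l, x l ^ j l := prod_pos fun l _ => pow_pos (hx0 l) _
  by_cases hy : ∃ l, y l = 0
  · obtain ⟨l, hl⟩ := hy
    rw [prod_eq_zero (mem_univ l) (by rw [hl, zero_pow (hj l).ne'])]
    exact hX
  · push Not at hy
    have hy' : ∀ l, 0 < y l := fun l => lt_of_le_of_ne (hy0 l) (hy l).symm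
    have ex : ∀ v : Fin r → ℝ, (∀ l, 0 < v l) → ∏ l, v l ^ j l = Real.exp (∑ l, j l * Real.log (v l)) := by
      intro v hv
      rw [Real.exp_sum]
      apply prod_congr rfl
      intro l _
      rw [mul_comm, Real.exp_mul, Real.exp_log (hv l), Real.rpow_natCast]
    rw [ex y hy', ex x hx0, Real.exp_lt_exp]
    have jx : ∀ l, (j l : ℝ) = J * x l := by intro l; rw [hx]; field_simp
    have h1 : ∀ l, (j l : ℝ) * Real.log (y l) ≤ j l * Real.log (x l) + (J * y l - j l) := by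
      intro l
      have h2 := Real.log_le_sub_one_of_pos (show 0 < y l / x l by have := hy' l; have := hx0 l; positivity)
      rw [Real.log_div (hy' l).ne' (hx0 l).ne'] at h2
      have h3 := mul_le_mul_of_nonneg_left h2 (show (0 : ℝ) ≤ j l by positivity)
      have e : (j l : ℝ) * (y l / x l - 1) = J * y l - j l := by
        rw [jx l]
        have := (hx0 l).ne'
        field_simp
      rw [e] at h3
      linarith
    have h1' : (j l₀ : ℝ) * Real.log (y l₀) < j l₀ * Real.log (x l₀) + (J * y l₀ - j l₀) := by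
      have h2 := Real.log_lt_sub_one_of_pos (show 0 < y l₀ / x l₀ by have := hy' l₀; have := hx0 l₀; positivity)
        (by rw [Ne, div_eq_one_iff_eq (hx0 l₀).ne']; exact hl₀)
      rw [Real.log_div (hy' l₀).ne' (hx0 l₀).ne'] at h2
      have hj0 : (0 : ℝ) < j l₀ := by exact_mod_cast hj l₀
      have h3 := mul_lt_mul_of_pos_left h2 hj0
      have e : (j l₀ : ℝ) * (y l₀ / x l₀ - 1) = J * y l₀ - j l₀ := by
        rw [jx l₀]
        have := (hx0 l₀).ne'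
        field_simp
      rw [e] at h3
      linarith
    have h4 := sum_lt_sum (fun l (_ : l ∈ univ) => h1 l) ⟨l₀, mem_univ l₀, h1'⟩
    rw [sum_add_distrib, sum_sub_distrib, ← mul_sum] at h4
    have h5 : ∑ l, (j l : ℝ) = J := by rw [hJ]; push_cast; rfl
    rw [h5] at h4
    have h6 : (J : ℝ) * ∑ l, y l ≤ J := by
      have := mul_le_mul_of_nonneg_left hy1 hJR.le
      linarith
    linarith

theorem g_max {r : ℕ} {j : Fin r → ℕ} (hj : ∀ l, 0 < j l) {x : Fin r → ℝ} (hx : ∀ l, x l = j l / (∑ l, j l : ℕ))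
    (hx0 : ∀ l, 0 < x l) {e : ℝ} (he : 0 < e) :
    ∃ μ : ℝ, 0 < μ ∧ μ < 1 ∧ ∀ y : Fin r → ℝ, (∀ l, 0 ≤ y l) → ∑ l, y l ≤ 1 → e ≤ ‖y - x‖ →
      ∏ l, y l ^ j l ≤ μ * ∏ l, x l ^ j l := by
  have hX : 0 < ∏ l, x l ^ j l := prod_pos fun l _ => pow_pos (hx0 l) _
  obtain ⟨A, hA⟩ : ∃ A : Set (Fin r → ℝ), A = Set.Icc (0 : Fin r → ℝ) 1 ∩ ({y | ∑ l, y l ≤ 1} ∩ {y | e ≤ ‖y - x‖}) := ⟨_, rfl⟩
  have hmem : ∀ y : Fin r → ℝ, (∀ l, 0 ≤ y l) → ∑ l, y l ≤ 1 → e ≤ ‖y - x‖ → y ∈ A := by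
    intro y h0 h1 h2
    rw [hA]
    refine ⟨⟨fun l => h0 l, fun l => ?_⟩, h1, h2⟩
    exact (single_le_sum (fun l _ => h0 l) (mem_univ l)).trans h1
  have hK : IsCompact A := by
    rw [hA]
    apply isCompact_Icc.inter_right
    apply IsClosed.inter
    · exact isClosed_le (by fun_prop) continuous_const
    · exact isClosed_le continuous_const (by fun_prop)
  rcases A.eq_empty_or_nonempty with h | h
  · refine ⟨1 / 2, by norm_num, by norm_num, fun y h0 h1 h2 => ?_⟩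
    exact absurd (hmem y h0 h1 h2) (by rw [h]; exact Set.notMem_empty _)
  · obtain ⟨y₀, hy₀, hmax⟩ := hK.exists_isMaxOn h (f := fun y : Fin r → ℝ => ∏ l, y l ^ j l) (by fun_prop)
    have hy₀' : y₀ ∈ Set.Icc (0 : Fin r → ℝ) 1 ∩ ({y | ∑ l, y l ≤ 1} ∩ {y | e ≤ ‖y - x‖}) := by rw [← hA]; exact hy₀
    have hne : y₀ ≠ x := by
      intro h'
      have h2 : e ≤ ‖y₀ - x‖ := hy₀'.2.2
      rw [h', sub_self, norm_zero] at h2
      linarith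
    have h3 := g_lt hj hx (fun l => hy₀'.1.1 l) hy₀'.2.1 hne
    refine ⟨max (1 / 2) ((∏ l, y₀ l ^ j l) / ∏ l, x l ^ j l), lt_of_lt_of_le (by norm_num) (le_max_left _ _), ?_, ?_⟩
    · apply max_lt (by norm_num)
      rw [div_lt_one hX]
      exact h3
    · intro y h0 h1 h2
      have h4 : ∏ l, y l ^ j l ≤ ∏ l, y₀ l ^ j l := hmax (hmem y h0 h1 h2)
      refine h4.trans ?_
      have h5 := mul_le_mul_of_nonneg_right (le_max_right (1 / 2) ((∏ l, y₀ l ^ j l) / ∏ l, x l ^ j l)) hX.le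
      rwa [div_mul_cancel₀ _ hX.ne'] at h5

open Classical in
/-- the number of the values near `x` -/
theorem count_nearG {N r M : ℕ} {j : Fin r → ℕ} (hN : 1 ≤ N) (hj : ∀ l, 0 < j l) {x : Fin r → ℝ} {e μ : ℝ}
    (hx : ∀ l, x l = j l / (∑ l, j l : ℕ)) (hx0 : ∀ l, 0 < x l) (hμ : 0 < μ)
    (hf : ∀ y : Fin r → ℝ, (∀ l, 0 ≤ y l) → ∑ l, y l ≤ 1 → e ≤ ‖y - x‖ → ∏ l, y l ^ j l ≤ μ * ∏ l, x l ^ j l)
    {S : ℕ → Fin r → ℝ} (h0 : ∀ n l, 0 ≤ S n l) (h1 : ∀ n, ∑ l, S n l ≤ 1)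
    (h : 3 / 2 * (μ ^ M * (∏ l, x l ^ j l) ^ M) ≤ (∑ n ∈ Finset.Icc 1 N, ∏ l, S n l ^ (j l * M)) / N) :
    μ ^ M / 2 * N ≤ #((Finset.Icc 1 N).filter (fun n => ‖S n - x‖ ≤ e)) := by
  have hN0 : (0 : ℝ) < N := by exact_mod_cast hN
  obtain ⟨F, hF⟩ : ∃ F, F = ∏ l, x l ^ j l := ⟨_, rfl⟩
  have hF0 : 0 < F := by rw [hF]; exact prod_pos fun l _ => pow_pos (hx0 l) _
  rw [← hF] at h hf
  rw [le_div_iff₀ hN0] at h
  have h2 : ∑ n ∈ Finset.Icc 1 N, ∏ l, S n l ^ (j l * M) ≤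
      ∑ n ∈ Finset.Icc 1 N, ((if ‖S n - x‖ ≤ e then F ^ M else 0) + μ ^ M * F ^ M) := by
    apply sum_le_sum
    intro n _
    have h3 : 0 ≤ μ ^ M * F ^ M := by positivity
    have h4 : ∏ l, S n l ^ (j l * M) = (∏ l, S n l ^ j l) ^ M := by
      rw [← prod_pow]
      exact prod_congr rfl fun l _ => by rw [pow_mul]
    have h5 : 0 ≤ ∏ l, S n l ^ j l := prod_nonneg fun l _ => pow_nonneg (h0 n l) _
    rw [h4]
    by_cases hh : ‖S n - x‖ ≤ e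
    · rw [if_pos hh]
      have h6 : ∏ l, S n l ^ j l ≤ F := by
        by_cases hne : S n = x
        · rw [hne, hF]
        · rw [hF]; exact (g_lt hj hx (h0 n) (h1 n) hne).le
      have := pow_le_pow_left₀ h5 h6 M
      linarith
    · rw [if_neg hh, zero_add, ← mul_pow]
      exact pow_le_pow_left₀ h5 (hf _ (h0 n) (h1 n) (not_le.1 hh).le) M
  rw [sum_add_distrib, sum_const, Nat.card_Icc, Nat.add_sub_cancel, nsmul_eq_mul, ← sum_filter, sum_const, nsmul_eq_mul] at h2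
  have h3 : 3 / 2 * (μ ^ M * F ^ M) * N ≤ (#((Finset.Icc 1 N).filter (fun n => ‖S n - x‖ ≤ e)) : ℝ) * F ^ M + N * (μ ^ M * F ^ M) := h.trans h2
  have h4 : (μ ^ M / 2 * N) * F ^ M ≤ (#((Finset.Icc 1 N).filter (fun n => ‖S n - x‖ ≤ e)) : ℝ) * F ^ M := by linarith
  exact le_of_mul_le_mul_right h4 (pow_pos hF0 _)

/-- groups of given sizes -/
theorem gam_ex {r : ℕ} (a : Fin r → ℕ) : ∀ n : ℕ, ∑ l, a l = n → ∃ γ : Fin n → Fin r, ∀ f : Fin r → ℝ, ∏ i, f (γ i) = ∏ l, f l ^ a l := by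
  rintro n rfl
  refine ⟨fun i => (finSigmaFinEquiv.symm i).1, fun f => ?_⟩
  have h1 : ∏ i : Fin (∑ l, a l), f (finSigmaFinEquiv.symm i).1 = ∏ p : (l : Fin r) × Fin (a l), f p.1 :=
    Fintype.prod_equiv finSigmaFinEquiv.symm _ _ fun i => rfl
  rw [h1, Fintype.prod_sigma]
  refine prod_congr rfl fun l _ => ?_
  show ∏ _y : Fin (a l), f l = _
  rw [prod_const, card_univ, Fintype.card_fin]

/-- disjoint sets: the sum of the shares is at most `1` -/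
theorem sh_sum_le {r : ℕ} {R : Fin r → Set ℤ} (hR : ∀ l l', l ≠ l' → Disjoint (R l) (R l')) {H : ℕ} (hH : 1 ≤ H) (n : ℤ) :
    ∑ l, sh (R l) H n ≤ 1 := by
  classical
  have hH0 : (0 : ℝ) < H := by exact_mod_cast hH
  have e : ∀ l, sh (R l) H n = (#((Finset.Icc 1 H).filter fun h : ℕ => n + h ∈ R l) : ℝ) / H := by
    intro l
    unfold sh
    have : {h : ℕ | (1 ≤ h ∧ h ≤ H) ∧ n + h ∈ R l} = (((Finset.Icc 1 H).filter fun h : ℕ => n + h ∈ R l : Finset ℕ) : Set ℕ) := by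
      ext h
      rw [Finset.mem_coe, Finset.mem_filter, Finset.mem_Icc]
      rfl
    rw [this, Set.ncard_coe_finset]
  rw [sum_congr rfl fun l _ => e l, ← sum_div, div_le_one hH0]
  have h1 : ∑ l, #((Finset.Icc 1 H).filter fun h : ℕ => n + h ∈ R l) =
      #(univ.biUnion fun l => (Finset.Icc 1 H).filter fun h : ℕ => n + h ∈ R l) := by
    rw [card_biUnion]
    intro l _ l' _ hll
    rw [Function.onFun, Finset.disjoint_left]
    intro h h2 h3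
    rw [mem_filter] at h2 h3
    exact Set.disjoint_left.1 (hR l l' hll) h2.2 h3.2
  have h2 : #(univ.biUnion fun l => (Finset.Icc 1 H).filter fun h : ℕ => n + h ∈ R l) ≤ #(Finset.Icc 1 H) := by
    apply card_le_card
    intro h hh
    obtain ⟨l, _, hl⟩ := mem_biUnion.1 hh
    exact (mem_filter.1 hl).1
  rw [Nat.card_Icc, Nat.add_sub_cancel] at h2
  have h3 : ((∑ l, #((Finset.Icc 1 H).filter fun h : ℕ => n + h ∈ R l) : ℕ) : ℝ) ≤ H := by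
    rw [h1]; exact_mod_cast h2
  rwa [Nat.cast_sum] at h3

theorem ct_nonneg (s : ℤ) (R : Set ℤ) (N : ℕ) : 0 ≤ ct s R N / N := by
  unfold ct; positivity

open Classical in
/-- the groups apart, a lower bound for the product over the clusters -/
theorem sepG_le {K r : ℕ} {γ : Fin K → Fin r} {δ₁ : ℝ} (h0 : 0 ≤ δ₁) (h1 : δ₁ ≤ 1) {v : Finset (Fin K) → ℝ} (hv : ∀ B, 0 ≤ v B)
    (hv' : ∀ B : Finset (Fin K), B.Nonempty → (∀ i ∈ B, ∀ j ∈ B, γ i = γ j) → δ₁ ≤ v B) (u : Fin K → ℤ) :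
    sepG γ δ₁ u ≤ mZ v u := by
  unfold sepG
  split_ifs with hs
  · unfold mZ mR
    obtain ⟨C, hC⟩ : ∃ C : Finset (Finset (Fin K)), C = univ.image (fun i => univ.filter (fun j => u i = u j)) := ⟨_, rfl⟩
    have hcard : #C ≤ nc u := by
      have h1 : C = (univ.image u).image (fun v => univ.filter (fun j => v = u j)) := by
        rw [hC, image_image]; rfl
      rw [h1]
      exact card_image_le
    calc δ₁ ^ nc u ≤ δ₁ ^ #C := pow_le_pow_of_le_one h0 h1 hcard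
      _ = ∏ _B ∈ C, δ₁ := by rw [prod_const]
      _ ≤ ∏ B ∈ C, v B := by
          apply prod_le_prod (fun _ _ => h0)
          intro B hB
          rw [hC] at hB
          obtain ⟨i, _, rfl⟩ := mem_image.1 hB
          refine hv' (univ.filter (fun j => u i = u j)) ⟨i, mem_filter.2 ⟨mem_univ i, rfl⟩⟩ ?_
          intro a ha b hb
          by_contra hab
          exact hs a b hab (by rw [← (mem_filter.1 ha).2, ← (mem_filter.1 hb).2])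
      _ = _ := by rw [hC]; congr!
  · unfold mZ mR
    exact prod_nonneg fun B _ => hv B

/-- near a rational point -/
theorem sup_ratG (hF : S_FIN) (hS : S_SUPR) {θ e δ₀ : ℝ} (hθ : 0 < θ) (hθ1 : θ < 1) (he : 0 < e) (hδ₀ : 0 < δ₀) {r : ℕ}
    (hr : 0 < r) {j : Fin r → ℕ} (hj : ∀ l, 0 < j l) :
    ∃ c : ℝ, 0 < c ∧ ∀ᶠ N : ℕ in atTop, ∀ s : ℤ, (s = 1 ∨ s = -1) → ∀ R : Fin r → Set ℤ, (∀ l, InvS s (R l)) →
      (∀ l l', l ≠ l' → Disjoint (R l) (R l')) → ∀ δ : Fin r → ℝ,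
      (∀ l, Tendsto (fun N : ℕ => ct s (R l) N / N) atTop (nhds (δ l))) → (∀ l, δ₀ ≤ δ l) →
      c * N ≤ ({m : ℕ | (1 ≤ m ∧ m ≤ N) ∧ ∀ l, |sh (R l) ⌊(N : ℝ) ^ θ⌋₊ (s * m) - j l / (∑ l, j l : ℕ)| ≤ e}.ncard : ℝ) := by
  classical
  obtain ⟨J, hJ⟩ : ∃ J : ℕ, J = ∑ l, j l := ⟨_, rfl⟩
  have hJ0 : 0 < J := by
    rw [hJ]
    exact lt_of_lt_of_le (hj ⟨0, hr⟩) (single_le_sum (fun l _ => Nat.zero_le (j l)) (mem_univ (⟨0, hr⟩ : Fin r)))
  have hJR : (0 : ℝ) < J := by exact_mod_cast hJ0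
  obtain ⟨x, hx⟩ : ∃ x : Fin r → ℝ, ∀ l, x l = j l / (∑ l, j l : ℕ) := ⟨fun l => j l / (∑ l, j l : ℕ), fun l => rfl⟩
  have hx0 : ∀ l, 0 < x l := by
    intro l
    rw [hx, ← hJ]
    have : (0 : ℝ) < j l := by exact_mod_cast hj l
    positivity
  have hxs : ∑ l, x l = 1 := by
    rw [sum_congr rfl fun l _ => hx l, ← sum_div, ← hJ, div_eq_one_iff_eq hJR.ne', hJ]
    push_cast; rfl
  obtain ⟨μ, hμ0, hμ1, hμ⟩ := g_max hj hx hx0 he
  obtain ⟨κ, hκ⟩ : ∃ κ : ℝ, κ = μ ^ (1 / (J : ℝ)) := ⟨_, rfl⟩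
  have hκ0 : 0 < κ := by rw [hκ]; exact Real.rpow_pos_of_pos hμ0 _
  have hκ1 : κ < 1 := by rw [hκ]; exact Real.rpow_lt_one hμ0.le hμ1 (by positivity)
  have hκp : κ ^ J = μ := by
    rw [hκ, ← Real.rpow_natCast, ← Real.rpow_mul hμ0.le, one_div, inv_mul_cancel₀ hJR.ne', Real.rpow_one]
  obtain ⟨δ₁, hδ₁⟩ : ∃ δ₁ : ℝ, δ₁ = min δ₀ 1 := ⟨_, rfl⟩
  have hδ₁0 : 0 < δ₁ := by rw [hδ₁]; exact lt_min hδ₀ one_pos
  have hδ₁1 : δ₁ ≤ 1 := by rw [hδ₁]; exact min_le_right _ _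
  have hδ₁2 : δ₁ ≤ δ₀ := by rw [hδ₁]; exact min_le_left _ _
  have hθ' : 0 < 1 - θ := by linarith
  obtain ⟨K₀, hK₀⟩ := hS r x δ₁ (2 * θ / (1 - θ)) (θ / (2 * (1 - θ))) κ hx0 hxs hδ₁0 hδ₁1 (by positivity) (by positivity) hκ0 hκ1
  obtain ⟨M, hM⟩ : ∃ M : ℕ, M = K₀ + 1 := ⟨_, rfl⟩
  have hM1 : 1 ≤ M := by omega
  have hJM : M ≤ J * M := Nat.le_mul_of_pos_left M hJ0
  obtain ⟨K, hK⟩ : ∃ K : ℕ, J * M = K + 1 := ⟨J * M - 1, by omega⟩
  obtain ⟨γ, hγ⟩ := gam_ex (fun l => j l * M) (K + 1) (by rw [← sum_mul, ← hJ]; exact hK)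
  obtain ⟨F, hFx⟩ : ∃ F : ℝ, F = ∏ l, x l ^ j l := ⟨_, rfl⟩
  have hF0 : 0 < F := by rw [hFx]; exact prod_pos fun l _ => pow_pos (hx0 l) _
  have hFM : ∏ i, x (γ i) = F ^ M := by
    rw [hγ, hFx, ← prod_pow]
    exact prod_congr rfl fun l _ => by rw [pow_mul]
  have hκM : κ ^ (K + 1) = μ ^ M := by rw [← hK, pow_mul, hκp]
  obtain ⟨q, hq⟩ : ∃ q : ℝ, q = μ ^ M * F ^ M / 2 := ⟨_, rfl⟩
  have hq0 : 0 < q := by rw [hq]; positivity
  obtain ⟨ht1, ht2⟩ := Pool.Agent.J4H39.KP.times hθ hθ1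
  refine ⟨μ ^ M / 2, by positivity, ?_⟩
  have hNθ : Tendsto (fun N : ℕ => (N : ℝ) ^ θ) atTop atTop := (tendsto_rpow_atTop hθ).comp tendsto_natCast_atTop_atTop
  filter_upwards [hF K θ hθ hθ1 1 (Or.inl rfl) q hq0, hF K θ hθ hθ1 (-1) (Or.inr rfl) q hq0,
    ht1.eventually (hK₀ (K + 1) (by omega) γ), ht2, times2 hθ hθ1, eventually_ge_atTop 1, hNθ.eventually_ge_atTop 1]
    with N g1 g1' g3 g4 g5 hN hN2
  intro s hs R hR hdis δ hδ hδ1
  have g : ∀ (R : Fin (K + 1) → Set ℤ) (δ : Finset (Fin (K + 1)) → ℝ), (∀ i, InvS s (R i)) →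
      (∀ B, B.Nonempty → Tendsto (fun N : ℕ => ct s {n | ∀ i ∈ B, n ∈ R i} N / N) atTop (nhds (δ B))) →
      |mom s R N ⌊(N : ℝ) ^ θ⌋₊ - iw (cw (mZ δ) (tN (1 / th0) N - tN (θ / th0) N)) (tN (θ / th0) N) (fun _ => 0)| ≤ q := by
    rcases hs with rfl | rfl
    · exact g1
    · exact g1'
  obtain ⟨H, hH⟩ : ∃ H : ℕ, H = ⌊(N : ℝ) ^ θ⌋₊ := ⟨_, rfl⟩
  have hH1 : 1 ≤ H := by rw [hH]; exact Nat.le_floor (by rw [Nat.cast_one]; exact hN2)
  have hex : ∀ B : Finset (Fin (K + 1)), ∃ v : ℝ, 0 ≤ v ∧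
      (B.Nonempty → Tendsto (fun N : ℕ => ct s {n | ∀ i ∈ B, n ∈ R (γ i)} N / N) atTop (nhds v)) ∧
      (B.Nonempty → (∀ i ∈ B, ∀ j ∈ B, γ i = γ j) → δ₁ ≤ v) := by
    intro B
    rcases B.eq_empty_or_nonempty with hB | ⟨i₀, hi₀⟩
    · refine ⟨0, le_rfl, ?_, ?_⟩
      · intro h; rw [hB] at h; exact absurd h (by simp)
      · intro h; rw [hB] at h; exact absurd h (by simp)
    · by_cases hall : ∀ i ∈ B, ∀ j ∈ B, γ i = γ j
      · have e : {n : ℤ | ∀ i ∈ B, n ∈ R (γ i)} = R (γ i₀) := by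
          ext n
          simp only [Set.mem_setOf_eq]
          constructor
          · intro h'; exact h' i₀ hi₀
          · intro h' i hi; rw [hall i hi i₀ hi₀]; exact h'
        refine ⟨δ (γ i₀), by have := hδ1 (γ i₀); linarith, fun _ => ?_, fun _ _ => by have := hδ1 (γ i₀); linarith⟩
        rw [e]
        exact hδ (γ i₀)
      · have hall' := hall
        push Not at hall
        obtain ⟨i, hi, i', hi', hne⟩ := hall
        have e : {n : ℤ | ∀ i ∈ B, n ∈ R (γ i)} = ∅ := by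
          ext n
          simp only [Set.mem_setOf_eq, Set.mem_empty_iff_false, iff_false]
          intro h'
          exact Set.disjoint_left.1 (hdis _ _ hne) (h' i hi) (h' i' hi')
        refine ⟨0, le_rfl, fun _ => ?_, fun _ h => absurd h hall'⟩
        rw [e]
        have e2 : (fun N : ℕ => ct s (∅ : Set ℤ) N / N) = fun _ => (0 : ℝ) := by
          funext N
          unfold ct
          simp
        rw [e2]
        exact tendsto_const_nhds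
  choose v hv0 hv1 hv2 using hex
  have b1 := g (fun i => R (γ i)) v (fun i => hR _) hv1
  rw [← hH] at b1
  have b3 := g3 (tN (θ / th0) N) g5 g4.2
  have b4 : iw (cw (sepG γ δ₁) (tN (1 / th0) N - tN (θ / th0) N)) (tN (θ / th0) N) (fun _ => 0) ≤
      iw (cw (mZ v) (tN (1 / th0) N - tN (θ / th0) N)) (tN (θ / th0) N) (fun _ => 0) := by
    apply (isE_iw _ _).mono
    intro z
    apply (isE_cw _ _).mono
    intro u
    exact sepG_le hδ₁0.le hδ₁1 hv0 hv2 u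
  have b5 : mom (K := K + 1) s (fun i => R (γ i)) N H =
      (∑ n ∈ Finset.Icc 1 N, ∏ l, sh (R l) H (s * (n : ℕ)) ^ (j l * M)) / N := by
    unfold mom
    congr 1
    apply sum_congr rfl
    intro n _
    exact hγ (fun l => sh (R l) H (s * (n : ℕ)))
  rw [hκM, hFM] at b3
  have b6 : 3 / 2 * (μ ^ M * (∏ l, x l ^ j l) ^ M) ≤
      (∑ n ∈ Finset.Icc 1 N, ∏ l, sh (R l) H (s * (n : ℕ)) ^ (j l * M)) / N := by
    rw [← b5, ← hFx]
    have c1 := (abs_le.1 b1).1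
    have c3 : q = μ ^ M * F ^ M / 2 := hq
    linarith
  have b7 := count_nearG (S := fun n l => sh (R l) H (s * (n : ℕ))) hN hj hx hx0 hμ0 hμ (fun n l => (sh_mem (R l) H _).1)
    (fun n => sh_sum_le hdis hH1 _) b6
  refine b7.trans ?_
  rw [← hH]
  have hfin : {m : ℕ | (1 ≤ m ∧ m ≤ N) ∧ ∀ l, |sh (R l) H (s * m) - j l / (∑ l, j l : ℕ)| ≤ e}.Finite := by
    apply (Finset.finite_toSet (Finset.Icc 1 N)).subset
    intro n hn
    rw [Finset.mem_coe, Finset.mem_Icc]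
    exact hn.1
  have hsub : (((Finset.Icc 1 N).filter (fun n : ℕ => ‖(fun l => sh (R l) H (s * (n : ℕ))) - x‖ ≤ e) : Finset ℕ) : Set ℕ) ⊆
      {m : ℕ | (1 ≤ m ∧ m ≤ N) ∧ ∀ l, |sh (R l) H (s * m) - j l / (∑ l, j l : ℕ)| ≤ e} := by
    intro n hn
    rw [Finset.mem_coe, Finset.mem_filter, Finset.mem_Icc] at hn
    refine ⟨hn.1, fun l => ?_⟩
    have h3 := (norm_le_pi_norm ((fun l => sh (R l) H (s * (n : ℕ))) - x) l).trans hn.2
    rw [Pi.sub_apply, Real.norm_eq_abs, hx] at h3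
    exact h3
  have h5 := Set.ncard_le_ncard hsub hfin
  rw [Set.ncard_coe_finset] at h5
  exact_mod_cast h5

/-- rational points of the simplex -/
theorem rat_ex {r : ℕ} (hr : 0 < r) {x : Fin r → ℝ} (hx : ∀ l, 0 ≤ x l) (hxs : ∑ l, x l = 1) {ε : ℝ} (hε : 0 < ε) :
    ∃ j : Fin r → ℕ, (∀ l, 0 < j l) ∧ ∀ l, |(j l : ℝ) / (∑ l, j l : ℕ) - x l| ≤ ε := by
  obtain ⟨Q, hQ⟩ := exists_nat_gt (((r : ℝ) + 1) / ε)
  have hQ0 : (0 : ℝ) < Q := lt_trans (by positivity) hQ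
  refine ⟨fun l => ⌊Q * x l⌋₊ + 1, fun l => Nat.succ_pos _, fun l => ?_⟩
  obtain ⟨J, hJ⟩ : ∃ J : ℝ, J = ((∑ l, (⌊Q * x l⌋₊ + 1) : ℕ) : ℝ) := ⟨_, rfl⟩
  have e1 : J = ∑ l, ((⌊Q * x l⌋₊ : ℝ) + 1) := by rw [hJ]; push_cast; rfl
  have h1 : (Q : ℝ) ≤ J := by
    rw [e1]
    calc (Q : ℝ) = ∑ l, Q * x l := by rw [← mul_sum, hxs, mul_one]
      _ ≤ ∑ l, ((⌊Q * x l⌋₊ : ℝ) + 1) := sum_le_sum fun l _ => (Nat.lt_floor_add_one _).le
  have h2 : J ≤ Q + r := by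
    rw [e1, sum_add_distrib, sum_const, card_univ, Fintype.card_fin, nsmul_eq_mul, mul_one]
    have : ∑ l, (⌊Q * x l⌋₊ : ℝ) ≤ ∑ l, Q * x l := sum_le_sum fun l _ => Nat.floor_le (mul_nonneg hQ0.le (hx l))
    rw [← mul_sum, hxs, mul_one] at this
    linarith
  have hJ0 : 0 < J := lt_of_lt_of_le hQ0 h1
  have hxl : x l ≤ 1 := by rw [← hxs]; exact single_le_sum (fun l _ => hx l) (mem_univ l)
  have h3 : |((⌊Q * x l⌋₊ + 1 : ℕ) : ℝ) / J - x l| ≤ (r + 1) / Q := by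
    have e2 : ((⌊Q * x l⌋₊ + 1 : ℕ) : ℝ) / J - x l = (((⌊Q * x l⌋₊ + 1 : ℕ) : ℝ) - J * x l) / J := by field_simp
    rw [e2, abs_div, abs_of_pos hJ0]
    apply div_le_div₀ (by positivity) _ hQ0 h1
    have f1 := Nat.floor_le (mul_nonneg hQ0.le (hx l))
    have f2 := Nat.lt_floor_add_one (Q * x l)
    have f3 : (J - Q) * x l ≤ (J - Q) * 1 := mul_le_mul_of_nonneg_left hxl (by linarith)
    have f4 : 0 ≤ (J - Q) * x l := mul_nonneg (by linarith) (hx l)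
    push_cast
    rw [abs_le]
    constructor <;> nlinarith
  rw [← hJ]
  refine h3.trans ?_
  rw [div_le_iff₀ hQ0]
  rw [div_lt_iff₀ hε] at hQ
  linarith

/-- **The joint law of the shares of disjoint invariant sets has full support.** -/
theorem t_SUPG (hF : S_FIN) (hS : S_SUPR) {θ ε δ₀ : ℝ} (hθ : 0 < θ) (hθ1 : θ < 1) (hε : 0 < ε) (hδ₀ : 0 < δ₀) {r : ℕ}
    {x : Fin r → ℝ} (hx : ∀ l, 0 ≤ x l) (hxs : ∑ l, x l = 1) :
    ∃ c : ℝ, 0 < c ∧ ∀ᶠ N : ℕ in atTop, ∀ s : ℤ, (s = 1 ∨ s = -1) → ∀ R : Fin r → Set ℤ, (∀ l, InvS s (R l)) →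
      (∀ l l', l ≠ l' → Disjoint (R l) (R l')) → ∀ δ : Fin r → ℝ,
      (∀ l, Tendsto (fun N : ℕ => ct s (R l) N / N) atTop (nhds (δ l))) → (∀ l, δ₀ ≤ δ l) →
      c * N ≤ ({m : ℕ | (1 ≤ m ∧ m ≤ N) ∧ ∀ l, |sh (R l) ⌊(N : ℝ) ^ θ⌋₊ (s * m) - x l| ≤ ε}.ncard : ℝ) := by
  have hr : 0 < r := by
    rcases Nat.eq_zero_or_pos r with h | h
    · subst h
      simp at hxs
    · exact h
  obtain ⟨j, hj, hjx⟩ := rat_ex hr hx hxs (half_pos hε)
  obtain ⟨c, hc, hev⟩ := sup_ratG hF hS hθ hθ1 (half_pos hε) hδ₀ hr hj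
  refine ⟨c, hc, ?_⟩
  filter_upwards [hev] with N h s hs R hR hdis δ hδ hδ1
  refine (h s hs R hR hdis δ hδ hδ1).trans ?_
  have hfin : {m : ℕ | (1 ≤ m ∧ m ≤ N) ∧ ∀ l, |sh (R l) ⌊(N : ℝ) ^ θ⌋₊ (s * m) - x l| ≤ ε}.Finite := by
    apply (Finset.finite_toSet (Finset.Icc 1 N)).subset
    intro n hn
    rw [Finset.mem_coe, Finset.mem_Icc]
    exact hn.1
  have hsub : {m : ℕ | (1 ≤ m ∧ m ≤ N) ∧ ∀ l, |sh (R l) ⌊(N : ℝ) ^ θ⌋₊ (s * m) - j l / (∑ l, j l : ℕ)| ≤ ε / 2} ⊆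
      {m : ℕ | (1 ≤ m ∧ m ≤ N) ∧ ∀ l, |sh (R l) ⌊(N : ℝ) ^ θ⌋₊ (s * m) - x l| ≤ ε} := by
    intro m hm
    refine ⟨hm.1, fun l => ?_⟩
    have h3 := abs_sub_le (sh (R l) ⌊(N : ℝ) ^ θ⌋₊ (s * m)) (j l / (∑ l, j l : ℕ)) (x l)
    have h4 : |sh (R l) ⌊(N : ℝ) ^ θ⌋₊ (s * m) - j l / (∑ l, j l : ℕ)| ≤ ε / 2 := hm.2 l
    have h5 := hjx l
    linarith
  exact_mod_cast Set.ncard_le_ncard hsub hfin

end Pool.Agent.J4H26.KP
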