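import Mathlib
import Pool.Agent.J4H26.KP.Main2
import Pool.Agent.J4H26.KP.Supr2
import Pool.Agent.J4H98.KP.Ul
import Pool.Agent.J4H18.KP.Qntr
import Pool.Agent.J4H18.KP.Supr
import Pool.Agent.J4H49.KP.Mass
import Pool.Agent.J4H30.KP.Inf
import Pool.Agent.J4H53.KP.Apart
import Pool.Agent.J4H55.KP.Sepr

set_option autoImplicit false

/-! Project KP: assembly of the third part (the support of the limit law). -/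

namespace Pool.Agent.J4H26.KP

open Filter Real
open Pool.Agent.J4H26.PC (InvS ct)

theorem k_INF : S_INF := Pool.Agent.J4H30.KP.t_INF Pool.Agent.J4H98.KP.t_UFAR Pool.Agent.J4H49.KP.t_MASS
theorem k_APART : S_APART := Pool.Agent.J4H53.KP.t_APART
theorem k_SEPR : S_SEPR := Pool.Agent.J4H55.KP.t_SEPR k_APART
theorem k_QNTR : S_QNTR := Pool.Agent.J4H18.KP.t_QNTR
theorem k_SUPR : S_SUPR := Pool.Agent.J4H18.KP.t_SUPR k_SEPR k_QNTR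

theorem main_SUPG {θ ε δ₀ : ℝ} (hθ : 0 < θ) (hθ1 : θ < 1) (hε : 0 < ε) (hδ₀ : 0 < δ₀) {r : ℕ}
    {x : Fin r → ℝ} (hx : ∀ l, 0 ≤ x l) (hxs : ∑ l, x l = 1) :
    ∃ c : ℝ, 0 < c ∧ ∀ᶠ N : ℕ in atTop, ∀ s : ℤ, (s = 1 ∨ s = -1) → ∀ R : Fin r → Set ℤ, (∀ l, InvS s (R l)) →
      (∀ l l', l ≠ l' → Disjoint (R l) (R l')) → ∀ δ : Fin r → ℝ,
      (∀ l, Tendsto (fun N : ℕ => ct s (R l) N / N) atTop (nhds (δ l))) → (∀ l, δ₀ ≤ δ l) →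
      c * N ≤ ({m : ℕ | (1 ≤ m ∧ m ≤ N) ∧ ∀ l, |sh (R l) ⌊(N : ℝ) ^ θ⌋₊ (s * m) - x l| ≤ ε}.ncard : ℝ) :=
  t_SUPG main_FIN k_SUPR hθ hθ1 hε hδ₀ hx hxs

theorem main_NOA {θ η δ₀ : ℝ} (hθ : 0 < θ) (hθ1 : θ < 1) (hη : 0 < η) (hδ₀ : 0 < δ₀) :
    ∃ ε : ℝ, 0 < ε ∧ ∀ᶠ N : ℕ in atTop, ∀ s : ℤ, (s = 1 ∨ s = -1) → ∀ R : Set ℤ, InvS s R → ∀ δ : ℝ,
      Tendsto (fun N : ℕ => ct s R N / N) atTop (nhds δ) → δ₀ ≤ δ →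
      ({m : ℕ | (1 ≤ m ∧ m ≤ N) ∧ sh R ⌊(N : ℝ) ^ θ⌋₊ (s * m) < ε}.ncard : ℝ) ≤ η * N := by
  obtain ⟨ε, hε, hev⟩ := t_NOA main_FIN k_INF hθ hθ1 hη hδ₀
  refine ⟨ε, hε, ?_⟩
  filter_upwards [hev, eventually_ge_atTop 1] with N h hN s hs R hR δ hδ hδ0
  have hN1 : (1 : ℝ) ≤ N := by exact_mod_cast hN
  have hH : 1 ≤ ⌊(N : ℝ) ^ θ⌋₊ := Nat.le_floor (by rw [Nat.cast_one]; exact Real.one_le_rpow hN1 hθ.le)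
  refine le_trans ?_ (h s hs Rᶜ (inv_compl hR) (1 - δ) (dens_compl hs hδ) (by linarith))
  have hfin : {m : ℕ | (1 ≤ m ∧ m ≤ N) ∧ 1 - ε ≤ sh Rᶜ ⌊(N : ℝ) ^ θ⌋₊ (s * m)}.Finite := by
    apply (Finset.finite_toSet (Finset.Icc 1 N)).subset
    intro n hn
    rw [Finset.mem_coe, Finset.mem_Icc]
    exact hn.1
  have hsub : {m : ℕ | (1 ≤ m ∧ m ≤ N) ∧ sh R ⌊(N : ℝ) ^ θ⌋₊ (s * m) < ε} ⊆
      {m : ℕ | (1 ≤ m ∧ m ≤ N) ∧ 1 - ε ≤ sh Rᶜ ⌊(N : ℝ) ^ θ⌋₊ (s * m)} := by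
    rintro m ⟨a, b⟩
    refine ⟨a, ?_⟩
    rw [sh_compl R hH]
    linarith
  exact_mod_cast Set.ncard_le_ncard hsub hfin

end Pool.Agent.J4H26.KP
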