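import Mathlib
import Pool.Agent.J4H26.KP.Noat
import Pool.Agent.J4H26.KP.Sup2

set_option autoImplicit false

/-! Project KP: the law of the share has no atoms.  Assembly. -/

namespace Pool.Agent.J4H26.KP

open Finset Filter Real
open Pool.Agent.J4H39 (th0 tN)
open Pool.Agent.J4H26.PC (InvS ct)
open Pool.Agent.J4H26.KT (iw cw sw isE_cw isE_iw)

open Classical in
theorem dA_dens {s : ℤ} (hs : s = 1 ∨ s = -1) {R : Set ℤ} {δ : ℝ} (h : Tendsto (fun N : ℕ => ct s R N / N) atTop (nhds δ)) {K : ℕ}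
    (A B : Finset (Fin K)) (hB : B.Nonempty) :
    Tendsto (fun N : ℕ => ct s {n | ∀ i ∈ B, n ∈ (fun i : Fin K => if i ∈ A then R else Rᶜ) i} N / N) atTop (nhds (dA A δ B)) := by
  obtain ⟨i₀, hi₀⟩ := hB
  unfold dA
  by_cases h1 : B ⊆ A
  · rw [if_pos h1]
    have e : {n : ℤ | ∀ i ∈ B, n ∈ (fun i : Fin K => if i ∈ A then R else Rᶜ) i} = R := by
      ext n
      simp only [Set.mem_setOf_eq]
      constructor
      · intro h'
        have := h' i₀ hi₀
        rwa [if_pos (h1 hi₀)] at this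
      · intro h' i hi
        rwa [if_pos (h1 hi)]
    rw [e]
    exact h
  · rw [if_neg h1]
    by_cases h2 : Disjoint B A
    · rw [if_pos h2]
      have h3 : ∀ i ∈ B, i ∉ A := fun i hi hi' => Finset.disjoint_left.1 h2 hi hi'
      have e : {n : ℤ | ∀ i ∈ B, n ∈ (fun i : Fin K => if i ∈ A then R else Rᶜ) i} = Rᶜ := by
        ext n
        simp only [Set.mem_setOf_eq]
        constructor
        · intro h'
          have := h' i₀ hi₀
          rwa [if_neg (h3 i₀ hi₀)] at this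
        · intro h' i hi
          rwa [if_neg (h3 i hi)]
      rw [e]
      exact dens_compl hs h
    · rw [if_neg h2]
      rw [Finset.not_subset] at h1
      rw [Finset.not_disjoint_iff] at h2
      obtain ⟨i, hi, hi'⟩ := h1
      obtain ⟨j, hj, hj'⟩ := h2
      have e : {n : ℤ | ∀ i ∈ B, n ∈ (fun i : Fin K => if i ∈ A then R else Rᶜ) i} = ∅ := by
        ext n
        simp only [Set.mem_setOf_eq, Set.mem_empty_iff_false, iff_false]
        intro h'
        have a1 := h' i hi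
        have a2 := h' j hj
        rw [if_neg hi'] at a1
        rw [if_pos hj'] at a2
        exact a1 a2
      rw [e]
      have e2 : (fun N : ℕ => ct s (∅ : Set ℤ) N / N) = fun _ => (0 : ℝ) := by
        funext N
        unfold ct
        simp
      rw [e2]
      exact tendsto_const_nhds

open Classical in
theorem prod_types {K : ℕ} (A : Finset (Fin K)) (x y : ℝ) : ∏ i : Fin K, (if i ∈ A then x else y) = x ^ #A * y ^ (K - #A) := by
  rw [prod_ite, prod_const, prod_const]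
  congr 2
  · congr 1
    ext i; simp
  · have h1 : (univ.filter fun i : Fin K => i ∉ A) = Aᶜ := by ext i; simp
    rw [h1, card_compl, Fintype.card_fin]

open Classical in
/-- **The law of the share has no atoms.** -/
theorem t_NOAT (hF : S_FIN) (hB : S_BIG) (hL : S_LO) (hE : S_EXP) (hC : S_CHB) {θ η δ₀ : ℝ} (hθ : 0 < θ) (hθ1 : θ < 1)
    (hη : 0 < η) (hδ₀ : 0 < δ₀) :
    ∃ ε : ℝ, 0 < ε ∧ ∀ᶠ N : ℕ in atTop, ∀ s : ℤ, (s = 1 ∨ s = -1) → ∀ R : Set ℤ, InvS s R → ∀ δ : ℝ,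
      Tendsto (fun N : ℕ => ct s R N / N) atTop (nhds δ) → δ₀ ≤ δ → δ ≤ 1 - δ₀ → ∀ x : ℝ,
      ({m : ℕ | (1 ≤ m ∧ m ≤ N) ∧ |sh R ⌊(N : ℝ) ^ θ⌋₊ (s * m) - x| ≤ ε}.ncard : ℝ) ≤ η * N := by
  have hθ' : 0 < 1 - θ := by linarith
  obtain ⟨J, hJ⟩ := hL δ₀ (η / 8) hδ₀ (by positivity)
  obtain ⟨w, hw, K₀, hK₀⟩ := hB J (η / 8) (2 * θ / (1 - θ)) (θ / (2 * (1 - θ))) (by positivity) (by positivity) (by positivity)
  obtain ⟨ε, hε⟩ : ∃ ε : ℝ, ε = w / 8 := ⟨_, rfl⟩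
  have hε0 : 0 < ε := by rw [hε]; positivity
  obtain ⟨M, hM⟩ := exists_nat_gt (1 / (2 * ε ^ 2))
  obtain ⟨K, hK⟩ : ∃ K : ℕ, K = max K₀ M := ⟨_, rfl⟩
  have hK1 : K₀ ≤ K + 1 := by rw [hK]; exact (le_max_left _ _).trans (Nat.le_succ _)
  have hKM : 1 / (2 * ε ^ 2) ≤ (K + 1 : ℕ) := by
    have h1 : (M : ℝ) ≤ ((K + 1 : ℕ) : ℝ) := by
      have : M ≤ K + 1 := by rw [hK]; exact (le_max_right _ _).trans (Nat.le_succ _)
      exact_mod_cast this
    exact hM.le.trans h1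
  have hKR : (0 : ℝ) < ((K + 1 : ℕ) : ℝ) := by positivity
  obtain ⟨q, hq⟩ : ∃ q : ℝ, q = η / (8 * 2 ^ (K + 1)) := ⟨_, rfl⟩
  have hq0 : 0 < q := by rw [hq]; positivity
  obtain ⟨ht1, ht2⟩ := Pool.Agent.J4H39.KP.times hθ hθ1
  refine ⟨ε, hε0, ?_⟩
  have hNθ : Tendsto (fun N : ℕ => (N : ℝ) ^ θ) atTop atTop := (tendsto_rpow_atTop hθ).comp tendsto_natCast_atTop_atTop
  filter_upwards [hF K θ hθ hθ1 1 (Or.inl rfl) q hq0, hF K θ hθ hθ1 (-1) (Or.inr rfl) q hq0,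
    ht1.eventually (hK₀ (K + 1) hK1), ht2, times2 hθ hθ1, eventually_ge_atTop 1, hNθ.eventually_ge_atTop 1]
    with N g1 g1' g3 g4 g5 hN hN2
  intro s hs R hR δ hδ hδ1 hδ2 x
  have g : ∀ (R : Fin (K + 1) → Set ℤ) (δ : Finset (Fin (K + 1)) → ℝ), (∀ i, InvS s (R i)) →
      (∀ B, B.Nonempty → Tendsto (fun N : ℕ => ct s {n | ∀ i ∈ B, n ∈ R i} N / N) atTop (nhds (δ B))) →
      |mom s R N ⌊(N : ℝ) ^ θ⌋₊ - EW θ N (mZ δ)| ≤ q := by
    rcases hs with rfl | rfl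
    · exact g1
    · exact g1'
  obtain ⟨H, hH⟩ : ∃ H : ℕ, H = ⌊(N : ℝ) ^ θ⌋₊ := ⟨_, rfl⟩
  have hH1 : 1 ≤ H := by rw [hH]; exact Nat.le_floor (by rw [Nat.cast_one]; exact hN2)
  rw [← hH]
  have hN0 : (0 : ℝ) < N := by exact_mod_cast hN
  have hδ0 : 0 ≤ δ := hδ₀.le.trans hδ1
  have hδ1' : 0 ≤ 1 - δ := by linarith
  obtain ⟨φ, hφ⟩ : ∃ φ : ℕ → ℝ, φ = fun j : ℕ => if |(j : ℝ) / ((K + 1 : ℕ) : ℝ) - x| ≤ 2 * ε then (1 : ℝ) else 0 := ⟨_, rfl⟩
  have hφ0 : ∀ j, 0 ≤ φ j := by intro j; rw [hφ]; dsimp only; split_ifs <;> norm_num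
  have hφ1 : ∀ j, φ j ≤ 1 := by intro j; rw [hφ]; dsimp only; split_ifs <;> norm_num
  -- the mean for the types `A`
  have hmom : ∀ A : Finset (Fin (K + 1)), (∑ n ∈ Finset.Icc 1 N, sh R H (s * (n : ℕ)) ^ #A * (1 - sh R H (s * (n : ℕ))) ^ (K + 1 - #A)) / N ≤
      EW θ N (mZ (dA A δ)) + q := by
    intro A
    have b1 := g (fun i => if i ∈ A then R else Rᶜ) (dA A δ) (by intro i; split_ifs; exacts [hR, inv_compl hR])
      (fun B hB => dA_dens hs hδ A B hB)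
    rw [← hH] at b1
    have b5 : mom (K := K + 1) s (fun i => if i ∈ A then R else Rᶜ) N H =
        (∑ n ∈ Finset.Icc 1 N, sh R H (s * (n : ℕ)) ^ #A * (1 - sh R H (s * (n : ℕ))) ^ (K + 1 - #A)) / N := by
      unfold mom
      congr 1
      apply sum_congr rfl
      intro n _
      rw [← prod_types A (sh R H (s * (n : ℕ))) (1 - sh R H (s * (n : ℕ)))]
      apply prod_congr rfl
      intro i _
      show sh (if i ∈ A then R else Rᶜ) H (s * (n : ℕ)) = _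
      split_ifs with hi
      · rfl
      · rw [sh_compl R hH1]
    rw [b5] at b1
    have := (abs_le.1 b1).2
    linarith
  -- Chebyshev
  have hcheb : ∀ n : ℕ, |sh R H (s * (n : ℕ)) - x| ≤ ε → 1 / 2 ≤
      ∑ A : Finset (Fin (K + 1)), φ #A * (sh R H (s * (n : ℕ)) ^ #A * (1 - sh R H (s * (n : ℕ))) ^ (K + 1 - #A)) := by
    intro n hn
    have hS0 := (sh_mem R H (s * (n : ℕ))).1
    have hS1 := (sh_mem R H (s * (n : ℕ))).2
    have h1 := hC (K + 1) (sh R H (s * (n : ℕ))) ε (Nat.succ_pos _) hS0 hS1 hε0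
    have h2 : (1 : ℝ) / 2 ≤ 1 - 1 / (4 * ((K + 1 : ℕ) : ℝ) * ε ^ 2) := by
      have h3 : 1 / (4 * ((K + 1 : ℕ) : ℝ) * ε ^ 2) ≤ 1 / 2 := by
        apply one_div_le_one_div_of_le (by norm_num)
        rw [div_le_iff₀ (by positivity)] at hKM
        nlinarith
      linarith
    refine (h2.trans h1).trans ?_
    apply sum_le_sum
    intro A _
    rw [mul_comm]
    apply mul_le_mul_of_nonneg_right _ (mul_nonneg (pow_nonneg hS0 _) (pow_nonneg (by linarith) _))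
    rw [hφ]
    dsimp only
    by_cases h3 : |((#A : ℕ) : ℝ) / ((K + 1 : ℕ) : ℝ) - sh R H (s * (n : ℕ))| ≤ ε
    · rw [if_pos h3, if_pos]
      refine (abs_sub_le _ (sh R H (s * (n : ℕ))) _).trans ?_
      linarith
    · rw [if_neg h3]
      split_ifs <;> norm_num
  -- the model
  have hmodel : ∑ A : Finset (Fin (K + 1)), φ #A * EW θ N (mZ (dA A δ)) ≤ η / 4 := by
    have hEE := isE_EW (K := K + 1) θ N
    have e1 : ∑ A : Finset (Fin (K + 1)), φ #A * EW θ N (mZ (dA A δ)) =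
        EW θ N (fun u : Fin (K + 1) → ℤ => ∑ A : Finset (Fin (K + 1)), φ #A * mZ (dA A δ) u) := by
      rw [hEE.sum]
      exact sum_congr rfl fun A _ => (hEE.smul _ _).symm
    rw [e1]
    have e2 : ∀ u : Fin (K + 1) → ℤ, ∑ A : Finset (Fin (K + 1)), φ #A * mZ (dA A δ) u ≤ (η / 8 + 1) + (-1) * bigI w J u := by
      intro u
      rw [hE (K + 1) u δ φ]
      have htot : ∑ S ∈ (cz u).powerset, δ ^ #S * (1 - δ) ^ (#(cz u) - #S) = 1 := by
        rw [Finset.sum_pow_mul_eq_add_pow]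
        rw [add_sub_cancel, one_pow]
      unfold bigI
      split_ifs with hb
      · have h3 := hJ (Finset (Fin (K + 1))) (cz u) (fun B => (#B : ℝ)) (4 * ε * ((K + 1 : ℕ) : ℝ)) (by positivity)
          (fun B _ => Nat.cast_nonneg _) (hb.trans (card_le_card (by
            intro B hB
            rw [mem_filter] at hB ⊢
            refine ⟨hB.1, lt_of_lt_of_le ?_ hB.2⟩
            rw [hε]
            nlinarith))) δ hδ1 hδ2 ((x - 2 * ε) * ((K + 1 : ℕ) : ℝ))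
        have h4 : ∑ S ∈ (cz u).powerset, δ ^ #S * (1 - δ) ^ (#(cz u) - #S) * φ (∑ B ∈ S, #B) ≤
            ∑ S ∈ (cz u).powerset, δ ^ #S * (1 - δ) ^ (#(cz u) - #S) *
              (if (x - 2 * ε) * ((K + 1 : ℕ) : ℝ) ≤ ∑ B ∈ S, (#B : ℝ) ∧
                ∑ B ∈ S, (#B : ℝ) ≤ (x - 2 * ε) * ((K + 1 : ℕ) : ℝ) + 4 * ε * ((K + 1 : ℕ) : ℝ) then (1 : ℝ) else 0) := by
          apply sum_le_sum
          intro S _
          apply mul_le_mul_of_nonneg_left _ (mul_nonneg (pow_nonneg hδ0 _) (pow_nonneg hδ1' _))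
          rw [hφ]
          dsimp only
          by_cases h5 : |((∑ B ∈ S, #B : ℕ) : ℝ) / ((K + 1 : ℕ) : ℝ) - x| ≤ 2 * ε
          · rw [if_pos h5, if_pos]
            rw [abs_le] at h5
            have h6 : ((∑ B ∈ S, #B : ℕ) : ℝ) = ∑ B ∈ S, (#B : ℝ) := by push_cast; rfl
            rw [h6] at h5
            obtain ⟨h7, h8⟩ := h5
            have h9 : x - 2 * ε ≤ (∑ B ∈ S, (#B : ℝ)) / ((K + 1 : ℕ) : ℝ) := by linarith
            have h10 : (∑ B ∈ S, (#B : ℝ)) / ((K + 1 : ℕ) : ℝ) ≤ x + 2 * ε := by linarith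
            rw [le_div_iff₀ hKR] at h9
            rw [div_le_iff₀ hKR] at h10
            refine ⟨h9, h10.trans (le_of_eq (by ring))⟩
          · rw [if_neg h5]
            split_ifs <;> norm_num
        linarith
      · have h4 : ∑ S ∈ (cz u).powerset, δ ^ #S * (1 - δ) ^ (#(cz u) - #S) * φ (∑ B ∈ S, #B) ≤
            ∑ S ∈ (cz u).powerset, δ ^ #S * (1 - δ) ^ (#(cz u) - #S) := by
          apply sum_le_sum
          intro S _
          have h5 : 0 ≤ δ ^ #S * (1 - δ) ^ (#(cz u) - #S) := mul_nonneg (pow_nonneg hδ0 _) (pow_nonneg hδ1' _)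
          calc _ ≤ δ ^ #S * (1 - δ) ^ (#(cz u) - #S) * 1 := mul_le_mul_of_nonneg_left (hφ1 _) h5
            _ = _ := mul_one _
        rw [htot] at h4
        linarith
    have e3 := hEE.mono _ _ e2
    rw [hEE.add, hEE.const, hEE.smul] at e3
    have e4 : 1 - η / 8 ≤ EW θ N (bigI w J : (Fin (K + 1) → ℤ) → ℝ) := g3 (tN (θ / th0) N) g5 g4.2
    refine e3.trans ?_
    linarith
  -- the count
  have hset : {m : ℕ | (1 ≤ m ∧ m ≤ N) ∧ |sh R H (s * m) - x| ≤ ε} =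
      (((Finset.Icc 1 N).filter (fun n : ℕ => |sh R H (s * (n : ℕ)) - x| ≤ ε) : Finset ℕ) : Set ℕ) := by
    ext m
    rw [Finset.mem_coe, Finset.mem_filter, Finset.mem_Icc]
    rfl
  rw [hset, Set.ncard_coe_finset]
  have b6 : ∑ n ∈ Finset.Icc 1 N, (if |sh R H (s * (n : ℕ)) - x| ≤ ε then (1 : ℝ) / 2 else 0) ≤
      ∑ n ∈ Finset.Icc 1 N, ∑ A : Finset (Fin (K + 1)), φ #A * (sh R H (s * (n : ℕ)) ^ #A * (1 - sh R H (s * (n : ℕ))) ^ (K + 1 - #A)) := by
    apply sum_le_sum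
    intro n _
    split_ifs with hh
    · exact hcheb n hh
    · apply sum_nonneg
      intro A _
      have hS0 := (sh_mem R H (s * (n : ℕ))).1
      have hS1 := (sh_mem R H (s * (n : ℕ))).2
      exact mul_nonneg (hφ0 _) (mul_nonneg (pow_nonneg hS0 _) (pow_nonneg (by linarith) _))
  rw [← sum_filter, sum_const, nsmul_eq_mul, sum_comm] at b6
  have b7 : ∑ A : Finset (Fin (K + 1)), ∑ n ∈ Finset.Icc 1 N, φ #A * (sh R H (s * (n : ℕ)) ^ #A * (1 - sh R H (s * (n : ℕ))) ^ (K + 1 - #A)) ≤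
      ∑ A : Finset (Fin (K + 1)), (φ #A * EW θ N (mZ (dA A δ)) + q) * N := by
    apply sum_le_sum
    intro A _
    rw [← mul_sum]
    have h1 := hmom A
    rw [div_le_iff₀ hN0] at h1
    have h2 := mul_le_mul_of_nonneg_left h1 (hφ0 #A)
    have h3 : φ #A * q ≤ q := by
      have := mul_le_mul_of_nonneg_right (hφ1 #A) hq0.le
      linarith
    have h4 : φ #A * q * N ≤ q * N := mul_le_mul_of_nonneg_right h3 hN0.le
    calc _ ≤ φ #A * ((EW θ N (mZ (dA A δ)) + q) * N) := h2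
      _ = φ #A * EW θ N (mZ (dA A δ)) * N + φ #A * q * N := by ring
      _ ≤ φ #A * EW θ N (mZ (dA A δ)) * N + q * N := by linarith
      _ = _ := by ring
  rw [← sum_mul, sum_add_distrib, sum_const, card_univ, Fintype.card_finset, Fintype.card_fin, nsmul_eq_mul] at b7
  have h8 : ((2 ^ (K + 1) : ℕ) : ℝ) * q = η / 8 := by
    rw [hq]; push_cast; field_simp
  rw [h8] at b7
  have h9 : (∑ A : Finset (Fin (K + 1)), φ #A * EW θ N (mZ (dA A δ)) + η / 8) * N ≤ (η / 4 + η / 8) * N :=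
    mul_le_mul_of_nonneg_right (by linarith) hN0.le
  have h10 := b6.trans (b7.trans h9)
  nlinarith

end Pool.Agent.J4H26.KP
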