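import Mathlib
import Pool.Agent.J4H26.KP.Main3
import Pool.Agent.J4H26.KP.Noat2
import Pool.Agent.J4H72.KP.Big
import Pool.Agent.J4H21.KP.Mode
import Pool.Agent.J4H21.KP.Lo
import Pool.Agent.J4H54.KP.Expo
import Pool.Agent.J4H31.KP.Chb

set_option autoImplicit false

/-! Project KP: assembly of the fourth part (no atoms). -/

namespace Pool.Agent.J4H26.KP

open Filter Real
open Pool.Agent.J4H26.PC (InvS ct)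

theorem k_BIG : S_BIG := Pool.Agent.J4H72.KP.t_BIG Pool.Agent.J4H98.KP.t_UFAR Pool.Agent.J4H49.KP.t_MASS
theorem k_LO : S_LO := Pool.Agent.J4H21.KP.t_LO Pool.Agent.J4H21.KP.t_MODE

theorem main_NOAT {θ η δ₀ : ℝ} (hθ : 0 < θ) (hθ1 : θ < 1) (hη : 0 < η) (hδ₀ : 0 < δ₀) :
    ∃ ε : ℝ, 0 < ε ∧ ∀ᶠ N : ℕ in atTop, ∀ s : ℤ, (s = 1 ∨ s = -1) → ∀ R : Set ℤ, InvS s R → ∀ δ : ℝ,
      Tendsto (fun N : ℕ => ct s R N / N) atTop (nhds δ) → δ₀ ≤ δ → δ ≤ 1 - δ₀ → ∀ x : ℝ,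
      ({m : ℕ | (1 ≤ m ∧ m ≤ N) ∧ |sh R ⌊(N : ℝ) ^ θ⌋₊ (s * m) - x| ≤ ε}.ncard : ℝ) ≤ η * N :=
  t_NOAT main_FIN k_BIG k_LO Pool.Agent.J4H54.KP.t_EXP Pool.Agent.J4H31.KP.t_CHB hθ hθ1 hη hδ₀

end Pool.Agent.J4H26.KP
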